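import Pool.Agent.Lib.MP_410da7_agBP.SpecA

/-!
# Four lines: module ALG
-/

set_option autoImplicit false

namespace Pool.Agent.BP

open Polynomial

namespace AlgM

theorem root_mem {k L : Type} [Field k] [IsAlgClosed k] [Field L] [Algebra k L] {r : L} {n : ℕ}
    (hn : 0 < n) (h : r ^ n = 1) : ∃ s : k, algebraMap k L s = r := by
  have h1 : IsIntegral k r := ⟨X ^ n - C 1, monic_X_pow_sub_C 1 hn.ne', by simp [h]⟩
  exact minpoly.mem_range_of_degree_eq_one k r
    (IsAlgClosed.degree_eq_one_of_irreducible k (minpoly.irreducible h1))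

theorem mult_pow {L : Type} [Field L] (x : L[X]) (n : ℕ) (r : L) :
    n ∣ (x ^ n).rootMultiplicity r := by
  classical
  rw [← count_roots, roots_pow, Multiset.count_nsmul]
  exact Dvd.intro _ rfl

end AlgM

open AlgM in
theorem stmtAlg : StmtAlg := by
  intro hPw k L _ _ _ _ x n hn
  rintro ⟨z, hz⟩
  have hinj : Function.Injective (algebraMap k L) := (algebraMap k L).injective
  by_cases hz0 : z = 0
  · refine ⟨0, ?_⟩
    rw [hz0, Polynomial.map_zero] at hz
    rw [Polynomial.map_zero]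
    exact pow_eq_zero_iff hn.ne' |>.1 hz
  obtain ⟨w, hw⟩ := hPw k z n hn hz0 (fun r => by
    rw [eq_rootMultiplicity_map hinj, ← hz]
    exact mult_pow x n _)
  have h1 : x ^ n = (w.map (algebraMap k L)) ^ n := by
    rw [hz, hw, Polynomial.map_pow]
  have h2 : Associated x (w.map (algebraMap k L)) := by
    refine associated_of_dvd_dvd ?_ ?_
    · exact (IsIntegrallyClosed.pow_dvd_pow_iff hn.ne').1 (h1 ▸ dvd_rfl)
    · exact (IsIntegrallyClosed.pow_dvd_pow_iff hn.ne').1 (h1 ▸ dvd_rfl)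
  obtain ⟨u, hu⟩ := h2
  obtain ⟨c, hc, hcu⟩ := Polynomial.isUnit_iff.1 u.isUnit
  have hx0 : x ^ n ≠ 0 := by
    rw [hz]
    exact (Polynomial.map_ne_zero_iff hinj).2 hz0
  have h3 : c ^ n = 1 := by
    rw [← hu, ← hcu, mul_pow] at h1
    have h4 : x ^ n * 1 = x ^ n * C (c ^ n) := by
      rw [mul_one, C_pow]
      exact h1
    have h5 := mul_left_cancel₀ hx0 h4
    exact (C_injective (by rw [C_1]; exact h5)).symm
  have hc0 : c ≠ 0 := hc.ne_zero
  obtain ⟨s, hs⟩ := root_mem (k := k) hn (r := c⁻¹) (by rw [inv_pow, h3, inv_one])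
  refine ⟨C s * w, ?_⟩
  rw [Polynomial.map_mul, Polynomial.map_C, hs, ← hu, ← hcu]
  have h6 : (C c⁻¹ : L[X]) * C c = 1 := by rw [← C_mul, inv_mul_cancel₀ hc0, C_1]
  calc x = (C c⁻¹ * C c) * x := by rw [h6, one_mul]
    _ = C c⁻¹ * (x * C c) := by ring

end Pool.Agent.BP
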