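import Pool.Agent.Lib.MP_410da7_agBP.SpecB

/-!
# Four lines, module BIB: from a point certificate at a generic point to birationality
-/

set_option autoImplicit false

namespace Pool.Agent.BP

open Polynomial

noncomputable section

namespace BibM

/-- Homogenisation with the variable `l`. -/
def hmg {σ : Type} (l : σ) (δ : ℕ) (r : MvPolynomial σ ℂ) : MvPolynomial σ ℂ :=
  ∑ α ∈ r.support, MvPolynomial.monomial (α + Finsupp.single l (δ - α.degree)) (r.coeff α)

theorem hmg_hom {σ : Type} (l : σ) (δ : ℕ) (r : MvPolynomial σ ℂ) (h : r.totalDegree ≤ δ) :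
    (hmg l δ r).IsHomogeneous δ := by
  unfold hmg
  apply MvPolynomial.IsHomogeneous.sum
  intro α hα
  apply MvPolynomial.isHomogeneous_monomial
  have h1 : α.degree ≤ δ := by
    have := MvPolynomial.le_totalDegree hα
    have h2 : α.degree = α.sum fun _ e => e := rfl
    omega
  rw [map_add, Finsupp.degree_single]
  omega

theorem hmg_aeval {σ K : Type} [Field K] [Algebra ℂ K] (l : σ) (δ : ℕ) (r : MvPolynomial σ ℂ)
    (h : r.totalDegree ≤ δ) (t : σ → K) (ht : t l ≠ 0) :
    MvPolynomial.aeval t (hmg l δ r) = t l ^ δ * MvPolynomial.aeval (fun i => t i / t l) r := by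
  unfold hmg
  rw [map_sum]
  conv_rhs => rw [r.as_sum, map_sum, Finset.mul_sum]
  apply Finset.sum_congr rfl
  intro α hα
  have h1 : α.degree ≤ δ := by
    have := MvPolynomial.le_totalDegree hα
    have h2 : α.degree = α.sum fun _ e => e := rfl
    omega
  have hsg : ((Finsupp.single l (δ - α.degree)).prod fun x k => t x ^ k) = t l ^ (δ - α.degree) :=
    Finsupp.prod_single_index (pow_zero _)
  rw [MvPolynomial.aeval_monomial, MvPolynomial.aeval_monomial,
    Finsupp.prod_add_index' (fun _ => pow_zero _) (fun _ _ _ => pow_add _ _ _), hsg]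
  have h3 : (α.prod fun i k => (t i / t l) ^ k) = (α.prod fun i k => t i ^ k) / t l ^ α.degree := by
    have h4 : α.degree = ∑ i ∈ α.support, α i := rfl
    rw [h4, ← Finset.prod_pow_eq_pow_sum, Finsupp.prod, Finsupp.prod, ← Finset.prod_div_distrib]
    exact Finset.prod_congr rfl fun i _ => div_pow _ _ _
  rw [h3]
  have h5 : t l ^ δ = t l ^ α.degree * t l ^ (δ - α.degree) := by
    rw [← pow_add, Nat.add_sub_cancel' h1]
  rw [h5]
  field_simp

/-- The point is in the field of the quotients. -/
theorem memF {K : Type} [Field K] [Algebra ℂ K] (s : K) (T : Fin 4 → ℂ[X]) (l : Fin 4)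
    (hl : aeval s (T l) ≠ 0) (h : Fin 4 → K[X]) (hs : Ideal.span (Set.range h) = ⊤)
    (hh : ∀ i, (X - C s) * h i = (T i).map (algebraMap ℂ K) * C (aeval s (T l)) -
      (T l).map (algebraMap ℂ K) * C (aeval s (T i))) :
    s ∈ IntermediateField.adjoin ℂ (Set.range fun i => aeval s (T i) / aeval s (T l)) := by
  set F := IntermediateField.adjoin ℂ (Set.range fun i => aeval s (T i) / aeval s (T l)) with hF
  have hm : ∀ i, aeval s (T i) / aeval s (T l) ∈ F := fun i =>
    IntermediateField.subset_adjoin ℂ _ ⟨i, rfl⟩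
  let g : Fin 4 → F[X] := fun i => (T i).map (algebraMap ℂ F) -
    C (⟨_, hm i⟩ : F) * (T l).map (algebraMap ℂ F)
  have hg : ∀ i, (g i).map (algebraMap F K) = C (aeval s (T l))⁻¹ * ((X - C s) * h i) := by
    intro i
    simp only [g, Polynomial.map_sub, Polynomial.map_mul, Polynomial.map_C, Polynomial.map_map]
    rw [hh i, ← IsScalarTower.algebraMap_eq ℂ F K]
    have e1 : (algebraMap F K) (⟨_, hm i⟩ : F) = aeval s (T i) / aeval s (T l) := rfl
    rw [e1, mul_sub, div_eq_mul_inv, C_mul]
    have e2 : C (aeval s (T l))⁻¹ * C (aeval s (T l)) = (1 : K[X]) := by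
      rw [← C_mul, inv_mul_cancel₀ hl, C_1]
    have e3 : C (aeval s (T l))⁻¹ * ((T i).map (algebraMap ℂ K) * C (aeval s (T l))) =
      (T i).map (algebraMap ℂ K) := by
      rw [mul_left_comm, e2, mul_one]
    rw [e3]
    ring
  -- the ideal generated by the `g i`
  have hI : (Ideal.span (Set.range g)).map (mapRingHom (algebraMap F K)) = Ideal.span {X - C s} := by
    rw [Ideal.map_span]
    apply le_antisymm
    · rw [Ideal.span_le]
      rintro _ ⟨_, ⟨i, rfl⟩, rfl⟩
      rw [coe_mapRingHom, hg i]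
      exact Ideal.mul_mem_left _ _ (Ideal.mul_mem_right _ _ (Ideal.mem_span_singleton_self _))
    · have h1 : (1 : K[X]) ∈ Ideal.span (Set.range h) := by rw [hs]; trivial
      obtain ⟨c, hc⟩ := (Ideal.mem_span_range_iff_exists_fun).1 h1
      rw [Ideal.span_singleton_le_iff_mem]
      have h2 : X - C s = ∑ i, (c i * C (aeval s (T l))) * (g i).map (algebraMap F K) := by
        calc X - C s = (∑ i, c i * h i) * (X - C s) := by rw [hc, one_mul]
          _ = _ := by
            rw [Finset.sum_mul]
            apply Finset.sum_congr rfl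
            intro i _
            rw [hg i]
            have e2 : C (aeval s (T l)) * C (aeval s (T l))⁻¹ = (1 : K[X]) := by
              rw [← C_mul, mul_inv_cancel₀ hl, C_1]
            calc c i * h i * (X - C s) = c i * (C (aeval s (T l)) * C (aeval s (T l))⁻¹) *
                ((X - C s) * h i) := by rw [e2]; ring
              _ = _ := by ring
      rw [h2]
      apply Ideal.sum_mem
      intro i _
      apply Ideal.mul_mem_left
      exact Ideal.subset_span ⟨g i, ⟨i, rfl⟩, rfl⟩
  obtain ⟨G, hG⟩ := (IsPrincipalIdealRing.principal (Ideal.span (Set.range g))).principal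
  have hG' : Ideal.span (Set.range g) = Ideal.span {G} := hG
  rw [hG', Ideal.map_span, Set.image_singleton, coe_mapRingHom,
    Ideal.span_singleton_eq_span_singleton] at hI
  obtain ⟨u, hu⟩ := hI.symm
  obtain ⟨c, hc, hcu⟩ := Polynomial.isUnit_iff.1 u.isUnit
  have hc0 : c ≠ 0 := hc.ne_zero
  rw [← hcu] at hu
  -- coefficients
  have k1 : algebraMap F K (G.coeff 1) = c := by
    rw [← coeff_map, ← hu, sub_mul, coeff_sub, mul_comm, coeff_C_mul, coeff_X_one, mul_one,
      ← C_mul, coeff_C_of_ne_zero one_ne_zero, sub_zero]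
  have k0 : algebraMap F K (G.coeff 0) = - (s * c) := by
    rw [← coeff_map, ← hu, sub_mul, coeff_sub, mul_comm, coeff_C_mul, coeff_X_zero, mul_zero,
      ← C_mul, coeff_C_zero, zero_sub]
  have hfin : s = algebraMap F K (- G.coeff 0 / G.coeff 1) := by
    rw [map_div₀, map_neg, k1, k0, neg_neg, mul_div_assoc, div_self hc0, mul_one]
  rw [hfin]
  exact (- G.coeff 0 / G.coeff 1).2

end BibM

open BibM in
theorem stmtBib : StmtBib := by
  intro K _ _ s hs m T l ⟨h1, ⟨h, hh1, hh2⟩, _⟩
  have ev : ∀ i, ((T i).map (algebraMap ℂ K)).eval s = aeval s (T i) := fun i => by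
    rw [eval_map_algebraMap]
  have hl : aeval s (T l) ≠ 0 := by rw [← ev]; exact h1
  have hh3 : ∀ i, (X - C s) * h i = (T i).map (algebraMap ℂ K) * C (aeval s (T l)) -
      (T l).map (algebraMap ℂ K) * C (aeval s (T i)) := by
    intro i
    rw [← ev, ← ev]
    exact hh2 i
  have hmem := memF s T l hl h hh1 hh3
  obtain ⟨r₁, r₂, hr⟩ := (IntermediateField.mem_adjoin_range_iff ℂ _ _).1 hmem
  have hs0 : s ≠ 0 := by
    rintro rfl
    exact hs (isAlgebraic_zero)
  set q : Fin 4 → K := fun i => aeval s (T i) / aeval s (T l) with hq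
  have hr2 : MvPolynomial.aeval q r₂ ≠ 0 := by
    intro h0
    rw [h0, div_zero] at hr
    exact hs0 hr
  have hr1 : MvPolynomial.aeval q r₁ = s * MvPolynomial.aeval q r₂ := by
    rw [eq_div_iff hr2] at hr
    exact hr.symm
  set δ := max r₁.totalDegree r₂.totalDegree with hδ
  set t : Fin 4 → K := fun i => aeval s (T i) with ht
  have htl : t l ≠ 0 := hl
  have key : ∀ r : MvPolynomial (Fin 4) ℂ, r.totalDegree ≤ δ →
      aeval s (MvPolynomial.aeval T (hmg l δ r)) = t l ^ δ * MvPolynomial.aeval q r := by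
    intro r hrd
    rw [← hmg_aeval l δ r hrd t htl, MvPolynomial.comp_aeval_apply]
  refine ⟨δ, hmg l δ r₁, hmg l δ r₂, hmg_hom l δ r₁ (le_max_left _ _),
    hmg_hom l δ r₂ (le_max_right _ _), ?_, ?_⟩
  · intro h0
    have h3 := key r₂ (le_max_right _ _)
    rw [h0, map_zero] at h3
    exact (mul_ne_zero (pow_ne_zero _ htl) hr2) h3.symm
  · have h4 : aeval s (MvPolynomial.aeval T (hmg l δ r₁) -
        X * MvPolynomial.aeval T (hmg l δ r₂)) = 0 := by
      rw [map_sub, map_mul, aeval_X, key r₁ (le_max_left _ _), key r₂ (le_max_right _ _), hr1]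
      ring
    have h5 := (transcendental_iff.1 hs) _ h4
    exact sub_eq_zero.1 h5

end

end Pool.Agent.BP
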