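import Pool.Agent.Lib.MP_410da7_agBP.SpecB
import Mathlib.RingTheory.PowerSeries.Inverse

/-!
# Four lines: a point certificate implies birationality
-/

set_option autoImplicit false

namespace Pool.Agent.BP

open Polynomial

theorem stmtBir (hL : StmtLpt) (hB : StmtBib) : StmtBir := by
  intro m T hm hdeg c₀ l hpt
  let R : Type := PowerSeries ℂ
  let K : Type := FractionRing (PowerSeries ℂ)
  let ψ : PowerSeries ℂ →+* ℂ := PowerSeries.constantCoeff
  let φ : PowerSeries ℂ →+* K := algebraMap (PowerSeries ℂ) K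
  let s₀ : PowerSeries ℂ := PowerSeries.X + PowerSeries.C c₀
  have hψ : Function.Surjective ψ := fun c => ⟨PowerSeries.C c, PowerSeries.constantCoeff_C c⟩
  have hψs : ψ s₀ = c₀ := by
    simp [ψ, s₀]
  have hTψ : (fun i => ((T i).map PowerSeries.C).map ψ) = T := by
    funext i
    rw [Polynomial.map_map]
    have : ψ.comp PowerSeries.C = RingHom.id ℂ := by
      ext c
      simp [ψ]
    rw [this, Polynomial.map_id]
  have h1 := hL (PowerSeries ℂ) ℂ K ψ φ hψ m (fun i => (T i).map PowerSeries.C) hm
    (fun i => (natDegree_map_le).trans (hdeg i)) s₀ l (by rw [hψs, hTψ]; exact hpt)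
  have hφC : φ.comp PowerSeries.C = algebraMap ℂ K := by
    ext c
    rw [IsScalarTower.algebraMap_apply ℂ (PowerSeries ℂ) K, PowerSeries.algebraMap_apply]
    rfl
  have h2 : (fun i => ((T i).map PowerSeries.C).map φ) = fun i => (T i).map (algebraMap ℂ K) := by
    funext i
    rw [Polynomial.map_map, hφC]
  rw [h2] at h1
  refine hB K (φ s₀) ?_ m T l h1
  -- transcendence
  have hinj : Function.Injective (aeval (R := ℂ) s₀) := by
    have h3 : ∀ f : ℂ[X], aeval s₀ f =
        ((algEquivAevalXAddC c₀ f : ℂ[X]) : PowerSeries ℂ) := by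
      intro f
      have h4 : aeval (R := ℂ) s₀ = ((coeToPowerSeries.algHom (R := ℂ) ℂ)).comp
          ((algEquivAevalXAddC c₀ : ℂ[X] ≃ₐ[ℂ] ℂ[X]) : ℂ[X] →ₐ[ℂ] ℂ[X]) := by
        apply Polynomial.algHom_ext
        simp [s₀]
      rw [h4]
      simp
    intro f g hfg
    rw [h3, h3] at hfg
    exact (algEquivAevalXAddC c₀).injective (Polynomial.coe_injective _ hfg)
  rw [transcendental_iff]
  intro f hf
  have h5 : aeval (φ s₀) f = φ (aeval s₀ f) := by
    change aeval (algebraMap (PowerSeries ℂ) K s₀) f = _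
    rw [aeval_algebraMap_apply]
  rw [h5] at hf
  have h6 : aeval s₀ f = 0 := by
    apply IsFractionRing.injective (PowerSeries ℂ) K
    rw [map_zero]
    exact hf
  exact hinj (by rw [h6, map_zero])

end Pool.Agent.BP
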