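import Pool.Agent.Lib.MP_410da7_agBP.SpecB

/-!
# Four lines: soundness of the checker
-/

set_option autoImplicit false

namespace Pool.Agent.BP.ChkM

open Polynomial Pool.Agent.BP

noncomputable section

private theorem ofL_nil (p : ℕ) : ofL p [] = 0 := rfl

private theorem ofL_cons (p a : ℕ) (l : List ℕ) :
    ofL p (a :: l) = C (a : ZMod p) + X * ofL p l := rfl

private theorem ofL_addL (p : ℕ) : ∀ l l' : List ℕ, ofL p (addL l l') = ofL p l + ofL p l'
  | [], l => by simp [addL, ofL_nil]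
  | a :: l, [] => by simp [addL, ofL_nil]
  | a :: l, b :: l' => by
    simp only [addL, ofL_cons, ofL_addL p l l', Nat.cast_add, C_add]
    ring

private theorem ofL_map (p a : ℕ) (l : List ℕ) :
    ofL p (l.map fun b => a * b % p) = C (a : ZMod p) * ofL p l := by
  induction l with
  | nil => simp [ofL_nil]
  | cons b l ih =>
    simp only [List.map_cons, ofL_cons, ih, ZMod.natCast_mod, Nat.cast_mul, C_mul]
    ring

private theorem ofL_mulL (p : ℕ) (l l' : List ℕ) : ofL p (mulL p l l') = ofL p l * ofL p l' := by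
  induction l with
  | nil => simp [mulL, ofL_nil]
  | cons a l ih =>
    simp only [mulL, ofL_addL, ofL_map, ofL_cons, ih, Nat.cast_zero, C_0]
    ring

private theorem ofL_one (p : ℕ) : ofL p [1] = 1 := by
  simp [ofL_cons, ofL_nil]

private theorem ofL_single (p a : ℕ) : ofL p [a] = C (a : ZMod p) := by
  simp [ofL_cons, ofL_nil]

private theorem ofL_powL (p : ℕ) (l : List ℕ) (n : ℕ) : ofL p (powL p l n) = ofL p l ^ n := by
  induction n with
  | zero => simp [powL, ofL_one]
  | succ n ih => rw [powL, ofL_mulL, ih, pow_succ']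

private theorem ofL_shL (p n : ℕ) (l : List ℕ) : ofL p (shL n l) = X ^ n * ofL p l := by
  induction n with
  | zero => simp [shL]
  | succ n ih =>
    have : shL (n + 1) l = 0 :: shL n l := by simp [shL, List.replicate_succ]
    rw [this, ofL_cons, ih, pow_succ']
    simp [mul_assoc]

private theorem cast_zero_of_mod (p b : ℕ) (h : b % p = 0) : (b : ZMod p) = 0 := by
  rw [← ZMod.natCast_mod b p, h, Nat.cast_zero]

private theorem ofL_all (p : ℕ) (l : List ℕ) (h : (l.all fun b => b % p == 0) = true) :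
    ofL p l = 0 := by
  induction l with
  | nil => rfl
  | cons b l ih =>
    simp only [List.all_cons, Bool.and_eq_true, beq_iff_eq] at h
    rw [ofL_cons, ih h.2, cast_zero_of_mod p b h.1]
    simp

private theorem ofL_eqL (p : ℕ) : ∀ l l' : List ℕ, eqL p l l' = true → ofL p l = ofL p l'
  | [], l, h => by
    rw [eqL] at h
    rw [ofL_all p l h, ofL_nil]
  | a :: l, [], h => by
    simp only [eqL, Bool.and_eq_true, beq_iff_eq] at h
    rw [ofL_cons, ofL_all p l h.2, cast_zero_of_mod p a h.1, ofL_nil]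
    simp
  | a :: l, b :: l', h => by
    simp only [eqL, Bool.and_eq_true, beq_iff_eq] at h
    rw [ofL_cons, ofL_cons, ofL_eqL p l l' h.2, ← ZMod.natCast_mod a p, h.1, ZMod.natCast_mod]

private theorem ofL_evL (p x : ℕ) (l : List ℕ) :
    ((evL p x l : ℕ) : ZMod p) = (ofL p l).eval (x : ZMod p) := by
  induction l with
  | nil => simp [evL, ofL_nil]
  | cons a l ih =>
    rw [evL, ZMod.natCast_mod, ofL_cons]
    simp [ih]

private theorem ofL_coeff (p : ℕ) (l : List ℕ) (n : ℕ) :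
    (ofL p l).coeff n = ((l.getD n 0 : ℕ) : ZMod p) := by
  induction l generalizing n with
  | nil => simp [ofL_nil]
  | cons a l ih =>
    rw [ofL_cons]
    cases n with
    | zero => simp
    | succ n => simp [ih n]

private theorem ofL_natDegree (p : ℕ) (l : List ℕ) (d : ℕ) (h : l.length ≤ d + 1) :
    (ofL p l).natDegree ≤ d := by
  rw [natDegree_le_iff_coeff_eq_zero]
  intro n hn
  rw [ofL_coeff, List.getD_eq_default _ _ (by omega), Nat.cast_zero]

private theorem ofL_sumL (p : ℕ) (f : ℕ → List ℕ) :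
    ofL p (sumL f) = ∑ i : Fin 4, ofL p (f i) := by
  simp only [sumL, ofL_addL, Fin.sum_univ_four]
  simp [add_assoc]

private theorem four_iff (f : ℕ → Bool) : four f = true ↔ ∀ i : Fin 4, f i = true := by
  simp only [four, Bool.and_eq_true, Fin.forall_fin_succ, Fin.forall_fin_zero]
  simp [and_assoc]

private theorem ne_zero_of_mod {p n : ℕ} (h : n % p ≠ 0) : (n : ZMod p) ≠ 0 := by
  intro h0
  rw [ZMod.natCast_eq_zero_iff] at h0
  exact h (Nat.mod_eq_zero_of_dvd h0)

private theorem crv_ofL (p : ℕ) (d : Fin 4 → ℕ) (i : Fin 4) (L : List ℕ)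
    (h : L.length ≤ d i + 1) (δ : Ix d → ZMod p)
    (hδ : ∀ n : Fin (d i + 1), δ ⟨i, n⟩ = ((L.getD n 0 : ℕ) : ZMod p)) :
    crv d δ i = ofL p L := by
  rw [(ofL p L).as_sum_range' (d i + 1) (Nat.lt_succ_of_le (ofL_natDegree p L (d i) h)),
    ← Fin.sum_univ_eq_sum_range (fun n => monomial n ((ofL p L).coeff n)), crv]
  refine Finset.sum_congr rfl fun n _ => ?_
  rw [hδ n, ofL_coeff, C_mul_X_pow_eq_monomial]

end

end Pool.Agent.BP.ChkM

namespace Pool.Agent.BP

open Polynomial ChkM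

noncomputable section

theorem stmtChk : StmtChk := by
  intro Z h
  simp only [Crt.chk, Bool.and_eq_true, four_iff] at h
  obtain ⟨⟨⟨⟨⟨⟨⟨⟨⟨⟨⟨⟨hp, hm⟩, hl⟩, h1⟩, hc⟩, h2⟩, hT⟩, hU⟩, hD⟩, hs⟩, hh⟩, hW⟩, ht⟩ := h
  have hm' : 0 < Z.m := of_decide_eq_true hm
  have hl' : Z.l < 4 := of_decide_eq_true hl
  have hprime : Z.p.Prime := by
    simp only [Bool.or_eq_true, beq_iff_eq] at hp
    rcases hp with ((hp | hp) | hp) | hp <;> rw [hp] <;> norm_num
  refine ⟨hprime, ?_⟩
  intro _
  have hsum : ∀ i : Fin 4, evf Z.e i + evf Z.c i + evf Z.a i * evf Z.d i = Z.m :=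
    fun i => by simpa [evf] using (h1 i).1.1.1.1.1
  have hlen : ∀ i : Fin 4, (Z.P.getD i []).length = evf Z.d i + 1 :=
    fun i => by simpa [evf] using (h1 i).1.1.1.1.2
  have hP0 : ∀ i : Fin 4, (Z.P.getD i []).getD 0 0 % Z.p ≠ 0 :=
    fun i => by simpa using (h1 i).1.1.1.2
  have hPd : ∀ i : Fin 4, (Z.P.getD i []).getD (evf Z.d i) 0 % Z.p ≠ 0 :=
    fun i => by simpa [evf] using (h1 i).1.1.2
  have hg : ∀ i : Fin 4, evf Z.g i % Z.p ≠ 0 :=
    fun i => by simpa [evf] using (h1 i).1.2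
  have hTt : ∀ i : Fin 4, trm (evf Z.a) (evf Z.e) (fun i => ((evf Z.g i : ℕ) : ZMod Z.p))
      (fun i => ofL Z.p (Z.P.getD i [])) i = ofL Z.p (Z.T.getD i []) := by
    intro i
    have h3 := ofL_eqL _ _ _ (h2 i).1
    rw [ofL_mulL, ofL_single, ofL_shL, ofL_powL] at h3
    rw [trm, h3, mul_assoc]
    rfl
  have hTt' : trm (evf Z.a) (evf Z.e) (fun i => ((evf Z.g i : ℕ) : ZMod Z.p))
      (fun i => ofL Z.p (Z.P.getD i [])) = fun i : Fin 4 => ofL Z.p (Z.T.getD i []) :=
    funext hTt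
  have hB : ∀ i : Fin 4, ofL Z.p (Z.B.getD i []) =
      C (((evf Z.g i : ℕ) : ZMod Z.p) * ((evf Z.a i : ℕ) : ZMod Z.p)) * X ^ (evf Z.e i) *
        ofL Z.p (Z.P.getD i []) ^ (evf Z.a i - 1) := by
    intro i
    have h3 := ofL_eqL _ _ _ (h2 i).2
    rw [ofL_mulL, ofL_single, ofL_shL, ofL_powL] at h3
    rw [h3, ← mul_assoc, Nat.cast_mul]
    rfl
  refine ⟨?_, ?_⟩
  · refine ⟨hm', hsum, ?_, ?_, ?_, ?_, ?_, ?_, ?_⟩
    · intro i
      apply le_antisymm
      · exact ofL_natDegree _ _ _ (hlen i).le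
      · apply le_natDegree_of_ne_zero
        rw [ofL_coeff]
        exact ne_zero_of_mod (hPd i)
    · intro i
      rw [ofL_coeff]
      exact ne_zero_of_mod (hP0 i)
    · intro i
      exact ne_zero_of_mod (hg i)
    · have h3 := ofL_eqL _ _ _ hT
      rw [ofL_sumL, ofL_nil] at h3
      rw [hTt']
      exact h3
    · have h3 := ofL_eqL _ _ _ hU
      rw [ofL_sumL, ofL_one] at h3
      rw [hTt', Ideal.eq_top_iff_one, Ideal.mem_span_range_iff_exists_fun]
      refine ⟨fun i => ofL Z.p (Z.U.getD i []), ?_⟩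
      simpa only [ofL_mulL] using h3
    · simp only [Bool.or_eq_true, beq_iff_eq] at hc
      rcases hc with ((hc | hc) | hc) | hc
      · exact ⟨0, hc⟩
      · exact ⟨1, hc⟩
      · exact ⟨2, hc⟩
      · exact ⟨3, hc⟩
    · refine ⟨((Z.s : ℕ) : ZMod Z.p), ⟨Z.l, hl'⟩, ?_⟩
      rw [hTt']
      refine ⟨?_, ⟨fun i => ofL Z.p (Z.h.getD i []), ?_, ?_⟩, ?_⟩
      · show (ofL Z.p (Z.T.getD Z.l [])).eval _ ≠ 0
        rw [← ofL_evL]
        exact ne_zero_of_mod (by simpa using hs)
      · have h3 := ofL_eqL _ _ _ hW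
        rw [ofL_sumL, ofL_one] at h3
        rw [Ideal.eq_top_iff_one, Ideal.mem_span_range_iff_exists_fun]
        refine ⟨fun i => ofL Z.p (Z.W.getD i []), ?_⟩
        simpa only [ofL_mulL] using h3
      · intro i
        have h3 := ofL_eqL _ _ _ (hh i)
        rw [ofL_addL, ofL_mulL, ofL_mulL, ofL_mulL, ofL_single, ofL_single, ofL_cons, ofL_one,
          ofL_evL, ofL_evL] at h3
        have h4 : ((Z.p - Z.s % Z.p : ℕ) : ZMod Z.p) = - ((Z.s : ℕ) : ZMod Z.p) := by
          rw [Nat.cast_sub (Nat.mod_lt _ hprime.pos).le, ZMod.natCast_self, ZMod.natCast_mod,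
            zero_sub]
        rw [h4, C_neg] at h3
        show (X - C _) * ofL Z.p (Z.h.getD i []) = ofL Z.p (Z.T.getD i []) *
          C ((ofL Z.p (Z.T.getD Z.l [])).eval _) - ofL Z.p (Z.T.getD Z.l []) *
          C ((ofL Z.p (Z.T.getD i [])).eval _)
        linear_combination h3
      · by_contra hcon
        push Not at hcon
        have h3 : four (fun i =>
            (Z.T.getD i []).getD Z.m 0 * evL Z.p Z.s (Z.T.getD Z.l []) % Z.p ==
            (Z.T.getD Z.l []).getD Z.m 0 * evL Z.p Z.s (Z.T.getD i []) % Z.p) = true := by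
          rw [four_iff]
          intro i
          rw [beq_iff_eq, ← ZMod.natCast_eq_natCast_iff']
          have h4 := hcon i
          change (ofL Z.p (Z.T.getD i [])).coeff Z.m * (ofL Z.p (Z.T.getD Z.l [])).eval _ =
            (ofL Z.p (Z.T.getD Z.l [])).coeff Z.m * (ofL Z.p (Z.T.getD i [])).eval _ at h4
          rw [ofL_coeff, ofL_coeff, ← ofL_evL, ← ofL_evL] at h4
          rw [Nat.cast_mul, Nat.cast_mul]
          exact h4
        rw [h3] at ht
        exact absurd ht (by decide)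
  · intro j hj
    rw [List.all_eq_true] at hD
    have h3 := hD j (List.mem_range.2 (by omega))
    rw [Bool.and_eq_true, four_iff] at h3
    obtain ⟨h4, h5⟩ := h3
    refine ⟨fun q => ((((Z.D.getD j []).getD q.1 []).getD q.2 0 : ℕ) : ZMod Z.p), ?_⟩
    have h6 := ofL_eqL _ _ _ h5
    rw [ofL_sumL, ofL_shL, ofL_one, mul_one] at h6
    rw [← h6]
    refine Finset.sum_congr rfl fun i _ => ?_
    rw [crv_ofL Z.p (evf Z.d) i ((Z.D.getD j []).getD i []) (of_decide_eq_true (h4 i)) _
      (fun n => rfl), ofL_mulL, hB i, mul_comm]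

end

end Pool.Agent.BP
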