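import Pool.Agent.Lib.MP_410da7_agBP.SpecC

/-!
# Four lines: the classification
-/

set_option autoImplicit false

namespace Pool.Agent.BP

namespace ClsM

/-- the condition for one quadruple -/
def ok (a b c d : ℕ) : Bool :=
  !(decide (2 ≤ a) && decide (a ≤ b) && decide (b ≤ c) && decide (c ≤ d) &&
    decide (b * c + a * c + a * b < a * b * c) &&
    decide (a * b * c * d < b * c * d + a * c * d + a * b * d + a * b * c)) ||
  fam.any fun q => q.2.any fun t => t == [a, b, c, d]

set_option maxRecDepth 100000 in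
theorem finite_check0 : (List.range 4).all (fun a => (List.range 6).all fun b =>
    (List.range 12).all fun c => (List.range 42).all fun d => ok a b c d) = true := by
  decide +kernel

theorem finite_check : ∀ a < 4, ∀ b < 6, ∀ c < 12, ∀ d < 42, 2 ≤ a → a ≤ b → b ≤ c → c ≤ d →
    b * c + a * c + a * b < a * b * c →
    a * b * c * d < b * c * d + a * c * d + a * b * d + a * b * c →
    ∃ q ∈ fam, [a, b, c, d] ∈ q.2 := by
  intro a ha b hb c hc d hd h1 h2 h3 h4 h5 h6
  have h := finite_check0
  simp only [List.all_eq_true, List.mem_range] at h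
  have h7 := h a ha b hb c hc d hd
  simp only [ok, h1, h2, h3, h4, h5, h6, decide_true, Bool.and_self, Bool.not_true, Bool.false_or,
    List.any_eq_true, beq_iff_eq] at h7
  obtain ⟨q, hq, t, ht, rfl⟩ := h7
  exact ⟨q, hq, ht⟩

theorem inv_le {n m : ℕ} (hm : 0 < m) (h : m ≤ n) : 1 / (n : ℚ) ≤ 1 / (m : ℚ) := by
  have h1 : (0 : ℚ) < m := by exact_mod_cast hm
  have h2 : (m : ℚ) ≤ n := by exact_mod_cast h
  exact one_div_le_one_div_of_le h1 h2

theorem main (a b c d : ℕ) (ha : 2 ≤ a) (hab : a ≤ b) (hbc : b ≤ c) (hcd : c ≤ d)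
    (h1 : 1 / (a : ℚ) + 1 / (b : ℚ) + 1 / (c : ℚ) < 1)
    (h2 : 1 < 1 / (a : ℚ) + 1 / (b : ℚ) + 1 / (c : ℚ) + 1 / (d : ℚ)) :
    ∃ q ∈ fam, [a, b, c, d] ∈ q.2 := by
  have a0 : (0 : ℚ) < a := by exact_mod_cast (by omega : 0 < a)
  have b0 : (0 : ℚ) < b := by exact_mod_cast (by omega : 0 < b)
  have c0 : (0 : ℚ) < c := by exact_mod_cast (by omega : 0 < c)
  have d0 : (0 : ℚ) < d := by exact_mod_cast (by omega : 0 < d)
  have n1 : b * c + a * c + a * b < a * b * c := by
    have h3 : (b * c + a * c + a * b : ℚ) < a * b * c := by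
      have h4 := mul_lt_mul_of_pos_right h1 (mul_pos (mul_pos a0 b0) c0)
      have h5 : (1 / (a : ℚ) + 1 / (b : ℚ) + 1 / (c : ℚ)) * (a * b * c) =
        b * c + a * c + a * b := by field_simp
      rw [h5, one_mul] at h4
      exact h4
    exact_mod_cast h3
  have n2 : a * b * c * d < b * c * d + a * c * d + a * b * d + a * b * c := by
    have h3 : (a * b * c * d : ℚ) < b * c * d + a * c * d + a * b * d + a * b * c := by
      have h4 := mul_lt_mul_of_pos_right h2 (mul_pos (mul_pos (mul_pos a0 b0) c0) d0)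
      have h5 : (1 / (a : ℚ) + 1 / (b : ℚ) + 1 / (c : ℚ) + 1 / (d : ℚ)) * (a * b * c * d) =
        b * c * d + a * c * d + a * b * d + a * b * c := by field_simp
      rw [h5, one_mul] at h4
      exact h4
    exact_mod_cast h3
  have ha4 : a < 4 := by
    by_contra hc
    have e1 := inv_le (n := a) (m := 4) (by norm_num) (by omega)
    have e2 := inv_le (n := b) (m := 4) (by norm_num) (by omega)
    have e3 := inv_le (n := c) (m := 4) (by norm_num) (by omega)
    have e4 := inv_le (n := d) (m := 4) (by norm_num) (by omega)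
    norm_num at e1 e2 e3 e4 h2
    linarith
  have hb6 : b < 6 := by
    by_contra hc
    have e1 := inv_le (n := a) (m := 2) (by norm_num) (by omega)
    have e2 := inv_le (n := b) (m := 6) (by norm_num) (by omega)
    have e3 := inv_le (n := c) (m := 6) (by norm_num) (by omega)
    have e4 := inv_le (n := d) (m := 6) (by norm_num) (by omega)
    norm_num at e1 e2 e3 e4 h2
    linarith
  have hab2 : ¬ (a = 2 ∧ b = 2) := by
    rintro ⟨rfl, rfl⟩
    omega
  have hab3 : 1 / (a : ℚ) + 1 / (b : ℚ) ≤ 5 / 6 := by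
    rcases Nat.lt_or_ge a 3 with h | h
    · have e1 := inv_le (n := a) (m := 2) (by norm_num) (by omega)
      have e2 := inv_le (n := b) (m := 3) (by norm_num) (by omega)
      norm_num at e1 e2 ⊢
      linarith
    · have e1 := inv_le (n := a) (m := 3) (by norm_num) (by omega)
      have e2 := inv_le (n := b) (m := 3) (by norm_num) (by omega)
      norm_num at e1 e2 ⊢
      linarith
  have hc12 : c < 12 := by
    by_contra hc
    have e3 := inv_le (n := c) (m := 12) (by norm_num) (by omega)
    have e4 := inv_le (n := d) (m := 12) (by norm_num) (by omega)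
    norm_num at e3 e4 h2 hab3
    linarith
  have hd42 : d < 42 := by
    by_contra hc
    have e4 := inv_le (n := d) (m := 42) (by norm_num) (by omega)
    have h3 : 1 / (a : ℚ) + 1 / (b : ℚ) + 1 / (c : ℚ) ≤ 41 / 42 := by
      clear h2 n2 e4 hcd d0 hc hab3
      interval_cases a <;> interval_cases b <;> (try omega) <;> interval_cases c <;>
        (try omega) <;> norm_num
    norm_num at e4 h3 h2
    linarith
  exact finite_check a ha4 b hb6 c hc12 d hd42 ha hab hbc hcd n1 n2

end ClsM

theorem stmtCls : StmtCls := by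
  intro a ha hm h1 h2
  rw [Fin.sum_univ_four] at h2
  obtain ⟨q, hq, ht⟩ := ClsM.main (a 0) (a 1) (a 2) (a 3) (ha 0) (hm (by decide)) (hm (by decide))
    (hm (by decide)) h1 h2
  refine ⟨q, hq, _, ht, ?_⟩
  funext i
  fin_cases i <;> rfl

end Pool.Agent.BP
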