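import Pool.Agent.Lib.MP_410da7_agBP.SpecA

/-!
# Dg: the degrees of `A` and `B`
-/

set_option autoImplicit false

namespace Pool.Agent.BP

open Polynomial

noncomputable section

namespace DgM

/-- The top coefficient of a homogenisation. -/
private lemma coeff_hom {L : Type} [Field L] [Algebra ℂ L] (A B : L[X]) (N : ℕ)
    (hA : A.natDegree ≤ N) (hB : B.natDegree ≤ N) (m : ℕ) (f : ℂ[X]) :
    (hom m f A B : L[X]).coeff (m * N) = hom m f (A.coeff N) (B.coeff N) := by
  unfold hom
  rw [Polynomial.finset_sum_coeff]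
  refine Finset.sum_congr rfl (fun j hj => ?_)
  have hj' : j ≤ m := Nat.lt_succ_iff.mp (Finset.mem_range.mp hj)
  have h1 : algebraMap ℂ L[X] (f.coeff j) = C (algebraMap ℂ L (f.coeff j)) := rfl
  rw [h1, mul_assoc, Polynomial.coeff_C_mul, mul_assoc]
  congr 1
  have h2 : m * N = j * N + (m - j) * N := by
    rw [← Nat.add_mul, Nat.add_sub_cancel' hj']
  rw [h2, Polynomial.coeff_mul_add_eq_of_natDegree_le (Polynomial.natDegree_pow_le_of_le j hA)
    (Polynomial.natDegree_pow_le_of_le (m - j) hB),
    Polynomial.coeff_pow_of_natDegree_le hA, Polynomial.coeff_pow_of_natDegree_le hB]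

end DgM

theorem stmtDg : StmtNz → StmtDg := by
  intro hNz a e c d m γ P hF L _ _ A B hA hB n hn
  set N := max A.natDegree B.natDegree with hN
  have hAN : A.natDegree ≤ N := le_max_left _ _
  have hBN : B.natDegree ≤ N := le_max_right _ _
  have hne : A.coeff N ≠ 0 ∨ B.coeff N ≠ 0 := by
    rcases max_choice A.natDegree B.natDegree with h | h
    · left
      rw [hN, h]
      exact fun h0 => hA (Polynomial.leadingCoeff_eq_zero.mp h0)
    · right
      rw [hN, h]
      exact fun h0 => hB (Polynomial.leadingCoeff_eq_zero.mp h0)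
  obtain ⟨i, hi⟩ := hNz a e c d m γ P hF L (A.coeff N) (B.coeff N) hne
  rw [← DgM.coeff_hom A B N hAN hBN m (trm a e γ P i)] at hi
  have h1 : m * N ≤ m * n := (Polynomial.le_natDegree_of_ne_zero hi).trans (hn i)
  have h2 : N ≤ n := Nat.le_of_mul_le_mul_left h1 hF.pos
  exact ⟨hAN.trans h2, hBN.trans h2⟩

end

end Pool.Agent.BP
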