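import Pool.Agent.Lib.MP_410da7_agBP.SpecA

/-!
# Four lines: the dichotomy
-/

set_option autoImplicit false

namespace Pool.Agent.BP

open Polynomial Pool.Agent.PC Pool.Agent.Lib.MP_410da7_ag

noncomputable section

namespace DicM

private theorem chain (hI : StmtInd) {Rx Ry Rv : Type} [CommRing Rx] [IsDomain Rx] [CommRing Ry]
    [IsDomain Ry] [CommRing Rv] [Algebra ℂ Rx] [Algebra ℂ Ry] [Algebra ℂ Rv]
    (fx : MvPolynomial (Fin 4) ℂ →ₐ[ℂ] Rx) (fy : MvPolynomial (Fin 4) ℂ →ₐ[ℂ] Ry)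
    (fv : MvPolynomial (Fin 4) ℂ →ₐ[ℂ] Rv) (hxy : ∀ P, fx P = 0 → fy P = 0)
    (hyv : ∀ P, fy P = 0 → fv P = 0) (z : Fin 2 → MvPolynomial (Fin 4) ℂ)
    (G Q B : MvPolynomial (Fin 4) ℂ) (hind : AlgebraicIndependent ℂ (fun i => fv (z i)))
    (hG : fy G ≠ 0) (hGv : fv G = 0) (hQ : fx Q ≠ 0) (hQy : fy Q = 0) (hB : B ≠ 0)
    (hBx : fx B = 0) : False := by
  have hpy : (RingHom.ker fy).IsPrime := RingHom.ker_isPrime _
  have hpx : (RingHom.ker fx).IsPrime := RingHom.ker_isPrime _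
  let πa : (MvPolynomial (Fin 4) ℂ ⧸ RingHom.ker fy) →ₐ[ℂ] Rv :=
    Ideal.Quotient.liftₐ (RingHom.ker fy) fv (fun a ha => hyv a ha)
  let πb : (MvPolynomial (Fin 4) ℂ ⧸ RingHom.ker fx) →ₐ[ℂ]
      (MvPolynomial (Fin 4) ℂ ⧸ RingHom.ker fy) :=
    Ideal.Quotient.liftₐ (RingHom.ker fx) (Ideal.Quotient.mkₐ ℂ (RingHom.ker fy))
      (fun a ha => (Ideal.Quotient.eq_zero_iff_mem).2 (hxy a ha))
  let πc : MvPolynomial (Fin 4) ℂ →ₐ[ℂ] (MvPolynomial (Fin 4) ℂ ⧸ RingHom.ker fx) :=
    Ideal.Quotient.mkₐ ℂ (RingHom.ker fx)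
  have ha := hI _ _ πa 2 (fun i => Ideal.Quotient.mk (RingHom.ker fy) (z i))
    (Ideal.Quotient.mk (RingHom.ker fy) G) hind
    (fun h => hG (Ideal.Quotient.eq_zero_iff_mem.1 h)) hGv
  have ha' : AlgebraicIndependent ℂ (fun i : Fin 3 => Ideal.Quotient.mk (RingHom.ker fy)
      ((Fin.snoc (α := fun _ => MvPolynomial (Fin 4) ℂ) z G :
        Fin 3 → MvPolynomial (Fin 4) ℂ) i)) := by
    have e := Fin.comp_snoc (Ideal.Quotient.mk (RingHom.ker fy)) z G
    have e2 : (fun i : Fin 3 => Ideal.Quotient.mk (RingHom.ker fy)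
      ((Fin.snoc (α := fun _ => MvPolynomial (Fin 4) ℂ) z G :
        Fin 3 → MvPolynomial (Fin 4) ℂ) i)) =
        (Fin.snoc (α := fun _ => MvPolynomial (Fin 4) ℂ ⧸ RingHom.ker fy)
          (fun i => Ideal.Quotient.mk (RingHom.ker fy) (z i))
          (Ideal.Quotient.mk (RingHom.ker fy) G)) := e
    rw [e2]
    exact ha
  have hb := hI _ _ πb 3 (fun i => Ideal.Quotient.mk (RingHom.ker fx)
      ((Fin.snoc (α := fun _ => MvPolynomial (Fin 4) ℂ) z G :
        Fin 3 → MvPolynomial (Fin 4) ℂ) i)) (Ideal.Quotient.mk (RingHom.ker fx) Q) ha'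
    (fun h => hQ (Ideal.Quotient.eq_zero_iff_mem.1 h)) (Ideal.Quotient.eq_zero_iff_mem.2 hQy)
  have hb' : AlgebraicIndependent ℂ (fun i : Fin 4 => πc
      ((Fin.snoc (α := fun _ => MvPolynomial (Fin 4) ℂ)
        (Fin.snoc (α := fun _ => MvPolynomial (Fin 4) ℂ) z G :
        Fin 3 → MvPolynomial (Fin 4) ℂ) Q : Fin 4 → MvPolynomial (Fin 4) ℂ) i)) := by
    have e := Fin.comp_snoc (Ideal.Quotient.mk (RingHom.ker fx))
      (Fin.snoc (α := fun _ => MvPolynomial (Fin 4) ℂ) z G :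
        Fin 3 → MvPolynomial (Fin 4) ℂ) Q
    have e2 : (fun i : Fin 4 => πc
      ((Fin.snoc (α := fun _ => MvPolynomial (Fin 4) ℂ)
        (Fin.snoc (α := fun _ => MvPolynomial (Fin 4) ℂ) z G :
        Fin 3 → MvPolynomial (Fin 4) ℂ) Q : Fin 4 → MvPolynomial (Fin 4) ℂ) i)) =
        (Fin.snoc (α := fun _ => MvPolynomial (Fin 4) ℂ ⧸ RingHom.ker fx)
          (fun i => Ideal.Quotient.mk (RingHom.ker fx)
            ((Fin.snoc (α := fun _ => MvPolynomial (Fin 4) ℂ) z G :
              Fin 3 → MvPolynomial (Fin 4) ℂ) i))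
          (Ideal.Quotient.mk (RingHom.ker fx) Q)) := e
    rw [e2]
    exact hb
  have hc := hI _ _ πc 4 _ B hb' hB (Ideal.Quotient.eq_zero_iff_mem.2 hBx)
  have h5 := hc.cardinalMk_le_trdeg
  rw [MvPolynomial.trdeg_of_isDomain] at h5
  simp only [Cardinal.mk_fintype, Fintype.card_fin, Cardinal.lift_natCast] at h5
  have h6 : (4 + 1 : ℕ) ≤ 4 := by exact_mod_cast h5
  omega

private theorem crv_map {R S : Type} [CommRing R] [CommRing S] (D : Fin 4 → ℕ) (φ : R →+* S)
    (b : Ix D → R) (i : Fin 4) : (crv D b i).map φ = crv D (fun q => φ (b q)) i := by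
  unfold crv
  rw [Polynomial.map_sum]
  apply Finset.sum_congr rfl
  intro j _
  rw [Polynomial.map_mul, Polynomial.map_C, Polynomial.map_pow, Polynomial.map_X]

private theorem vanish {F : Type} [Field F] [Algebra ℂ F] (D : Fin 4 → ℕ) (w : Fin 4 → ℕ)
    (u : Ix D → ℂ) (b : Ix D → F) (hs : Spec b u) (Q : MvPolynomial (Fin 4) ℂ)
    (h : MvPolynomial.aeval (fun i => (C (crv D b i) * X ^ w i : F[X][X])) Q = 0) :
    MvPolynomial.aeval (fun i => (C (crv D u i) * X ^ w i : ℂ[X][X])) Q = 0 := by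
  let Yu : Fin 4 → (MvPolynomial (Ix D) ℂ)[X][X] := fun i =>
    C (crv D (fun q => (MvPolynomial.X q : MvPolynomial (Ix D) ℂ)) i) * X ^ w i
  let φb : MvPolynomial (Ix D) ℂ →ₐ[ℂ] F := MvPolynomial.aeval b
  let φu : MvPolynomial (Ix D) ℂ →ₐ[ℂ] ℂ := MvPolynomial.aeval u
  have e1 : Polynomial.mapAlgHom (Polynomial.mapAlgHom φb) (MvPolynomial.aeval Yu Q) =
      MvPolynomial.aeval (fun i => (C (crv D b i) * X ^ w i : F[X][X])) Q := by
    have h1 := congrArg (fun f : MvPolynomial (Fin 4) ℂ →ₐ[ℂ] F[X][X] => f Q)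
      (MvPolynomial.comp_aeval Yu (Polynomial.mapAlgHom (Polynomial.mapAlgHom φb)))
    simp only [AlgHom.comp_apply] at h1
    rw [h1]
    congr 2
    funext i
    have h2 : Polynomial.mapAlgHom (Polynomial.mapAlgHom φb) (Yu i) =
        C ((crv D (fun q => (MvPolynomial.X q : MvPolynomial (Ix D) ℂ)) i).map
          (φb : MvPolynomial (Ix D) ℂ →+* F)) * X ^ w i := by
      simp only [Yu, map_mul, map_pow, Polynomial.coe_mapAlgHom, Polynomial.map_C,
        Polynomial.map_X, RingHom.coe_coe]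
    rw [h2, crv_map]
    congr 3
    funext q
    exact MvPolynomial.aeval_X _ _
  have e2 : Polynomial.mapAlgHom (Polynomial.mapAlgHom φu) (MvPolynomial.aeval Yu Q) =
      MvPolynomial.aeval (fun i => (C (crv D u i) * X ^ w i : ℂ[X][X])) Q := by
    have h1 := congrArg (fun f : MvPolynomial (Fin 4) ℂ →ₐ[ℂ] ℂ[X][X] => f Q)
      (MvPolynomial.comp_aeval Yu (Polynomial.mapAlgHom (Polynomial.mapAlgHom φu)))
    simp only [AlgHom.comp_apply] at h1
    rw [h1]
    congr 2
    funext i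
    have h2 : Polynomial.mapAlgHom (Polynomial.mapAlgHom φu) (Yu i) =
        C ((crv D (fun q => (MvPolynomial.X q : MvPolynomial (Ix D) ℂ)) i).map
          (φu : MvPolynomial (Ix D) ℂ →+* ℂ)) * X ^ w i := by
      simp only [Yu, map_mul, map_pow, Polynomial.coe_mapAlgHom, Polynomial.map_C,
        Polynomial.map_X, RingHom.coe_coe]
    rw [h2, crv_map]
    congr 3
    funext q
    exact MvPolynomial.aeval_X _ _
  rw [← e2]
  ext m n
  have c1 : φb (((MvPolynomial.aeval Yu Q).coeff m).coeff n) = 0 := by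
    have h3 : ((Polynomial.mapAlgHom (Polynomial.mapAlgHom φb)
        (MvPolynomial.aeval Yu Q)).coeff m).coeff n = 0 := by
      rw [e1, h]
      simp
    simpa [Polynomial.coe_mapAlgHom, Polynomial.coeff_map] using h3
  have c2 := hs _ c1
  have c3 : φu (((MvPolynomial.aeval Yu Q).coeff m).coeff n) = 0 := by
    rw [← c2]
    rfl
  simpa [Polynomial.coe_mapAlgHom, Polynomial.coeff_map] using c3

/-- a homogeneous polynomial at `X ^ L * C (p i)` -/
private theorem hom_aeval {k : Type} [CommRing k] [Algebra ℂ k] (H : MvPolynomial (Fin 4) ℂ) (n : ℕ)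
    (hH : H.IsHomogeneous n) (c : k) (p : Fin 4 → k) :
    MvPolynomial.aeval (fun i => c * p i) H = c ^ n * MvPolynomial.aeval p H := by
  rw [MvPolynomial.aeval_def, MvPolynomial.aeval_def, MvPolynomial.eval₂_eq', MvPolynomial.eval₂_eq',
    Finset.mul_sum]
  apply Finset.sum_congr rfl
  intro d hd
  have hdn : ∑ i, d i = n := by
    have h1 := hH (MvPolynomial.mem_support_iff.1 hd)
    rw [← h1, Finsupp.weight_apply, Finsupp.sum_fintype]
    · simp
    · simp
  have h2 : ∏ i, (c * p i) ^ d i = c ^ n * ∏ i, p i ^ d i := by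
    rw [← hdn, ← Finset.prod_pow_eq_pow_sum, ← Finset.prod_mul_distrib]
    apply Finset.prod_congr rfl
    intro i _
    rw [mul_pow]
  rw [h2]
  ring

private theorem bp_aeval {k : Type} [CommRing k] [Algebra ℂ k] (a : Fin 4 → ℕ) (p : Fin 4 → k) :
    MvPolynomial.aeval p (bpPoly a) = ∑ i, p i ^ a i := by
  unfold bpPoly
  simp only [map_sum, map_pow, MvPolynomial.aeval_X]

private theorem sum_y {k : Type} [CommRing k] (a w : Fin 4 → ℕ) (L : ℕ) (hw : ∀ i, w i * a i = L)
    (p : Fin 4 → k[X]) (h : ∑ i, p i ^ a i = 0) :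
    ∑ i, ((C (p i) * X ^ w i : k[X][X])) ^ a i = 0 := by
  have h1 : ∀ i, ((C (p i) * X ^ w i : k[X][X])) ^ a i = C (p i ^ a i) * X ^ L := by
    intro i
    rw [mul_pow, ← pow_mul, hw i, ← C_pow]
  simp only [h1]
  rw [← Finset.sum_mul, ← map_sum, h, map_zero, zero_mul]

/-- Case 1 -/
private theorem case1 (hSp : StmtSpread) (a : Fin 4 → ℕ) (K : Type) [Field K] [Algebra ℂ K]
    (x : Fin 4 → K) (hx : IsFunctionField (fun _ : Fin 1 => bpPoly a) x) (F : Type) [Field F]
    [Algebra ℂ F] (p : Fin 4 → F[X]) (w : Fin 4 → ℕ) (L : ℕ) (hw : ∀ i, w i * a i = L)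
    (hsum : ∑ i, p i ^ a i = 0) (hspan : Ideal.span (Set.range p) = ⊤)
    (hpos : ∃ i, 0 < (p i).natDegree)
    (hker : ∀ Q : MvPolynomial (Fin 4) ℂ,
      MvPolynomial.aeval (fun i => (C (p i) * X ^ w i : F[X][X])) Q = 0 →
      Q ∈ Ideal.span (Set.range (fun _ : Fin 1 => bpPoly a))) : A1UniruledOn (charts x) := by
  classical
  let y : Fin 4 → F[X][X] := fun i => C (p i) * X ^ w i
  have hy0 : MvPolynomial.aeval y (bpPoly a) = 0 := by
    rw [bp_aeval]
    exact sum_y a w L hw p hsum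
  have hxI : ∀ Q : MvPolynomial (Fin 4) ℂ,
      Q ∈ Ideal.span (Set.range (fun _ : Fin 1 => bpPoly a)) → MvPolynomial.aeval x Q = 0 := by
    intro Q hQ
    have h2 : Ideal.span (Set.range (fun _ : Fin 1 => bpPoly a)) ≤
        RingHom.ker (MvPolynomial.aeval x : MvPolynomial (Fin 4) ℂ →ₐ[ℂ] K) := by
      rw [Ideal.span_le]
      rintro _ ⟨k, rfl⟩
      rw [SetLike.mem_coe, RingHom.mem_ker]
      exact hx.zero k
    exact h2 hQ
  have hyI : ∀ Q : MvPolynomial (Fin 4) ℂ,
      Q ∈ Ideal.span (Set.range (fun _ : Fin 1 => bpPoly a)) → MvPolynomial.aeval y Q = 0 := by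
    intro Q hQ
    have h2 : Ideal.span (Set.range (fun _ : Fin 1 => bpPoly a)) ≤
        RingHom.ker (MvPolynomial.aeval y : MvPolynomial (Fin 4) ℂ →ₐ[ℂ] F[X][X]) := by
      rw [Ideal.span_le]
      rintro _ ⟨k, rfl⟩
      rw [SetLike.mem_coe, RingHom.mem_ker]
      exact hy0
    exact h2 hQ
  -- the coordinate ring
  let ax : MvPolynomial (Fin 4) ℂ →ₐ[ℂ] K := MvPolynomial.aeval x
  let I : Ideal (MvPolynomial (Fin 4) ℂ) := RingHom.ker ax
  have hI : I.IsPrime := RingHom.ker_isPrime _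
  let R : Type := MvPolynomial (Fin 4) ℂ ⧸ I
  let ι : R →ₐ[ℂ] K := Ideal.kerLiftAlg ax
  have hι : Function.Injective ι := Ideal.kerLiftAlg_injective ax
  have hιmk : ∀ P, ι (Ideal.Quotient.mk I P) = MvPolynomial.aeval x P := fun P => rfl
  let algRK : Algebra R K := ι.toRingHom.toAlgebra
  have hRK : ∀ a : R, algebraMap R K a = ι a := fun a => rfl
  have tow : IsScalarTower ℂ R K := IsScalarTower.of_algebraMap_eq' ι.comp_algebraMap.symm
  have hfaith : FaithfulSMul R K := (faithfulSMul_iff_algebraMap_injective _ _).2 hι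
  have hfrac : IsFractionRing R K := by
    apply IsFractionRing.of_field
    intro z
    obtain ⟨P, Q, hQ, h⟩ := hx.gen z
    exact ⟨Ideal.Quotient.mk I P, Ideal.Quotient.mk I Q, by
      rw [hRK, hRK, hιmk, hιmk, eq_div_iff hQ, h]⟩
  let ψ : R →ₐ[ℂ] F[X][X] := Ideal.Quotient.liftₐ I (MvPolynomial.aeval y)
    (fun P hP => hyI P (hx.ker P hP))
  have hψmk : ∀ P, ψ (Ideal.Quotient.mk I P) = MvPolynomial.aeval y P := fun P => rfl
  have hψ : Function.Injective ψ := by
    rw [injective_iff_map_eq_zero]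
    intro z hz
    obtain ⟨P, rfl⟩ := Ideal.Quotient.mk_surjective z
    rw [hψmk] at hz
    exact Ideal.Quotient.eq_zero_iff_mem.2 (hxI P (hker P hz))
  let E : Type := FractionRing F[X][X]
  let g : R →+* E := (algebraMap F[X][X] E).comp ψ.toRingHom
  have hg : Function.Injective g := (IsFractionRing.injective F[X][X] E).comp hψ
  let φ0 : K →+* E := IsFractionRing.lift hg
  have hφ0 : ∀ a : R, φ0 (algebraMap R K a) = algebraMap F[X][X] E (ψ a) := fun a =>
    IsFractionRing.lift_algebraMap hg a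
  let φ : K →ₐ[ℂ] E :=
    { φ0 with
      commutes' := fun z => by
        change φ0 (algebraMap ℂ K z) = _
        rw [IsScalarTower.algebraMap_apply ℂ R K, hφ0, AlgHom.commutes,
          ← IsScalarTower.algebraMap_apply] }
  have hφ : ∀ i, φ (x i) = algebraMap F[X][X] E (y i) := by
    intro i
    have h1 : x i = algebraMap R K (Ideal.Quotient.mk I (MvPolynomial.X i)) := by
      rw [hRK, hιmk, MvPolynomial.aeval_X]
    have h2 : ψ (Ideal.Quotient.mk I (MvPolynomial.X i)) = y i := by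
      rw [hψmk, MvPolynomial.aeval_X]
    rw [← h2, h1]
    exact hφ0 _
  -- the curve
  let Xe : E := algebraMap F[X][X] E (C X)
  let Ye : E := algebraMap F[X][X] E X
  have hYe : Ye ≠ 0 := by
    intro h
    have h1 : (X : F[X][X]) = 0 := (map_eq_zero_iff _ (IsFractionRing.injective F[X][X] E)).1 h
    exact X_ne_zero h1
  let j : F →+* E := (algebraMap F[X][X] E).comp ((C : F[X] →+* F[X][X]).comp (C : F →+* F[X]))
  let s : F[X] →+* E[X] := (Polynomial.compRingHom (X + C Xe)).comp (Polynomial.mapRingHom j)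
  have hs : ∀ q : F[X], s q = (q.map j).comp (X + C Xe) := fun q => rfl
  have hev : ∀ q : F[X], (s q).eval 0 = algebraMap F[X][X] E (C q) := by
    intro q
    rw [hs, eval_comp, eval_add, eval_X, eval_C, zero_add, eval_map]
    have h1 : (Polynomial.eval₂RingHom j Xe) = (algebraMap F[X][X] E).comp (C : F[X] →+* F[X][X]) := by
      apply Polynomial.ringHom_ext
      · intro r
        simp only [Polynomial.coe_eval₂RingHom, eval₂_C]
        rfl
      · simp only [Polynomial.coe_eval₂RingHom, eval₂_X]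
        rfl
    exact congrArg (fun f : F[X] →+* E => f q) h1
  let γ : Fin 4 → E[X] := fun i => C (Ye ^ w i) * s (p i)
  have hγ : IsGood (fun _ : Fin 1 => bpPoly a) (fun i => φ (x i)) γ := by
    refine ⟨⟨?_, ?_⟩, ?_, ?_⟩
    · intro i
      show (C (Ye ^ w i) * s (p i)).eval 0 = φ (x i)
      rw [eval_mul, eval_C, hev, hφ, ← map_pow, ← map_mul]
      congr 1
      show X ^ w i * C (p i) = C (p i) * X ^ w i
      rw [mul_comm]
    · intro _
      rw [bp_aeval]
      have h1 : ∀ i, γ i ^ a i = C (Ye ^ L) * s (p i ^ a i) := by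
        intro i
        show (C (Ye ^ w i) * s (p i)) ^ a i = _
        rw [mul_pow, ← C_pow, ← pow_mul, hw i, map_pow s]
      simp only [h1]
      rw [← Finset.mul_sum, ← map_sum, hsum, map_zero, mul_zero]
    · rw [Ideal.eq_top_iff_one]
      obtain ⟨c, hc⟩ := Ideal.mem_span_range_iff_exists_fun.1
        (show (1 : F[X]) ∈ Ideal.span (Set.range p) by rw [hspan]; trivial)
      have h1 : (1 : E[X]) = ∑ i, (s (c i) * C ((Ye ^ w i)⁻¹)) * γ i := by
        rw [← map_one s, ← hc, map_sum]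
        apply Finset.sum_congr rfl
        intro i _
        rw [map_mul]
        show s (c i) * s (p i) = (s (c i) * C ((Ye ^ w i)⁻¹)) * (C (Ye ^ w i) * s (p i))
        have h2 : (C ((Ye ^ w i)⁻¹) : E[X]) * C (Ye ^ w i) = 1 := by
          rw [← C_mul, inv_mul_cancel₀ (pow_ne_zero _ hYe), C_1]
        calc s (c i) * s (p i) = s (c i) * (1 * s (p i)) := by rw [one_mul]
          _ = _ := by rw [← h2]; ring
      rw [h1]
      exact Ideal.sum_mem _ fun i _ => Ideal.mul_mem_left _ _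
        (Ideal.subset_span ⟨i, rfl⟩)
    · obtain ⟨i, hi⟩ := hpos
      refine ⟨i, ?_⟩
      show 0 < (C (Ye ^ w i) * s (p i)).natDegree
      rw [natDegree_C_mul (pow_ne_zero _ hYe), hs, natDegree_comp, natDegree_X_add_C, mul_one,
        natDegree_map_eq_of_injective j.injective]
      exact hi
  exact hSp 4 1 _ K x hx E φ γ hγ

private theorem keyG (a w : Fin 4 → ℕ) (L : ℕ) (hwa : ∀ i, w i * a i = L)
    (H : MvPolynomial (Fin 4) ℂ) (n : ℕ) (hH : H.IsHomogeneous n) (k : Type) [Field k] [Algebra ℂ k]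
    (p : Fin 4 → k[X]) :
    MvPolynomial.aeval (fun i => (C (p i) * X ^ w i : k[X][X]))
      (MvPolynomial.aeval (fun i => (MvPolynomial.X i : MvPolynomial (Fin 4) ℂ) ^ a i) H) =
      (X ^ L) ^ n * C (MvPolynomial.aeval (fun i => p i ^ a i) H) := by
  have h1 := congrArg (fun f : MvPolynomial (Fin 4) ℂ →ₐ[ℂ] k[X][X] => f H)
    (MvPolynomial.comp_aeval (fun i => (MvPolynomial.X i : MvPolynomial (Fin 4) ℂ) ^ a i)
      (MvPolynomial.aeval (R := ℂ) (fun i => (C (p i) * X ^ w i : k[X][X]))))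
  simp only [AlgHom.comp_apply, map_pow, MvPolynomial.aeval_X] at h1
  rw [h1]
  have h2 : (fun i => (C (p i) * X ^ w i : k[X][X]) ^ a i) =
      fun i => X ^ L * C (p i ^ a i) := by
    funext i
    rw [mul_pow, ← pow_mul, hwa i, ← C_pow, mul_comm]
  rw [h2]
  refine (hom_aeval H n hH (X ^ L) (fun i => C (p i ^ a i))).trans ?_
  apply congrArg (fun q => (X ^ L) ^ n * q)
  have h3 := congrArg (fun f : MvPolynomial (Fin 4) ℂ →ₐ[ℂ] k[X][X] => f H)
    (MvPolynomial.comp_aeval (fun i => p i ^ a i)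
      ((Polynomial.CAlgHom : k[X] →ₐ[k[X]] k[X][X]).restrictScalars ℂ))
  simp only [AlgHom.comp_apply] at h3
  exact h3.symm

/-- two polynomials with equal powers -/
private theorem pow_eq (p q : ℂ[X]) (n : ℕ) (hn : 0 < n) (κ : ℂ) (h : p ^ n = C κ * q ^ n) :
    ∃ κ' : ℂ, p = C κ' * q := by
  obtain ⟨μ, hμ⟩ := IsAlgClosed.exists_pow_nat_eq κ hn
  have h1 : p ^ n = (C μ * q) ^ n := by
    rw [h, mul_pow, ← C_pow, hμ]
  have h2 : p ∣ C μ * q :=
    (UniqueFactorizationMonoid.pow_dvd_pow_iff_dvd hn.ne').1 (dvd_of_eq h1)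
  have h3 : C μ * q ∣ p :=
    (UniqueFactorizationMonoid.pow_dvd_pow_iff_dvd hn.ne').1 (dvd_of_eq h1.symm)
  obtain ⟨v, hv⟩ := associated_of_dvd_dvd h3 h2
  obtain ⟨c, hc, hcv⟩ := Polynomial.isUnit_iff.1 v.isUnit
  refine ⟨μ * c, ?_⟩
  rw [← hv, ← hcv, C_mul]
  ring

end DicM

open DicM in
theorem stmtDic : StmtSpread → StmtInd → StmtTwo → StmtDic := by
  classical
  intro hSp hInd hTwo a D ha u F _ _ b hsp hsum hspan hpos hne K _ _ x hx
  set L : ℕ := ∏ i, a i with hL
  have hLpos : 0 < L := Finset.prod_pos fun i _ => ha i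
  set w : Fin 4 → ℕ := fun i => L / a i with hw
  have hdvd : ∀ i, a i ∣ L := fun i => Finset.dvd_prod_of_mem _ (Finset.mem_univ i)
  have hwa : ∀ i, w i * a i = L := fun i => Nat.div_mul_cancel (hdvd i)
  have hwpos : ∀ i, 0 < w i := fun i => Nat.div_pos (Nat.le_of_dvd hLpos (hdvd i)) (ha i)
  by_cases hcase : ∀ Q : MvPolynomial (Fin 4) ℂ,
      MvPolynomial.aeval (fun i => (C (crv D b i) * X ^ w i : F[X][X])) Q = 0 →
      Q ∈ Ideal.span (Set.range (fun _ : Fin 1 => bpPoly a))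
  · left
    exact case1 hSp a K x hx F (crv D b) w L hwa hsum hspan hpos hcase
  · right
    push Not at hcase
    obtain ⟨Q, hQy, hQn⟩ := hcase
    intro n H hH hHu
    by_contra hHb
    obtain ⟨i, j, hi0, hj0, hij⟩ := hne
    -- algebraic independence
    have hind : AlgebraicIndependent ℂ
        ![(C (crv D u i) * X ^ w i : ℂ[X][X]), (C (crv D u j) * X ^ w j : ℂ[X][X])] := by
      apply hTwo (crv D u i) (crv D u j) (w i) (w j) (hwpos i) (hwpos j) hi0 hj0
      intro κ hκ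
      have h1 : (crv D u i ^ a i) ^ L = C (κ ^ (a i * a j)) * (crv D u j ^ a j) ^ L := by
        have h2 := congrArg (fun q => q ^ (a i * a j)) hκ
        simp only [mul_pow] at h2
        rw [← pow_mul, ← pow_mul, ← C_pow] at h2
        have e1 : w j * (a i * a j) = a i * L := by rw [← hwa j]; ring
        have e2 : w i * (a i * a j) = a j * L := by rw [← hwa i]; ring
        rw [e1, e2] at h2
        rw [← pow_mul, ← pow_mul]
        exact h2
      obtain ⟨κ', hκ'⟩ := pow_eq _ _ L hLpos _ h1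
      exact hij κ' hκ'
    set y : Fin 4 → F[X][X] := fun i => C (crv D b i) * X ^ w i with hy
    set v : Fin 4 → ℂ[X][X] := fun i => C (crv D u i) * X ^ w i with hv
    set G : MvPolynomial (Fin 4) ℂ :=
      MvPolynomial.aeval (fun i => (MvPolynomial.X i : MvPolynomial (Fin 4) ℂ) ^ a i) H with hG
    have key : ∀ (k : Type) [Field k] [Algebra ℂ k] (p : Fin 4 → k[X]),
        MvPolynomial.aeval (fun i => (C (p i) * X ^ w i : k[X][X])) G =
          (X ^ L) ^ n * C (MvPolynomial.aeval (fun i => p i ^ a i) H) := by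
      intro k _ _ p
      exact keyG a w L hwa H n hH k p
    have hGy : MvPolynomial.aeval y G ≠ 0 := by
      rw [hy, key F (crv D b)]
      apply mul_ne_zero
      · exact pow_ne_zero _ (pow_ne_zero _ X_ne_zero)
      · rw [Ne, C_eq_zero]
        exact hHb
    have hGv : MvPolynomial.aeval v G = 0 := by
      rw [hv, key ℂ (crv D u), hHu, map_zero, mul_zero]
    have hy0 : MvPolynomial.aeval y (bpPoly a) = 0 := by
      rw [bp_aeval]
      exact sum_y a w L hwa (crv D b) hsum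
    refine chain hInd (MvPolynomial.aeval x) (MvPolynomial.aeval y) (MvPolynomial.aeval v) ?_ ?_
      ![MvPolynomial.X i, MvPolynomial.X j] G Q (bpPoly a) ?_ hGy hGv ?_ hQy ?_ ?_
    · intro P hP
      have h2 : Ideal.span (Set.range (fun _ : Fin 1 => bpPoly a)) ≤
          RingHom.ker (MvPolynomial.aeval y : MvPolynomial (Fin 4) ℂ →ₐ[ℂ] F[X][X]) := by
        rw [Ideal.span_le]
        rintro _ ⟨k, rfl⟩
        rw [SetLike.mem_coe, RingHom.mem_ker]
        exact hy0
      exact h2 (hx.ker P hP)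
    · intro P hP
      exact vanish D w u b hsp P hP
    · have h1 : (fun k => MvPolynomial.aeval v ((![MvPolynomial.X i, MvPolynomial.X j] :
          Fin 2 → MvPolynomial (Fin 4) ℂ) k)) = ![v i, v j] := by
        funext k
        fin_cases k
        · simp
        · simp
      rw [h1]
      exact hind
    · intro h
      exact hQn (hx.ker Q h)
    · intro h0
      have h1 := congrArg (MvPolynomial.aeval (fun i : Fin 4 => if i = 0 then (1 : ℂ) else 0)) h0
      rw [bp_aeval, map_zero, Fin.sum_univ_four] at h1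
      simp [(ha 1).ne', (ha 2).ne', (ha 3).ne'] at h1
    · exact hx.zero 0

end

end Pool.Agent.BP
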