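import Pool.Agent.Lib.MP_410da7_agBP.SpecB
import Mathlib.FieldTheory.IsAlgClosed.Classification
import Mathlib.Analysis.Complex.Cardinality
import Mathlib.SetTheory.Cardinal.Continuum

/-!
# Four lines: the `p`-adic integers are mapped to the complex numbers
-/

set_option autoImplicit false

namespace Pool.Agent.BP

open Cardinal

namespace EmbM

theorem card_padic (p : ℕ) [Fact p.Prime] : #(ℤ_[p]) ≤ 𝔠 := by
  have h1 : Function.Injective (fun (x : ℤ_[p]) (n : ℕ) => (PadicInt.toZModPow n x).val) := by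
    intro x y hxy
    apply PadicInt.ext_of_toZModPow.mp
    intro n
    have hn : NeZero (p ^ n) := ⟨pow_ne_zero _ (Fact.out : p.Prime).ne_zero⟩
    exact ZMod.val_injective _ (congrFun hxy n)
  have h2 := Cardinal.mk_le_of_injective h1
  refine h2.trans ?_
  simp

/-- the auxiliary algebraically closed field -/
abbrev Aux (p : ℕ) [Fact p.Prime] : Type := AlgebraicClosure (FractionRing (MvPolynomial ℝ ℤ_[p]))

theorem card_poly (p : ℕ) [Fact p.Prime] : #(MvPolynomial ℝ ℤ_[p]) = 𝔠 := by
  apply le_antisymm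
  · refine MvPolynomial.cardinalMk_le_max.trans ?_
    rw [Cardinal.mk_real]
    exact max_le (max_le (card_padic p) le_rfl) Cardinal.aleph0_le_continuum
  · rw [← Cardinal.mk_real]
    exact Cardinal.mk_le_of_injective (f := fun r : ℝ => (MvPolynomial.X r : MvPolynomial ℝ ℤ_[p]))
      (MvPolynomial.X_injective)

theorem card_frac (p : ℕ) [Fact p.Prime] : #(FractionRing (MvPolynomial ℝ ℤ_[p])) = 𝔠 := by
  rw [Cardinal.mk_fractionRing, card_poly]

theorem card_aux (p : ℕ) [Fact p.Prime] : #(Aux p) = 𝔠 := by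
  apply le_antisymm
  · refine (Algebra.IsAlgebraic.cardinalMk_le_max
      (FractionRing (MvPolynomial ℝ ℤ_[p])) (Aux p)).trans ?_
    rw [card_frac]
    exact max_le le_rfl Cardinal.aleph0_le_continuum
  · rw [← card_frac p]
    exact Cardinal.mk_le_of_injective
      (algebraMap (FractionRing (MvPolynomial ℝ ℤ_[p])) (Aux p)).injective

end EmbM

theorem stmtEmb : StmtEmb := by
  intro p _
  let F : Type := FractionRing (MvPolynomial ℝ ℤ_[p])
  let φ : ℤ_[p] →+* EmbM.Aux p := (algebraMap (FractionRing (MvPolynomial ℝ ℤ_[p]))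
    (EmbM.Aux p)).comp ((algebraMap (MvPolynomial ℝ ℤ_[p])
      (FractionRing (MvPolynomial ℝ ℤ_[p]))).comp MvPolynomial.C)
  have hφ : Function.Injective φ :=
    (algebraMap (FractionRing (MvPolynomial ℝ ℤ_[p])) (EmbM.Aux p)).injective.comp
      ((IsFractionRing.injective (MvPolynomial ℝ ℤ_[p])
        (FractionRing (MvPolynomial ℝ ℤ_[p]))).comp (MvPolynomial.C_injective _ _))
  have hc : CharZero (EmbM.Aux p) := charZero_of_injective_ringHom hφ
  have hcard : Nonempty (EmbM.Aux p ≃ ℂ) := by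
    rw [← Cardinal.eq, EmbM.card_aux, Cardinal.mk_complex]
  obtain ⟨θ⟩ := IsAlgClosed.ringEquiv_of_equiv_of_charZero
    (by rw [EmbM.card_aux]; exact Cardinal.aleph0_lt_continuum) hcard
  exact ⟨(θ : EmbM.Aux p →+* ℂ).comp φ⟩

end Pool.Agent.BP
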