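import Pool.Agent.Lib.MP_410da7_agBP.SpecC

/-!
# Four lines: the exponent vector
-/

set_option autoImplicit false

namespace Pool.Agent.BP

open MvPolynomial

namespace ExvM

theorem support_sub (a : Fin 4 → ℕ) (s : Fin 4 →₀ ℕ) (hs : s ∈ (bpPoly a).support) :
    ∃ i, s = Finsupp.single i (a i) := by
  classical
  rw [bpPoly] at hs
  have h1 := MvPolynomial.support_sum hs
  rw [Finset.mem_biUnion] at h1
  obtain ⟨i, -, hi⟩ := h1
  rw [MvPolynomial.support_X_pow, Finset.mem_singleton] at hi
  exact ⟨i, hi⟩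

end ExvM

theorem stmtExv : StmtExv := by
  classical
  rintro a ha ⟨l, hl⟩
  have hpos : ∀ i, 0 < a i := fun i => by have := ha i; omega
  set M : ℕ := ∏ i, a i with hM
  have hdvd : ∀ i, a i ∣ M := fun i => Finset.dvd_prod_of_mem a (Finset.mem_univ i)
  have hM0 : 0 < M := Finset.prod_pos fun i _ => hpos i
  let e : Fin 4 → ℕ := fun i => if i = l then 1 else M / a i
  have hdeg : (bpPoly a).weightedTotalDegree e ≤ M := by
    rw [MvPolynomial.weightedTotalDegree]
    refine Finset.sup_le fun s hs => ?_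
    obtain ⟨i, rfl⟩ := ExvM.support_sub a s hs
    rw [Finsupp.weight_single]
    by_cases hi : i = l
    · simp only [e, hi, if_true, smul_eq_mul, mul_one]
      exact Nat.le_of_dvd hM0 (hdvd l)
    · simp only [e, hi, if_false, smul_eq_mul]
      exact Nat.mul_div_le M (a i)
  refine ⟨e, ?_, l, by simp [e]⟩
  rw [Fin.sum_univ_one]
  refine lt_of_le_of_lt hdeg ?_
  rw [← Finset.add_sum_erase _ _ (Finset.mem_univ l)]
  have h1 : e l = 1 := by simp [e]
  have h2 : M ≤ ∑ i ∈ Finset.univ.erase l, e i := by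
    have h3 : ((M : ℕ) : ℚ) ≤ ((∑ i ∈ Finset.univ.erase l, e i : ℕ) : ℚ) := by
      push_cast
      have h4 : ∀ i ∈ Finset.univ.erase l, ((e i : ℕ) : ℚ) = M * (1 / (a i : ℚ)) := by
        intro i hi
        have hi' : i ≠ l := Finset.ne_of_mem_erase hi
        simp only [e, hi', if_false]
        rw [Nat.cast_div (hdvd i) (by exact_mod_cast (hpos i).ne')]
        ring
      rw [Finset.sum_congr rfl h4, ← Finset.mul_sum]
      have h5 : (0 : ℚ) < M := by exact_mod_cast hM0
      nlinarith
    exact_mod_cast h3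
  omega

end Pool.Agent.BP
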