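import Pool.Agent.Lib.MP_410da7_agBP.SpecC
import Pool.Agent.Lib.MP_410da7_ag.Moved.PuncturedCones

/-!
# Four lines, module FIN: the final theorem
-/

set_option autoImplicit false

namespace Pool.Agent.BP

open Polynomial Pool.Agent.PC Pool.Agent.Lib.MP_410da7_ag

noncomputable section

namespace FinM

/-- The weights are proportional to the numbers `1 / a_i`. -/
theorem sum_w (a : Fin 4 → ℕ) (ha : ∀ i, 2 ≤ a i) :
    ((∑ i, Finset.univ.lcm a / a i : ℕ) : ℚ) = (Finset.univ.lcm a : ℕ) * ∑ i, 1 / (a i : ℚ) := by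
  rw [Nat.cast_sum, Finset.mul_sum]
  apply Finset.sum_congr rfl
  intro i _
  have h1 : a i ∣ Finset.univ.lcm a := Finset.dvd_lcm (Finset.mem_univ i)
  have h2 : (a i : ℚ) ≠ 0 := by
    have := ha i
    exact_mod_cast (by omega : a i ≠ 0)
  rw [Nat.cast_div h1 h2, mul_one_div]

theorem lcm_pos (a : Fin 4 → ℕ) (ha : ∀ i, 2 ≤ a i) : 0 < Finset.univ.lcm a := by
  apply Nat.pos_of_ne_zero
  rw [Ne, Finset.lcm_eq_zero_iff]
  rintro ⟨i, -, hi⟩
  have := ha i
  omega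

theorem lt_iff (a : Fin 4 → ℕ) (ha : ∀ i, 2 ≤ a i) :
    ∑ _k : Fin 1, Finset.univ.lcm a < ∑ i, Finset.univ.lcm a / a i ↔ 1 < ∑ i, 1 / (a i : ℚ) := by
  have h1 : (0 : ℚ) < (Finset.univ.lcm a : ℕ) := by exact_mod_cast lcm_pos a ha
  rw [Fin.sum_univ_one, ← Nat.cast_lt (α := ℚ), sum_w a ha]
  constructor
  · intro h
    by_contra hc
    push Not at hc
    have := mul_le_mul_of_nonneg_left hc h1.le
    rw [mul_one] at this
    exact absurd h (not_lt.mpr this)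
  · intro h
    have := mul_lt_mul_of_pos_left h h1
    rwa [mul_one] at this

end FinM

open FinM in
theorem stmtFin (hDim : StmtDim) (hKod : StmtKod) (hQs : StmtQs) (hExv : StmtExv)
    (hPrm : StmtPrm) (hCls : StmtCls) (hChk : StmtChk) (hLift : StmtLift) (hFoot : StmtFoot)
    (hKey : StmtKey) : StmtFin := by
  intro a ha K _ _ x hx
  have hQ := hQs a ha
  obtain ⟨-, -, n, hn, htr, -⟩ := hDim 4 1 _ _ _ hQ K x hx
  have hn3 : n = 3 := by omega
  subst hn3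
  have hlt := lt_iff a ha
  have h31 : 1 < ∑ i, 1 / (a i : ℚ) → A1UniruledOn (charts x) := by
    intro hS
    by_cases hl : ∃ l, 1 ≤ ∑ i ∈ Finset.univ.erase l, 1 / (a i : ℚ)
    · obtain ⟨e, he⟩ := hExv a ha hl
      have hT := Pool.Agent.Lib.MP_410da7_ag.Moved.PuncturedCones.result hQ hx
        (Or.inr (Or.inl ⟨e, he⟩))
      exact (hT.out 0 2).mpr (hlt.mpr hS)
    · push Not at hl
      set σ := Tuple.sort a with hσ
      have hmono : Monotone (a ∘ σ) := Tuple.monotone_sort a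
      have hb : ∀ i, 2 ≤ (a ∘ σ) i := fun i => ha _
      obtain ⟨hx', hback⟩ := hPrm a σ K x hx
      have hsum : ∑ i, 1 / (((a ∘ σ) i : ℕ) : ℚ) = ∑ i, 1 / (a i : ℚ) :=
        Equiv.sum_comp σ (fun i => 1 / (a i : ℚ))
      have h4 : 1 < ∑ i, 1 / (((a ∘ σ) i : ℕ) : ℚ) := by rw [hsum]; exact hS
      have h3 : 1 / (((a ∘ σ) 0 : ℕ) : ℚ) + 1 / (((a ∘ σ) 1 : ℕ) : ℚ) +
          1 / (((a ∘ σ) 2 : ℕ) : ℚ) < 1 := by
        have h5 := hl (σ 3)
        have h6 := Finset.add_sum_erase Finset.univ (fun i => 1 / (a i : ℚ)) (Finset.mem_univ (σ 3))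
        have h7 := hsum
        rw [Fin.sum_univ_four] at h7
        simp only [Function.comp_apply] at h7 ⊢
        linarith
      obtain ⟨q, hq, t, ht, hbt⟩ := hCls (a ∘ σ) hb hmono h3 h4
      obtain ⟨hchk, htyp⟩ := fam_ok q hq
      obtain ⟨-, ht2, ht3⟩ := htyp t ht
      obtain ⟨hp, hrest⟩ := hChk q.1 hchk
      haveI : Fact q.1.p.Prime := ⟨hp⟩
      obtain ⟨hFb, hSur⟩ := hrest
      obtain ⟨γ', P', hF⟩ := hLift q.1.p _ _ _ _ _ _ _ hFb hSur
      obtain ⟨γ'', P'', hF'⟩ := hFoot _ (a ∘ σ) _ _ _ _ _ _ hF hb (by rw [hbt]; exact ht2)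
      apply hback
      refine hKey (a ∘ σ) _ _ _ _ γ'' P'' hF' ?_ K (x ∘ σ) hx'
      rw [hbt]
      exact ht3
  tfae_have 1 → 2 := by
    intro h
    exact logKodairaNegInfOn_of_a1UniruledOn htr _ ((a1UniruledOn_iff _).mp h)
  tfae_have 2 → 3 := by
    intro h
    by_contra hcon
    have h1 : ¬ (∑ _k : Fin 1, Finset.univ.lcm a < ∑ i, Finset.univ.lcm a / a i) := by
      rw [hlt]; exact hcon
    exact hKod 4 1 _ _ _ hQ K x hx (not_lt.mp h1) h
  tfae_have 3 → 1 := h31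
  tfae_finish

end

end Pool.Agent.BP
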