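import Pool.Agent.Lib.MP_410da7_agBP.SpecB

/-!
# Four lines: from `FbOn` to `Football`
-/

set_option autoImplicit false

namespace Pool.Agent.BP

open Polynomial

namespace FootM

theorem natDegree_trm {k : Type} [Field k] (a e c d : Fin 4 → ℕ) (m : ℕ) (γ : Fin 4 → k)
    (P : Fin 4 → k[X]) (i : Fin 4) (hs : e i + c i + a i * d i = m)
    (hd : (P i).natDegree = d i) : (trm a e γ P i).natDegree ≤ m := by
  unfold trm
  refine (natDegree_mul_le).trans ?_
  have h1 : (C (γ i) * X ^ e i : k[X]).natDegree ≤ e i := natDegree_C_mul_X_pow_le _ _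
  have h2 : (P i ^ a i).natDegree ≤ a i * d i := by
    rw [← hd]
    exact natDegree_pow_le
  omega

end FootM

theorem stmtFoot (hB : StmtBir) : StmtFoot := by
  classical
  intro a a' e c d m γ P h h2 hd
  let γ' : Fin 4 → ℂ := fun i => if d i = 0 then γ i * (P i).coeff 0 ^ a i else γ i
  let P' : Fin 4 → ℂ[X] := fun i => if d i = 0 then 1 else P i
  have htrm : trm a' e γ' P' = trm a e γ P := by
    funext i
    unfold trm
    by_cases hi : d i = 0
    · have h1 : P i = C ((P i).coeff 0) :=
        eq_C_of_natDegree_eq_zero ((h.deg i).trans hi)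
      simp only [γ', P', hi, if_true, one_pow, mul_one]
      conv_rhs => rw [h1]
      rw [C_mul, C_pow]
      ring
    · simp only [γ', P', hi, if_false]
      rw [hd i (Nat.pos_of_ne_zero hi)]
  refine ⟨γ', P', ⟨h2, h.pos, ?_, ?_, ?_, ?_, ?_, ?_, h.top, ?_⟩⟩
  · intro i
    by_cases hi : d i = 0
    · have := h.sum i
      rw [hi, mul_zero] at this ⊢
      exact this
    · rw [hd i (Nat.pos_of_ne_zero hi)]
      exact h.sum i
  · intro i
    by_cases hi : d i = 0
    · simp [P', hi]
    · simp only [P', hi, if_false]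
      exact h.deg i
  · intro i
    by_cases hi : d i = 0
    · simp [P', hi]
    · simp only [P', hi, if_false]
      exact h.const i
  · intro i
    by_cases hi : d i = 0
    · simp only [γ', hi, if_true]
      exact mul_ne_zero (h.gam i) (pow_ne_zero _ (h.const i))
    · simp only [γ', hi, if_false]
      exact h.gam i
  · rw [htrm]
    exact h.eq
  · rw [htrm]
    exact h.cop
  · rw [htrm]
    obtain ⟨c₀, l, hpt⟩ := h.pt
    exact hB m _ h.pos (fun i => FootM.natDegree_trm a e c d m γ P i (h.sum i) (h.deg i)) c₀ l hpt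

end Pool.Agent.BP
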