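import Pool.Agent.Lib.MP_410da7_agBP.SpecA

/-!
# Four lines, HOM: basic properties of `hom` (helper23)
-/

set_option autoImplicit false

namespace Pool.Agent.BP

open Polynomial

noncomputable section

namespace HomM

variable {k R : Type} [CommRing k] [CommRing R] [Algebra k R]

private theorem hom_sum {ι : Type} (s : Finset ι) (m : ℕ) (f : ι → k[X]) (A B : R) :
    hom m (∑ i ∈ s, f i) A B = ∑ i ∈ s, hom m (f i) A B := by
  unfold hom
  rw [Finset.sum_comm]
  refine Finset.sum_congr rfl fun j _ => ?_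
  rw [finsetSum_coeff, map_sum, Finset.sum_mul, Finset.sum_mul]

private theorem hom_mon {m i : ℕ} (h : i ≤ m) (c : k) (A B : R) :
    hom m (monomial i c) A B = algebraMap k R c * A ^ i * B ^ (m - i) := by
  unfold hom
  rw [Finset.sum_eq_single i]
  · rw [coeff_monomial, if_pos rfl]
  · intro j _ hj
    rw [coeff_monomial, if_neg hj.symm, map_zero, zero_mul, zero_mul]
  · intro hi
    exact absurd (Finset.mem_range.2 (Nat.lt_succ_of_le h)) hi

private theorem hom_C (c : k) (A B : R) : hom 0 (C c) A B = algebraMap k R c := by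
  have h := hom_mon (le_refl 0) c A B
  rw [monomial_zero_left] at h
  rw [h]
  simp

private theorem hom_X (e c : ℕ) (A B : R) : hom (e + c) (X ^ e : k[X]) A B = A ^ e * B ^ c := by
  have h := hom_mon (Nat.le_add_right e c) (1 : k) A B
  rw [monomial_one_right_eq_X_pow] at h
  rw [h, map_one, one_mul, Nat.add_sub_cancel_left]

private theorem hom_mul (m n : ℕ) (f g : k[X]) (hf : f.natDegree ≤ m) (hg : g.natDegree ≤ n)
    (A B : R) : hom (m + n) (f * g) A B = hom m f A B * hom n g A B := by
  have ef : f = ∑ i ∈ Finset.range (m + 1), monomial i (f.coeff i) :=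
    as_sum_range' f (m + 1) (Nat.lt_succ_of_le hf)
  have eg : g = ∑ i ∈ Finset.range (n + 1), monomial i (g.coeff i) :=
    as_sum_range' g (n + 1) (Nat.lt_succ_of_le hg)
  have e1 : hom (m + n) (f * g) A B = ∑ i ∈ Finset.range (m + 1), ∑ j ∈ Finset.range (n + 1),
      hom (m + n) (monomial i (f.coeff i) * monomial j (g.coeff j)) A B := by
    conv_lhs => rw [ef, eg, Finset.sum_mul_sum]
    rw [hom_sum]
    exact Finset.sum_congr rfl fun i _ => hom_sum _ _ _ A B
  rw [e1]
  have e2 : hom m f A B = ∑ i ∈ Finset.range (m + 1),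
      algebraMap k R (f.coeff i) * A ^ i * B ^ (m - i) := rfl
  have e3 : hom n g A B = ∑ i ∈ Finset.range (n + 1),
      algebraMap k R (g.coeff i) * A ^ i * B ^ (n - i) := rfl
  rw [e2, e3, Finset.sum_mul_sum]
  refine Finset.sum_congr rfl fun i hi => Finset.sum_congr rfl fun j hj => ?_
  have hi' : i ≤ m := Nat.lt_succ_iff.1 (Finset.mem_range.1 hi)
  have hj' : j ≤ n := Nat.lt_succ_iff.1 (Finset.mem_range.1 hj)
  rw [monomial_mul_monomial, hom_mon (Nat.add_le_add hi' hj'), map_mul,
    show m + n - (i + j) = (m - i) + (n - j) from by omega, pow_add, pow_add]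
  ring

private theorem hom_pow (d : ℕ) (f : k[X]) (hf : f.natDegree ≤ d) (A B : R) (a : ℕ) :
    hom (a * d) (f ^ a) A B = hom d f A B ^ a := by
  induction a with
  | zero =>
    rw [Nat.zero_mul, pow_zero, pow_zero]
    have h := hom_C (1 : k) A B
    rw [map_one, map_one] at h
    exact h
  | succ a ih =>
    rw [Nat.succ_mul, pow_succ, pow_succ, hom_mul (a * d) d (f ^ a) f _ hf, ih]
    exact (natDegree_pow_le (n := a) (p := f)).trans (Nat.mul_le_mul_left a hf)

end HomM

open HomM in
/-- **HOM** -/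
theorem stmtHom : StmtHom := by
  refine ⟨?_, ?_, ?_, ?_, ?_⟩
  · intro k R S _ _ _ _ _ φ m f A B
    unfold hom
    rw [map_sum]
    refine Finset.sum_congr rfl fun j _ => ?_
    rw [map_mul, map_mul, map_pow, map_pow, AlgHom.commutes]
  · intro k R _ _ _ m f hf A
    rw [aeval_eq_sum_range' (Nat.lt_succ_of_le hf)]
    unfold hom
    refine Finset.sum_congr rfl fun j _ => ?_
    rw [one_pow, mul_one, Algebra.smul_def]
  · intro k R _ _ _ m f g A B
    unfold hom
    rw [Finset.mul_sum]
    refine Finset.sum_congr rfl fun j hj => ?_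
    have hj' : j ≤ m := Nat.lt_succ_iff.1 (Finset.mem_range.1 hj)
    have h : g ^ m = g ^ j * g ^ (m - j) := by
      rw [← pow_add, Nat.add_sub_cancel' hj']
    rw [h, mul_pow, mul_pow]
    ring
  · intro k R _ _ _ m n f g hf hg A B
    exact hom_mul m n f g hf hg A B
  · intro k R _ _ _ a e c d m γ P hm hP A B i
    have h1 : m = 0 + (e i + c i) + a i * d i := by
      rw [← hm i]
      ring
    unfold trm
    have d1 : (C (γ i) * X ^ e i : k[X]).natDegree ≤ 0 + (e i + c i) := by
      refine (natDegree_C_mul_X_pow_le (γ i) (e i)).trans ?_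
      omega
    have d2 : (P i ^ a i).natDegree ≤ a i * d i :=
      (natDegree_pow_le (n := a i) (p := P i)).trans (Nat.mul_le_mul_left (a i) (hP i))
    have d3 : (X ^ e i : k[X]).natDegree ≤ e i + c i :=
      (natDegree_X_pow_le (e i)).trans (Nat.le_add_right _ _)
    conv_lhs => rw [h1]
    rw [hom_mul _ _ _ _ d1 d2, hom_mul 0 (e i + c i) (C (γ i)) (X ^ e i) (natDegree_C _).le d3,
      hom_C, hom_X, hom_pow (d i) (P i) (hP i)]
    ring

end

end Pool.Agent.BP
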