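import Pool.Agent.Lib.MP_410da7_agBP.SpecA

/-! Package BP, module Ind: one more algebraically independent element. -/

set_option autoImplicit false

namespace Pool.Agent.BP

open Polynomial

theorem stmtInd : StmtInd := by
  intro A B _ _ _ _ _ π n z h hπ hh hπh
  have hz : AlgebraicIndependent ℂ z := AlgebraicIndependent.of_comp π hπ
  have htr : Transcendental (Algebra.adjoin ℂ (Set.range z)) h := by
    rintro ⟨p, hp, hpz⟩
    obtain ⟨q, hq, hndvd⟩ := Polynomial.exists_eq_pow_rootMultiplicity_mul_and_not_dvd p hp 0
    rw [hq, map_mul, map_pow, map_sub, aeval_X, map_zero, map_zero, sub_zero] at hpz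
    have hqz : aeval h q = 0 := (mul_eq_zero.mp hpz).resolve_left (pow_ne_zero _ hh)
    apply hndvd
    rw [map_zero, sub_zero, Polynomial.X_dvd_iff]
    have h1 : aeval h q = aeval h q.divX * h + (q.coeff 0 : A) := by
      conv_lhs => rw [← Polynomial.divX_mul_X_add q]
      rw [map_add, map_mul, aeval_X, aeval_C]
      rfl
    have h2 : π (q.coeff 0 : A) = 0 := by
      have h3 := congrArg π h1
      rw [hqz, map_zero, map_add, map_mul, hπh, mul_zero, zero_add] at h3
      exact h3.symm
    have h4 : ∀ y ∈ Algebra.adjoin ℂ (Set.range z), ∃ Q : MvPolynomial (Fin n) ℂ,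
        MvPolynomial.aeval z Q = y := by
      intro y hy
      rw [Algebra.adjoin_range_eq_range_aeval] at hy
      exact hy
    obtain ⟨Q, hQ'⟩ := h4 _ (q.coeff 0).2
    rw [← hQ', ← AlgHom.comp_apply, MvPolynomial.comp_aeval] at h2
    have h5 : Q = 0 := hπ.eq_zero_of_aeval_eq_zero Q h2
    apply Subtype.ext
    rw [← hQ', h5, map_zero]
    rfl
  have h6 := (hz.option_iff_transcendental h).mpr htr
  rw [← algebraicIndependent_equiv (finSuccEquivLast (n := n)).symm]
  have h7 : (Fin.snoc (α := fun _ => A) z h : Fin (n + 1) → A) ∘ (finSuccEquivLast (n := n)).symm =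
      fun o : Option (Fin n) => o.elim h z := by
    funext o
    cases o with
    | none =>
      rw [Function.comp_apply, finSuccEquivLast_symm_none, Fin.snoc_last]
      rfl
    | some i =>
      rw [Function.comp_apply, finSuccEquivLast_symm_some, Fin.snoc_castSucc]
      rfl
  rw [h7]
  exact h6

end Pool.Agent.BP
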