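import Pool.Agent.Lib.MP_410da7_agBP.SpecA

/-!
# Four lines: the key theorem
-/

set_option autoImplicit false

namespace Pool.Agent.BP

open Polynomial Pool.Agent.PC Pool.Agent.Lib.MP_410da7_ag

noncomputable section

namespace KeyM

private theorem crv_map {R S : Type} [CommRing R] [CommRing S] (D : Fin 4 → ℕ) (φ : R →+* S)
    (b : Ix D → R) (i : Fin 4) : (crv D b i).map φ = crv D (fun q => φ (b q)) i := by
  unfold crv
  rw [Polynomial.map_sum]
  apply Finset.sum_congr rfl
  intro j _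
  rw [Polynomial.map_mul, Polynomial.map_C, Polynomial.map_pow, Polynomial.map_X]

private theorem crv_natDegree {R : Type} [CommRing R] (D : Fin 4 → ℕ) (b : Ix D → R) (i : Fin 4) :
    (crv D b i).natDegree ≤ D i := by
  unfold crv
  apply natDegree_sum_le_of_forall_le
  intro j _
  refine (natDegree_C_mul_X_pow_le _ _).trans ?_
  have := j.2
  omega

private theorem crv_coeff_last {R : Type} [CommRing R] (D : Fin 4 → ℕ) (b : Ix D → R) (i : Fin 4) :
    (crv D b i).coeff (D i) = b ⟨i, Fin.last _⟩ := by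
  unfold crv
  rw [finsetSum_coeff, Finset.sum_eq_single (Fin.last (D i))]
  · rw [coeff_C_mul_X_pow, if_pos (by simp)]
  · intro j _ hj
    rw [coeff_C_mul_X_pow, if_neg]
    intro h
    apply hj
    apply Fin.ext
    rw [Fin.val_last]
    exact h.symm
  · intro h
    exact absurd (Finset.mem_univ _) h

private theorem eqn_map {S : Type} [CommRing S] [Algebra ℂ S] (a D : Fin 4 → ℕ) (b : Ix D → S)
    (k : ℕ) : MvPolynomial.aeval b (eqn a D k) = (∑ i, crv D b i ^ a i).coeff k := by
  unfold eqn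
  have h1 : (∑ i, crv D (fun q => (MvPolynomial.X q : MvPolynomial (Ix D) ℂ)) i ^ a i).map
      ((MvPolynomial.aeval b : MvPolynomial (Ix D) ℂ →ₐ[ℂ] S) : MvPolynomial (Ix D) ℂ →+* S) =
      ∑ i, crv D b i ^ a i := by
    rw [Polynomial.map_sum]
    apply Finset.sum_congr rfl
    intro i _
    rw [Polynomial.map_pow, crv_map]
    congr 2
    funext q
    exact MvPolynomial.aeval_X _ _
  rw [← h1, coeff_map]
  rfl

/-- polynomial relations specialise -/
private theorem vanish {F : Type} [Field F] [Algebra ℂ F] (a D : Fin 4 → ℕ) (u : Ix D → ℂ)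
    (b : Ix D → F) (hs : Spec b u) (Q : MvPolynomial (Fin 4) ℂ)
    (h : MvPolynomial.aeval (fun i => crv D b i ^ a i) Q = 0) :
    MvPolynomial.aeval (fun i => crv D u i ^ a i) Q = 0 := by
  let Yu : Fin 4 → (MvPolynomial (Ix D) ℂ)[X] := fun i =>
    crv D (fun q => (MvPolynomial.X q : MvPolynomial (Ix D) ℂ)) i ^ a i
  have e : ∀ (S : Type) [CommRing S] [Algebra ℂ S] (c : Ix D → S),
      Polynomial.mapAlgHom (MvPolynomial.aeval (R := ℂ) c) (MvPolynomial.aeval Yu Q) =
      MvPolynomial.aeval (fun i => crv D c i ^ a i) Q := by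
    intro S _ _ c
    have h1 := congrArg (fun f : MvPolynomial (Fin 4) ℂ →ₐ[ℂ] S[X] => f Q)
      (MvPolynomial.comp_aeval Yu (Polynomial.mapAlgHom (MvPolynomial.aeval (R := ℂ) c)))
    simp only [AlgHom.comp_apply] at h1
    rw [h1]
    congr 2
    funext i
    have h2 : Polynomial.mapAlgHom (MvPolynomial.aeval (R := ℂ) c) (Yu i) =
        ((crv D (fun q => (MvPolynomial.X q : MvPolynomial (Ix D) ℂ)) i).map
          ((MvPolynomial.aeval c : MvPolynomial (Ix D) ℂ →ₐ[ℂ] S) :
            MvPolynomial (Ix D) ℂ →+* S)) ^ a i := by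
      simp only [Yu, map_pow, Polynomial.coe_mapAlgHom]
    rw [h2, crv_map]
    congr 2
    funext q
    exact MvPolynomial.aeval_X _ _
  rw [← e ℂ u]
  ext n
  have c1 : MvPolynomial.aeval b ((MvPolynomial.aeval Yu Q).coeff n) = 0 := by
    have h3 : (Polynomial.mapAlgHom (MvPolynomial.aeval (R := ℂ) b)
        (MvPolynomial.aeval Yu Q)).coeff n = 0 := by
      rw [e F b, h, coeff_zero]
    simpa [Polynomial.coe_mapAlgHom, Polynomial.coeff_map] using h3
  have c2 := hs _ c1
  have c3 : MvPolynomial.aeval u ((MvPolynomial.aeval Yu Q).coeff n) = 0 := by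
    rw [← c2]
    rfl
  simpa [Polynomial.coe_mapAlgHom, Polynomial.coeff_map] using c3

private theorem ordn_pos (a e : Fin 4 → ℕ) (ha : ∀ i, 0 < a i) : 0 < ordn a e := by
  have h : ∀ i, 0 < a i / Nat.gcd (a i) (e i) := fun i =>
    Nat.div_pos (Nat.le_of_dvd (ha i) (Nat.gcd_dvd_left _ _)) (Nat.gcd_pos_of_pos_left _ (ha i))
  unfold ordn
  exact Nat.lcm_pos (Nat.lcm_pos (h 0) (h 1)) (Nat.lcm_pos (h 2) (h 3))

end KeyM

open KeyM in
theorem stmtKey : StmtGn → StmtUn → StmtDic → StmtPar → StmtNpr → StmtRel → StmtStr → StmtTrd →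
    StmtHom → StmtKey := by
  classical
  intro hGn hUn hDic hPar hNpr hRel hStr hTrd hHom a e c d m γ P hF hineq K _ _ x hx
  have ha : ∀ i, 0 < a i := fun i => lt_of_lt_of_le two_pos (hF.two i)
  have hn0 : 0 < ordn a e := ordn_pos a e ha
  have hPar0 := hPar a e c d m γ P hF
  obtain ⟨D, hD⟩ : ∃ D : Fin 4 → ℕ, D = fun i => m * ordn a e / a i := ⟨_, rfl⟩
  rw [← hD] at hPar0
  obtain ⟨u, hu1, hu2, hu3⟩ := hPar0
  obtain ⟨M, hM⟩ : ∃ M : ℕ, M = m * ordn a e := ⟨_, rfl⟩
  have hDi : ∀ i, D i = M / a i := by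
    intro i
    rw [hD, hM]
  rw [← hM] at hineq hu2
  -- the equations hold at u
  have hsumu : ∑ i, crv D u i ^ a i = 0 := by
    rw [Finset.sum_congr rfl (fun i _ => hu1 i), ← map_sum, hF.eq, map_zero]
  have hequ : ∀ k : Fin (M + 1), MvPolynomial.eval u (eqn a D k) = 0 := by
    intro k
    have h1 := eqn_map a D u (k : ℕ)
    rw [hsumu, coeff_zero] at h1
    rw [← h1]
    rfl
  obtain ⟨F, _, _, b, hb1, hb2, hb3, hb4⟩ := hGn (Ix D) (Fin (M + 1)) (fun k => eqn a D k) u hequ
  have hdegM : ∀ i, a i * D i ≤ M := fun i => by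
    rw [hDi]
    exact Nat.mul_div_le M (a i)
  have hsumb : ∑ i, crv D b i ^ a i = 0 := by
    ext k
    rw [coeff_zero]
    by_cases hk : k ≤ M
    · have h1 := hb1 ⟨k, by omega⟩
      simp only at h1
      rw [eqn_map] at h1
      exact h1
    · apply coeff_eq_zero_of_natDegree_lt
      refine lt_of_le_of_lt ?_ (by omega : M < k)
      apply natDegree_sum_le_of_forall_le
      intro i _
      refine natDegree_pow_le.trans ?_
      exact (Nat.mul_le_mul_left _ (crv_natDegree D b i)).trans (hdegM i)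
  obtain ⟨i0, hi0, hi0'⟩ := hu2
  have hspan : Ideal.span (Set.range (crv D b)) = ⊤ := hUn D u F b hb2 ⟨i0, hi0⟩ hu3
  have hbi0 : b ⟨i0, Fin.last _⟩ ≠ 0 := by
    intro h
    apply hi0
    have h1 := hb2 (MvPolynomial.X ⟨i0, Fin.last _⟩) (by rw [MvPolynomial.aeval_X]; exact h)
    rw [MvPolynomial.eval_X] at h1
    exact h1
  have hpos : ∃ i, 0 < (crv D b i).natDegree := by
    refine ⟨i0, lt_of_lt_of_le hi0' ?_⟩
    rw [← hDi]
    apply le_natDegree_of_ne_zero
    rw [crv_coeff_last]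
    exact hbi0
  obtain ⟨hnz, i1, j1, hij⟩ := hNpr a e c d m γ P hF (ordn a e) hn0
  have hcu : ∀ i, crv D u i ≠ 0 := by
    intro i h
    have h1 := hu1 i
    rw [h, zero_pow (ha i).ne'] at h1
    exact hnz i ((expand_eq_zero hn0).1 h1.symm)
  rcases hDic a D ha u F b hb2 hsumb hspan hpos ⟨i1, j1, hcu i1, hcu j1, fun κ => by
      rw [hu1, hu1]; exact hij κ⟩ K x hx with h | htr
  · exact h
  exfalso
  have hfun : (fun i => crv D u i ^ a i) = fun i => expand ℂ (ordn a e) (trm a e γ P i) :=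
    _root_.funext hu1
  obtain ⟨A, B, hAB, hA, hB, hrel⟩ := hRel a e c d m γ P hF (ordn a e) hn0 F
    (fun i => crv D b i ^ a i) (fun H hH => by
      rw [← hfun]
      exact vanish a D u b hb2 H hH) (fun k H hH hH0 => by
      rw [← hfun] at hH0
      exact htr k H hH hH0)
  -- the algebraic closure
  let L : Type := AlgebraicClosure F
  let j : F →+* L := algebraMap F L
  have hj : Function.Injective j := j.injective
  let φ : F[X] →ₐ[ℂ] L[X] := Polynomial.mapAlgHom (IsScalarTower.toAlgHom ℂ F L)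
  have hφ : ∀ p : F[X], φ p = p.map j := fun p => rfl
  have hrel' : ∀ i k, (crv D b i).map j ^ a i * hom m (trm a e γ P k) (A.map j) (B.map j) =
      (crv D b k).map j ^ a k * hom m (trm a e γ P i) (A.map j) (B.map j) := by
    intro i k
    have h1 := congrArg φ (hrel i k)
    rw [map_mul, map_mul, hHom.1 ℂ F[X] L[X] φ, hHom.1 ℂ F[X] L[X] φ, map_pow, map_pow] at h1
    exact h1
  have hspan' : Ideal.span (Set.range fun i => (crv D b i).map j) = ⊤ := by
    rw [Ideal.eq_top_iff_one]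
    obtain ⟨f, hf⟩ := Ideal.mem_span_range_iff_exists_fun.1
      (show (1 : F[X]) ∈ Ideal.span (Set.range (crv D b)) by rw [hspan]; trivial)
    have h1 : (1 : L[X]) = ∑ i, (f i).map j * (crv D b i).map j := by
      rw [← Polynomial.map_one j, ← hf, Polynomial.map_sum]
      apply Finset.sum_congr rfl
      intro i _
      rw [Polynomial.map_mul]
    rw [h1]
    exact Ideal.sum_mem _ fun i _ => Ideal.mul_mem_left _ _ (Ideal.subset_span ⟨i, rfl⟩)
  obtain ⟨h, h', hh, hh', hx'⟩ := hStr a e c d m γ P hF L (fun i => (crv D b i).map j)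
    (A.map j) (B.map j) (hAB.map (Polynomial.mapRingHom j))
    ((Polynomial.map_ne_zero_iff hj).2 hA) ((Polynomial.map_ne_zero_iff hj).2 hB) hspan'
    (fun i => by
      rw [← hM, ← hDi]
      exact natDegree_map_le.trans (crv_natDegree D b i)) hrel'
  have htrd := hTrd D F b hb3 L a ha (trm a e γ P) m (ordn a e) (ordn a c) 1
    (ordn a e / ordn a c) h h' hh hh' hx'
  have h1 : (Fintype.card (Ix D) : Cardinal) ≤
      ((1 + 1 + (ordn a e / ordn a c + 1) : ℕ) : Cardinal) + (Fintype.card (Fin (M + 1)) : Cardinal) :=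
    hb4.trans (add_le_add_left htrd _)
  have h2 : Fintype.card (Ix D) ≤ (1 + 1 + (ordn a e / ordn a c + 1)) + (M + 1) := by
    rw [Fintype.card_fin] at h1
    exact_mod_cast h1
  have h3 : Fintype.card (Ix D) = ∑ i, D i + 4 := by
    rw [Fintype.card_sigma]
    simp only [Fintype.card_fin]
    rw [Finset.sum_add_distrib]
    simp
  rw [h3] at h2
  have h4 : M + ordn a e / ordn a c < ∑ i, D i := by
    rw [Finset.sum_congr rfl (fun i _ => hDi i)]
    exact hineq
  omega

end

end Pool.Agent.BP
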