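import Pool.Agent.Lib.MP_410da7_agBP.SpecB

/-!
# Four lines: lifting the condition that there is no common zero
-/

set_option autoImplicit false

namespace Pool.Agent.BP

open Polynomial

namespace LcoM

theorem isUnit_of_map_ne {R k : Type} [CommRing R] [IsLocalRing R] [Field k] (ψ : R →+* k)
    (hψ : Function.Surjective ψ) {y : R} (hy : ψ y ≠ 0) : IsUnit y := by
  have hmax : (RingHom.ker ψ).IsMaximal := RingHom.ker_isMaximal_of_surjective ψ hψ
  have h1 : RingHom.ker ψ = IsLocalRing.maximalIdeal R := IsLocalRing.eq_maximalIdeal hmax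
  by_contra h
  have h2 : y ∈ IsLocalRing.maximalIdeal R := (IsLocalRing.mem_maximalIdeal y).mpr h
  rw [← h1, RingHom.mem_ker] at h2
  exact hy h2

theorem span_map {ι R K : Type} [CommRing R] [CommRing K] (φ : R →+* K) (T : ι → R[X]) :
    (Ideal.span (Set.range T)).map (mapRingHom φ) =
      Ideal.span (Set.range fun i => (T i).map φ) := by
  rw [Ideal.map_span, ← Set.range_comp]
  rfl

end LcoM

theorem stmtLco (hN : StmtNak) : StmtLco := by
  intro R k K _ _ _ _ ψ φ hψ m T hdeg htop hspan
  obtain ⟨i, hi⟩ := htop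
  have hu := LcoM.isUnit_of_map_ne ψ hψ hi
  have hne : (T i).coeff m ≠ 0 := by
    intro h
    rw [h, map_zero] at hi
    exact hi rfl
  have hnd : (T i).natDegree = m := le_antisymm (hdeg i) (le_natDegree_of_ne_zero hne)
  have hlc : IsUnit (T i).leadingCoeff := by
    rw [leadingCoeff, hnd]
    exact hu
  have h1 := hN R k ψ hψ (Ideal.span (Set.range T)) (T i) (Ideal.subset_span ⟨i, rfl⟩) hlc
    (by rw [LcoM.span_map]; exact hspan)
  rw [← LcoM.span_map, h1, Ideal.map_top]

end Pool.Agent.BP
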