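import Pool.Agent.Lib.MP_410da7_agBP.SpecC
import Pool.Agent.Lib.MP_410da7_ag.T1Neg

/-!
# Four lines: the case where some exponent is one
-/

set_option autoImplicit false

namespace Pool.Agent.BP

open MvPolynomial Pool.Agent.PC Pool.Agent.Lib.MP_410da7_ag

noncomputable section

namespace LinM

/-- the index set of the other coordinates -/
abbrev Ot (i : Fin 4) : Type := {j : Fin 4 // j ≠ i}

/-- elimination of the coordinate with exponent one -/
def elim (a : Fin 4 → ℕ) (i : Fin 4) : MvPolynomial (Fin 4) ℂ →ₐ[ℂ] MvPolynomial (Ot i) ℂ :=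
  aeval fun j => if h : j ≠ i then X ⟨j, h⟩ else - ∑ l : Ot i, X l ^ a l

theorem elim_X_ne (a : Fin 4 → ℕ) (i : Fin 4) (j : Ot i) : elim a i (X j) = X j := by
  simp only [elim, aeval_X]
  rw [dif_pos j.2]

theorem elim_X (a : Fin 4 → ℕ) (i : Fin 4) : elim a i (X i) = - ∑ l : Ot i, X l ^ a l := by
  simp only [elim, aeval_X]
  rw [dif_neg (by simp)]

theorem elim_bp (a : Fin 4 → ℕ) (i : Fin 4) (hi : a i = 1) : elim a i (bpPoly a) = 0 := by
  rw [bpPoly, map_sum, Fintype.sum_eq_add_sum_subtype_ne _ i, map_pow, elim_X, hi, pow_one]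
  have : ∀ l : Ot i, elim a i (X (l : Fin 4) ^ a l) = X l ^ a l := by
    intro l
    rw [map_pow, elim_X_ne]
  rw [Finset.sum_congr rfl fun l _ => this l]
  simp

theorem elim_rename (a : Fin 4 → ℕ) (i : Fin 4) (Q : MvPolynomial (Ot i) ℂ) :
    elim a i (rename Subtype.val Q) = Q := by
  have h : (elim a i).comp (rename Subtype.val) = AlgHom.id ℂ (MvPolynomial (Ot i) ℂ) := by
    apply MvPolynomial.algHom_ext
    intro j
    simp only [AlgHom.comp_apply, rename_X, AlgHom.id_apply]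
    exact elim_X_ne a i j
  exact congrArg (fun g => g Q) h

section

variable (a : Fin 4 → ℕ) (i : Fin 4) (hi : a i = 1) {K : Type} [Field K] [Algebra ℂ K]
  (x : Fin 4 → K) (hx : IsFunctionField (fun _ : Fin 1 => bpPoly a) x)

include hi hx

theorem aeval_elim (P : MvPolynomial (Fin 4) ℂ) :
    aeval (fun j : Ot i => x j) (elim a i P) = aeval x P := by
  have h : (aeval (fun j : Ot i => x j)).comp (elim a i) = aeval x := by
    apply MvPolynomial.algHom_ext
    intro j
    rw [AlgHom.comp_apply, aeval_X]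
    by_cases hj : j = i
    · subst hj
      rw [elim_X, map_neg, map_sum]
      have h0 := hx.zero 0
      rw [bpPoly, map_sum, Fintype.sum_eq_add_sum_subtype_ne _ j] at h0
      simp only [map_pow, aeval_X, hi, pow_one] at h0 ⊢
      rw [← sub_eq_zero, ← neg_eq_zero, ← h0]
      ring
    · rw [elim_X_ne a i ⟨j, hj⟩, aeval_X]
  exact congrArg (fun g => g P) h

theorem algInd : AlgebraicIndependent ℂ (fun j : Ot i => x j) := by
  rw [algebraicIndependent_iff]
  intro Q hQ
  have h1 : aeval x (rename Subtype.val Q) = 0 := by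
    rw [aeval_rename]
    exact hQ
  have h2 := hx.ker _ h1
  rw [Set.range_const, Ideal.mem_span_singleton'] at h2
  obtain ⟨c, hc⟩ := h2
  have h3 := congrArg (elim a i) hc
  rw [map_mul, elim_bp a i hi, mul_zero, elim_rename] at h3
  exact h3.symm

theorem trBasis : IsTranscendenceBasis ℂ (fun j : Ot i => x j) := by
  rw [(algInd a i hi x hx).isTranscendenceBasis_iff_isAlgebraic]
  have hmem : ∀ P : MvPolynomial (Fin 4) ℂ,
      aeval x P ∈ Algebra.adjoin ℂ (Set.range fun j : Ot i => x j) := by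
    intro P
    rw [← aeval_elim a i hi x hx P, Algebra.adjoin_range_eq_range_aeval]
    exact ⟨_, rfl⟩
  refine ⟨fun z => ?_⟩
  obtain ⟨P, Q, hQ, h⟩ := hx.gen z
  refine ⟨Polynomial.C (⟨_, hmem Q⟩ : Algebra.adjoin ℂ (Set.range fun j : Ot i => x j)) *
    Polynomial.X - Polynomial.C ⟨_, hmem P⟩, ?_, ?_⟩
  · intro h0
    have h1 := congrArg (fun q => Polynomial.coeff q 1) h0
    simp only [Polynomial.coeff_sub, Polynomial.coeff_C_mul, Polynomial.coeff_X_one, mul_one,
      Polynomial.coeff_C, one_ne_zero, if_false, sub_zero, Polynomial.coeff_zero] at h1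
    exact hQ (congrArg Subtype.val h1)
  · simp only [map_sub, map_mul, Polynomial.aeval_C, Polynomial.aeval_X]
    change aeval x Q * z - aeval x P = 0
    rw [← h]
    ring

theorem trdeg_eq : Algebra.trdeg ℂ K = ((3 : ℕ) : Cardinal) := by
  rw [← (trBasis a i hi x hx).cardinalMk_eq_trdeg, Cardinal.mk_fintype]
  congr 1
  simp

theorem ne_zero (j : Fin 4) (hj : j ≠ i) : x j ≠ 0 :=
  (algInd a i hi x hx).ne_zero ⟨j, hj⟩

theorem exists_good : ∃ γ : Fin 4 → Polynomial K,
    IsGood (fun _ : Fin 1 => bpPoly a) (fun j => AlgHom.id ℂ K (x j)) γ := by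
  have hall : ∀ i : Fin 4, ∃ j0 j1 : Fin 4, j0 ≠ i ∧ j1 ≠ i ∧ j0 ≠ j1 := by decide
  obtain ⟨j0, j1, h0, h1, h01⟩ := hall i
  let γ' : Ot i → Polynomial K := fun j =>
    Polynomial.C (x j) + if (j : Fin 4) = j0 then Polynomial.X else 0
  let Γ : MvPolynomial (Fin 4) ℂ →ₐ[ℂ] Polynomial K := (aeval γ').comp (elim a i)
  have hΓ : ∀ P, aeval (fun j => Γ (X j)) P = Γ P := by
    intro P
    have : aeval (fun j => Γ (X j)) = Γ := by
      apply MvPolynomial.algHom_ext
      intro j
      rw [aeval_X]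
    rw [this]
  have hne : ∀ j : Fin 4, ∀ hj : j ≠ i, Γ (X j) = γ' ⟨j, hj⟩ := by
    intro j hj
    change aeval γ' (elim a i (X j)) = _
    rw [elim_X_ne a i ⟨j, hj⟩, aeval_X]
  refine ⟨fun j => Γ (X j), ⟨?_, ?_⟩, ?_, ⟨j0, ?_⟩⟩
  · intro j
    rw [AlgHom.id_apply]
    have h2 : ∀ Q : MvPolynomial (Ot i) ℂ,
        (aeval γ' Q).eval 0 = aeval (fun j : Ot i => x j) Q := by
      intro Q
      have h3 : ((Polynomial.aeval (0 : K)).restrictScalars ℂ).comp (aeval γ') =
          aeval (fun j : Ot i => x j) := by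
        apply MvPolynomial.algHom_ext
        intro l
        simp only [AlgHom.comp_apply, aeval_X, AlgHom.restrictScalars_apply, γ']
        by_cases hl : (l : Fin 4) = j0 <;> simp [hl]
      have h4 := congrArg (fun g => g Q) h3
      simp only [AlgHom.comp_apply, AlgHom.restrictScalars_apply] at h4
      rw [← h4, Polynomial.coe_aeval_eq_eval]
    change (aeval γ' (elim a i (X j))).eval 0 = x j
    rw [h2, aeval_elim a i hi x hx, aeval_X]
  · intro k
    rw [hΓ]
    change aeval γ' (elim a i (bpPoly a)) = 0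
    rw [elim_bp a i hi, map_zero]
  · have hu : IsUnit (Γ (X j1)) := by
      rw [hne j1 h1]
      simp only [γ', if_neg h01.symm, add_zero]
      exact (Polynomial.isUnit_C).mpr (IsUnit.mk0 _ (ne_zero a i hi x hx j1 h1))
    exact Ideal.eq_top_of_isUnit_mem _ (Ideal.subset_span ⟨j1, rfl⟩) hu
  · rw [hne j0 h0]
    simp only [γ', if_true, add_comm (Polynomial.C _) _]
    rw [Polynomial.natDegree_X_add_C]
    exact one_pos

end

end LinM

/-- The theorem, if some exponent is one. -/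
theorem lin_case (hSp : StmtSpread) (a : Fin 4 → ℕ) (ha : ∀ i, 1 ≤ a i) (i : Fin 4)
    (hi : a i = 1) {K : Type} [Field K] [Algebra ℂ K] (x : Fin 4 → K)
    (hx : IsFunctionField (fun _ : Fin 1 => bpPoly a) x) :
    List.TFAE [A1UniruledOn (charts x), LogKodairaNegInfOn (charts x) 3,
      1 < ∑ i, 1 / (a i : ℚ)] := by
  obtain ⟨γ, hγ⟩ := LinM.exists_good a i hi x hx
  have h1 : A1UniruledOn (charts x) := hSp 4 1 _ K x hx K (AlgHom.id ℂ K) γ hγ
  have h2 : LogKodairaNegInfOn (charts x) 3 :=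
    logKodairaNegInfOn_of_a1UniruledOn (LinM.trdeg_eq a i hi x hx) _ ((a1UniruledOn_iff _).mp h1)
  have h3 : 1 < ∑ i, 1 / (a i : ℚ) := by
    rw [← Finset.add_sum_erase _ _ (Finset.mem_univ i), hi]
    have hp : ∀ j, (0 : ℚ) < 1 / (a j : ℚ) := fun j => by
      have : (0 : ℚ) < a j := by exact_mod_cast (ha j)
      positivity
    have hall : ∀ i : Fin 4, ∃ j : Fin 4, j ≠ i := by decide
    obtain ⟨j, hj⟩ := hall i
    have h4 : 0 < ∑ l ∈ Finset.univ.erase i, 1 / (a l : ℚ) :=
      Finset.sum_pos (fun l _ => hp l) ⟨j, Finset.mem_erase.mpr ⟨hj, Finset.mem_univ j⟩⟩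
    norm_num
    simpa using h4
  tfae_have 1 → 2 := fun _ => h2
  tfae_have 2 → 3 := fun _ => h3
  tfae_have 3 → 1 := fun _ => h1
  tfae_finish

end

end Pool.Agent.BP
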