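import Pool.Agent.Lib.MP_410da7_agBP.Lco

/-!
# Four lines: lifting the point certificate
-/

set_option autoImplicit false

namespace Pool.Agent.BP

open Polynomial

theorem stmtLpt (hN : StmtNak) : StmtLpt := by
  intro R k K _ _ _ _ ψ φ hψ m T hm hdeg s l hpt
  obtain ⟨h1, ⟨h, hspan, hh⟩, i₀, hi₀⟩ := hpt
  simp only [eval_map, eval₂_hom, coeff_map] at h1 hh hi₀
  have hev : ∀ j, ((T j).map ψ).eval (ψ s) = ψ ((T j).eval s) := fun j => by
    rw [eval_map, eval₂_hom]
  have hev' : ∀ j, ((T j).map φ).eval (φ s) = φ ((T j).eval s) := fun j => by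
    rw [eval_map, eval₂_hom]
  -- division by X - C s
  have hdiv : ∀ i, ∃ H : R[X], T i * C ((T l).eval s) - T l * C ((T i).eval s) =
      H * (X - C s) := by
    intro i
    have hr : (T i * C ((T l).eval s) - T l * C ((T i).eval s)).IsRoot s := by
      simp [IsRoot.def]
      ring
    obtain ⟨H, hH⟩ := dvd_iff_isRoot.mpr hr
    exact ⟨H, by rw [hH, mul_comm]⟩
  choose H hH using hdiv
  have hHh : ∀ i, (H i).map ψ = h i := by
    intro i
    apply mul_left_cancel₀ (X_sub_C_ne_zero (ψ s))
    rw [hh i]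
    have h2 := congrArg (Polynomial.map ψ) (hH i)
    simp only [Polynomial.map_sub, Polynomial.map_mul, map_C, map_X] at h2
    rw [h2, mul_comm]
  have hHdeg : ∀ i, (H i).coeff m = 0 := by
    intro i
    by_contra hne
    have h2 : m ≤ (H i).natDegree := le_natDegree_of_ne_zero hne
    have h3 : H i ≠ 0 := by
      intro h4
      rw [h4, coeff_zero] at hne
      exact hne rfl
    have h5 : (H i * (X - C s)).natDegree = (H i).natDegree + 1 := by
      rw [mul_comm, (monic_X_sub_C s).natDegree_mul' h3, natDegree_X_sub_C s,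
        add_comm]
    have h6 : (T i * C ((T l).eval s) - T l * C ((T i).eval s)).natDegree ≤ m := by
      refine (natDegree_sub_le _ _).trans (max_le ?_ ?_)
      · exact (natDegree_mul_C_le _ _).trans (hdeg i)
      · exact (natDegree_mul_C_le _ _).trans (hdeg l)
    rw [hH i, h5] at h6
    omega
  obtain ⟨n, rfl⟩ : ∃ n, m = n + 1 := ⟨m - 1, by omega⟩
  have hHlow : ∀ i, (H i).natDegree ≤ n := by
    intro i
    by_contra hcon
    have h3 : H i ≠ 0 := by
      intro h4
      rw [h4] at hcon
      simp at hcon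
    have h5 : (H i * (X - C s)).natDegree = (H i).natDegree + 1 := by
      rw [mul_comm, (monic_X_sub_C s).natDegree_mul' h3, natDegree_X_sub_C s,
        add_comm]
    have h6 : (T i * C ((T l).eval s) - T l * C ((T i).eval s)).natDegree ≤ n + 1 := by
      refine (natDegree_sub_le _ _).trans (max_le ?_ ?_)
      · exact (natDegree_mul_C_le _ _).trans (hdeg i)
      · exact (natDegree_mul_C_le _ _).trans (hdeg l)
    rw [hH i, h5] at h6
    omega
  have hcoeff : (H i₀).coeff n = (T i₀).coeff (n + 1) * (T l).eval s -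
      (T l).coeff (n + 1) * (T i₀).eval s := by
    have h2 := congrArg (fun q => coeff q (n + 1)) (hH i₀)
    simp only [coeff_mul_X_sub_C, hHdeg, zero_mul, sub_zero, coeff_sub, coeff_mul_C] at h2
    exact h2.symm
  have hcu : IsUnit ((H i₀).coeff n) := by
    apply LcoM.isUnit_of_map_ne ψ hψ
    rw [hcoeff, map_sub, map_mul, map_mul]
    exact sub_ne_zero.mpr hi₀
  have hlead : IsUnit (H i₀).leadingCoeff := by
    have h3 : (H i₀).coeff n ≠ 0 := by
      intro h4
      have h5 := hcu.map ψ
      rw [h4, map_zero] at h5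
      exact not_isUnit_zero h5
    rw [leadingCoeff, le_antisymm (hHlow i₀) (le_natDegree_of_ne_zero h3)]
    exact hcu
  have htop := hN R k ψ hψ (Ideal.span (Set.range H)) (H i₀) (Ideal.subset_span ⟨i₀, rfl⟩) hlead
    (by rw [LcoM.span_map]; simpa only [hHh] using hspan)
  have hTl : IsUnit ((T l).eval s) := LcoM.isUnit_of_map_ne ψ hψ h1
  refine ⟨?_, ⟨fun i => (H i).map φ, ?_, ?_⟩, i₀, ?_⟩
  · rw [hev']
    exact (hTl.map φ).ne_zero
  · rw [← LcoM.span_map, htop, Ideal.map_top]
  · intro i
    rw [hev', hev']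
    have h2 := congrArg (Polynomial.map φ) (hH i)
    simp only [Polynomial.map_sub, Polynomial.map_mul, map_C, map_X] at h2
    rw [h2, mul_comm]
  · rw [hev', hev', coeff_map, coeff_map, ← map_mul, ← map_mul]
    intro h2
    have h3 := hcu.map φ
    rw [hcoeff, map_sub, h2, sub_self] at h3
    exact not_isUnit_zero h3

end Pool.Agent.BP
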