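import Pool.Agent.Lib.MP_410da7_agBP.SpecA

set_option autoImplicit false

/-! The root multiplicities. -/

namespace Pool.Agent.BP.MulM

open Polynomial

private theorem dvd_ordn (a e : Fin 4 → ℕ) (μ : ℕ) (ha : ∀ i, 0 < a i)
    (h : ∀ i, a i ∣ e i * μ) : ordn a e ∣ μ := by
  have h1 : ∀ i, a i / Nat.gcd (a i) (e i) ∣ μ := by
    intro i
    have hg : 0 < Nat.gcd (a i) (e i) := Nat.gcd_pos_of_pos_left _ (ha i)
    have hc : Nat.Coprime (a i / Nat.gcd (a i) (e i)) (e i / Nat.gcd (a i) (e i)) :=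
      Nat.coprime_div_gcd_div_gcd hg
    refine hc.dvd_of_dvd_mul_left ?_
    have h2 : Nat.gcd (a i) (e i) * (a i / Nat.gcd (a i) (e i)) ∣
        Nat.gcd (a i) (e i) * (e i / Nat.gcd (a i) (e i) * μ) := by
      rw [Nat.mul_div_cancel' (Nat.gcd_dvd_left _ _), ← mul_assoc,
        Nat.mul_div_cancel' (Nat.gcd_dvd_right _ _)]
      exact h i
    exact Nat.dvd_of_mul_dvd_mul_left hg h2
  unfold ordn
  exact Nat.lcm_dvd (Nat.lcm_dvd (h1 0) (h1 1)) (Nat.lcm_dvd (h1 2) (h1 3))

private theorem rm_pow {L : Type} [Field L] (p : L[X]) (hp : p ≠ 0) (n : ℕ) (r : L) :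
    rootMultiplicity r (p ^ n) = n * rootMultiplicity r p := by
  classical
  rw [← count_roots, ← count_roots, roots_pow, Multiset.count_nsmul]

/-- The comparison of multiplicities. -/
private theorem cmp {L : Type} [Field L] (x g A B Q : L[X]) (k e c : ℕ) (r : L)
    (hk : 0 < k) (hg : g ≠ 0) (hgr : g.eval r ≠ 0) (hA : A ≠ 0) (hB : B ≠ 0)
    (hBr : B.eval r ≠ 0) (hQr : Q.eval r ≠ 0) (h : x ^ k = g * (A ^ e * B ^ c * Q ^ k)) :
    k ∣ e * rootMultiplicity r A := by
  have hQ : Q ≠ 0 := by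
    intro h0
    apply hQr
    rw [h0, eval_zero]
  have hz : ∀ p : L[X], p.eval r ≠ 0 → rootMultiplicity r p = 0 := fun p hp =>
    rootMultiplicity_eq_zero hp
  have h1 : A ^ e * B ^ c * Q ^ k ≠ 0 :=
    mul_ne_zero (mul_ne_zero (pow_ne_zero _ hA) (pow_ne_zero _ hB)) (pow_ne_zero _ hQ)
  have h2 : A ^ e * B ^ c ≠ 0 := mul_ne_zero (pow_ne_zero _ hA) (pow_ne_zero _ hB)
  have hx : x ≠ 0 := by
    intro h0
    rw [h0, zero_pow hk.ne'] at h
    exact mul_ne_zero hg h1 h.symm
  have h3 := congrArg (rootMultiplicity r) h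
  rw [rm_pow x hx, rootMultiplicity_mul (mul_ne_zero hg h1), rootMultiplicity_mul h1,
    rootMultiplicity_mul h2, rm_pow A hA, rm_pow B hB, rm_pow Q hQ, hz g hgr, hz B hBr, hz Q hQr] at h3
  rw [mul_zero, mul_zero, add_zero, add_zero, zero_add] at h3
  exact ⟨_, h3.symm⟩

end Pool.Agent.BP.MulM

namespace Pool.Agent.BP

open Polynomial MulM

theorem stmtMul : StmtHom → StmtMul := by
  intro hHom a e c d m γ P hF L _ _ _ x A B κ hκ hAB hA hB hrel
  obtain ⟨hH1, -, -, -, hH5⟩ := hHom
  have ha : ∀ i, 0 < a i := fun i => lt_of_lt_of_le (by norm_num) (hF.two i)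
  have hev : ∀ (f : ℂ[X]) (k : ℕ) (r : L), (hom k f A B).eval r =
      hom k f (A.eval r) (B.eval r) := by
    intro f k r
    have h1 := hH1 ℂ L[X] L ((aeval r).restrictScalars ℂ) k f A B
    simpa only [AlgHom.coe_restrictScalars', coe_aeval_eq_eval] using h1
  have hAB' : ∀ r : L, ¬ (A.eval r = 0 ∧ B.eval r = 0) := by
    rintro r ⟨h1, h2⟩
    obtain ⟨s, t, hst⟩ := hAB
    have h3 := congrArg (eval r) hst
    rw [eval_add, eval_mul, eval_mul, h1, h2, mul_zero, mul_zero, add_zero, eval_one] at h3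
    exact zero_ne_one h3
  have heq : ∀ i, x i ^ a i = (C κ * algebraMap ℂ L[X] (γ i)) *
      (A ^ e i * B ^ c i * hom (d i) (P i) A B ^ a i) := by
    intro i
    rw [hrel i, hH5 ℂ L[X] a e c d m γ P hF.sum (fun i => (hF.deg i).le) A B i]
    ring
  have hginj : ∀ i, algebraMap ℂ L (γ i) ≠ 0 := fun i =>
    (map_ne_zero (algebraMap ℂ L)).mpr (hF.gam i)
  have hgr : ∀ (i : Fin 4) (r : L), (C κ * algebraMap ℂ L[X] (γ i)).eval r ≠ 0 := by
    intro i r
    rw [eval_mul, eval_C, Polynomial.algebraMap_apply, eval_C]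
    exact mul_ne_zero hκ (hginj i)
  have hg : ∀ i, C κ * algebraMap ℂ L[X] (γ i) ≠ 0 := by
    intro i h0
    apply hgr i 0
    rw [h0, eval_zero]
  constructor
  · intro r
    by_cases hr : A.eval r = 0
    · refine dvd_ordn a e _ ha fun i => ?_
      have hBr : B.eval r ≠ 0 := fun h => hAB' r ⟨hr, h⟩
      refine cmp (x i) _ A B (hom (d i) (P i) A B) (a i) (e i) (c i) r (ha i) (hg i) (hgr i r)
        hA hB hBr ?_ (heq i)
      rw [hev, hr]
      unfold hom
      rw [Finset.sum_eq_single 0]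
      · rw [pow_zero, mul_one]
        exact mul_ne_zero ((map_ne_zero (algebraMap ℂ L)).mpr (hF.const i)) (pow_ne_zero _ hBr)
      · intro j _ hj
        rw [zero_pow hj, mul_zero, zero_mul]
      · intro h
        exact absurd (Finset.mem_range.mpr (Nat.succ_pos _)) h
    · rw [rootMultiplicity_eq_zero hr]
      exact dvd_zero _
  · intro r
    by_cases hr : B.eval r = 0
    · refine dvd_ordn a c _ ha fun i => ?_
      have hAr : A.eval r ≠ 0 := fun h => hAB' r ⟨h, hr⟩
      refine cmp (x i) _ B A (hom (d i) (P i) A B) (a i) (c i) (e i) r (ha i) (hg i) (hgr i r)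
        hB hA hAr ?_ ?_
      · rw [hev, hr]
        unfold hom
        rw [Finset.sum_eq_single (d i)]
        · rw [Nat.sub_self, pow_zero, mul_one]
          refine mul_ne_zero ((map_ne_zero (algebraMap ℂ L)).mpr ?_) (pow_ne_zero _ hAr)
          rw [← hF.deg i]
          refine leadingCoeff_ne_zero.mpr ?_
          intro h0
          apply hF.const i
          rw [h0, coeff_zero]
        · intro j hj hj2
          have h1 : d i - j ≠ 0 := by
            have := Finset.mem_range.mp hj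
            omega
          rw [zero_pow h1, mul_zero]
        · intro h
          exact absurd (Finset.mem_range.mpr (Nat.lt_succ_self _)) h
      · rw [heq i]
        ring
    · rw [rootMultiplicity_eq_zero hr]
      exact dvd_zero _

end Pool.Agent.BP
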