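import Pool.Agent.Lib.MP_410da7_agBP.SpecA

/-! Package BP, module Nak: ideals of `R[X]`, `R` local. -/

set_option autoImplicit false

namespace Pool.Agent.BP

open Polynomial

theorem stmtNak : StmtNak := by
  intro R k _ _ _ ψ hψ I f hf hlc hI
  -- the kernel
  have hker : RingHom.ker ψ ≤ (⊥ : Ideal R).jacobson := by
    rw [IsLocalRing.jacobson_eq_maximalIdeal ⊥ bot_ne_top]
    apply IsLocalRing.le_maximalIdeal
    intro h
    have h1 : (1 : R) ∈ RingHom.ker ψ := by rw [h]; exact Submodule.mem_top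
    rw [RingHom.mem_ker, map_one] at h1
    exact one_ne_zero h1
  -- an element congruent to one
  have hsurj : Function.Surjective (Polynomial.mapRingHom ψ) := Polynomial.map_surjective ψ hψ
  obtain ⟨g, hg, hg1⟩ := (Ideal.mem_map_iff_of_surjective _ hsurj).mp
    (show (1 : k[X]) ∈ I.map (Polynomial.mapRingHom ψ) by rw [hI]; exact Submodule.mem_top)
  have hcoef : ∀ j, (1 - g).coeff j ∈ RingHom.ker ψ := by
    intro j
    rw [RingHom.mem_ker]
    have h1 : (1 - g).map ψ = 0 := by
      rw [Polynomial.map_sub, Polynomial.map_one, sub_eq_zero]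
      exact hg1.symm
    rw [← Polynomial.coeff_map, h1, Polynomial.coeff_zero]
  -- finiteness
  obtain ⟨c, hc⟩ := hlc
  have hmonic : (C ((c⁻¹ : Rˣ) : R) * f).Monic := by
    have h1 : ((c⁻¹ : Rˣ) : R) * f.leadingCoeff = 1 := by
      rw [← hc, Units.inv_mul]
    exact Polynomial.monic_C_mul_of_mul_leadingCoeff_eq_one h1
  have hfI : C ((c⁻¹ : Rˣ) : R) * f ∈ I := I.mul_mem_left _ hf
  have hfin : Module.Finite R (R[X] ⧸ I) := by
    have h1 : Module.Finite R (R[X] ⧸ Ideal.span {C ((c⁻¹ : Rˣ) : R) * f}) :=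
      hmonic.finite_adjoinRoot
    have hle : Ideal.span {C ((c⁻¹ : Rˣ) : R) * f} ≤ I := by
      rw [Ideal.span_singleton_le_iff_mem]
      exact hfI
    exact Module.Finite.of_surjective
      ((Ideal.Quotient.factorₐ R hle).toLinearMap :
        (R[X] ⧸ Ideal.span {C ((c⁻¹ : Rˣ) : R) * f}) →ₗ[R] (R[X] ⧸ I))
      (Ideal.Quotient.factor_surjective hle)
  -- Nakayama
  have hN : (⊤ : Submodule R (R[X] ⧸ I)) = ⊥ := by
    apply Submodule.eq_bot_of_le_smul_of_le_jacobson_bot (RingHom.ker ψ) ⊤ hfin.fg_top ?_ hker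
    intro y _
    obtain ⟨h, rfl⟩ := Ideal.Quotient.mk_surjective y
    have h1 : Ideal.Quotient.mk I h = Ideal.Quotient.mk I ((1 - g) * h) := by
      rw [Ideal.Quotient.eq]
      have h2 : h - (1 - g) * h = g * h := by ring
      rw [h2]
      exact I.mul_mem_right _ hg
    rw [h1]
    have h2 : (1 - g) * h = ∑ j ∈ (1 - g).support, (1 - g).coeff j • (X ^ j * h) := by
      conv_lhs => rw [(1 - g).as_sum_support_C_mul_X_pow]
      rw [Finset.sum_mul]
      refine Finset.sum_congr rfl fun j _ => ?_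
      rw [Polynomial.smul_eq_C_mul, mul_assoc]
    rw [h2, map_sum]
    apply Submodule.sum_mem
    intro j _
    have h3 : Ideal.Quotient.mk I ((1 - g).coeff j • (X ^ j * h)) =
        (1 - g).coeff j • Ideal.Quotient.mk I (X ^ j * h) := rfl
    rw [h3]
    exact Submodule.smul_mem_smul (hcoef j) Submodule.mem_top
  rw [Ideal.eq_top_iff_one, ← Ideal.Quotient.eq_zero_iff_mem]
  have h1 : Ideal.Quotient.mk I 1 ∈ (⊤ : Submodule R (R[X] ⧸ I)) := Submodule.mem_top
  rw [hN] at h1
  exact h1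

end Pool.Agent.BP
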