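import Pool.Agent.Lib.MP_410da7_agBP.SpecB

/-!
# Four lines: Newton's method for systems over a complete ring
-/

set_option autoImplicit false

namespace Pool.Agent.BP.NewtM

open MvPolynomial

noncomputable section

/-- Taylor's formula of order one. -/
private theorem taylor {A σ : Type} [CommRing A] [Fintype σ] (I : Ideal A)
    (Q : MvPolynomial σ A) (x h : σ → A) (hh : ∀ s, h s ∈ I) :
    eval (x + h) Q - eval x Q - ∑ s, eval x (pderiv s Q) * h s ∈ I ^ 2 := by
  classical
  induction Q using MvPolynomial.induction_on with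
  | C a => simp
  | add P Q hP hQ =>
    have : eval (x + h) (P + Q) - eval x (P + Q) - ∑ s, eval x (pderiv s (P + Q)) * h s =
        (eval (x + h) P - eval x P - ∑ s, eval x (pderiv s P) * h s) +
        (eval (x + h) Q - eval x Q - ∑ s, eval x (pderiv s Q) * h s) := by
      simp only [map_add, add_mul, Finset.sum_add_distrib]
      ring
    rw [this]
    exact Ideal.add_mem _ hP hQ
  | mul_X Q i hQ =>
    have hD : ∑ s, eval x (pderiv s (Q * X i)) * h s =
        (∑ s, eval x (pderiv s Q) * h s) * x i + eval x Q * h i := by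
      have h1 : ∀ s, eval x (pderiv s (Q * X i)) * h s =
          eval x (pderiv s Q) * h s * x i + (if s = i then eval x Q * h s else 0) := by
        intro s
        rw [pderiv_mul, pderiv_X]
        by_cases hs : s = i
        · subst hs
          simp
          ring
        · simp [hs, Ne.symm hs]
          ring
      simp only [h1, Finset.sum_add_distrib, Finset.sum_ite_eq', Finset.mem_univ, if_true,
        Finset.sum_mul]
    have h2 : ∑ s, eval x (pderiv s Q) * h s ∈ I :=
      Ideal.sum_mem _ fun s _ => Ideal.mul_mem_left _ _ (hh s)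
    have h3 : eval (x + h) Q - eval x Q ∈ I := by
      have := Ideal.add_mem _ (Ideal.pow_le_self two_ne_zero hQ) h2
      simpa using this
    have h4 : (eval (x + h) Q - eval x Q) * h i ∈ I ^ 2 := by
      rw [pow_two]
      exact Ideal.mul_mem_mul h3 (hh i)
    have h5 := Ideal.add_mem _ (Ideal.mul_mem_right (x i) _ hQ) h4
    rw [hD]
    convert h5 using 1
    simp only [map_mul, eval_X, Pi.add_apply]
    ring

private theorem congr_eval {A σ : Type} [CommRing A] [Fintype σ] (I : Ideal A)
    (Q : MvPolynomial σ A) (x y : σ → A) (hh : ∀ s, y s - x s ∈ I) :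
    eval y Q - eval x Q ∈ I := by
  have h1 := taylor I Q x (fun s => y s - x s) hh
  have h2 : x + (fun s => y s - x s) = y := by
    funext s
    simp
  rw [h2] at h1
  have h3 : ∑ s, eval x (pderiv s Q) * (y s - x s) ∈ I :=
    Ideal.sum_mem _ fun s _ => Ideal.mul_mem_left _ _ (hh s)
  have := Ideal.add_mem _ (Ideal.pow_le_self two_ne_zero h1) h3
  simpa using this

private theorem map_eval' {A k σ : Type} [CommRing A] [CommRing k] (ψ : A →+* k)
    (x : σ → A) (Q : MvPolynomial σ A) :
    ψ (eval x Q) = eval (fun s => ψ (x s)) (map ψ Q) := by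
  rw [eval_map, eval, coe_eval₂Hom, eval₂_comp_left]
  rfl

/-- The Newton iteration. -/
private def it {A σ τ : Type} [CommRing A] [Fintype τ] (E : τ → MvPolynomial σ A)
    (ρ : σ → τ → A) (x₀ : σ → A) : ℕ → σ → A
  | 0 => x₀
  | n + 1 => it E ρ x₀ n + fun s => - ∑ t, ρ s t * eval (it E ρ x₀ n) (E t)

private theorem newton {A k : Type} [CommRing A] [CommRing k] (I : Ideal A) [IsAdicComplete I A]
    (ψ : A →+* k) (hψ : Function.Surjective ψ) (hker : RingHom.ker ψ = I) {σ τ : Type}
    [Fintype σ] [Fintype τ] [DecidableEq τ] (E : τ → MvPolynomial σ A) (b₀ : σ → k)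
    (R : σ → τ → k) (h1 : ∀ t, eval b₀ (map ψ (E t)) = 0)
    (h2 : ∀ t t', ∑ s, eval b₀ (pderiv s (map ψ (E t))) * R s t' = if t = t' then 1 else 0) :
    ∃ b : σ → A, (∀ t, eval b (E t) = 0) ∧ ∀ s, ψ (b s) = b₀ s := by
  classical
  choose lf hlf using hψ
  set ρ : σ → τ → A := fun s t => lf (R s t) with hρ
  set x : ℕ → σ → A := it E ρ (fun s => lf (b₀ s)) with hx
  have hmem : ∀ y, ψ y = 0 → y ∈ I := fun y hy => by rw [← hker]; exact hy
  have hmem' : ∀ y ∈ I, ψ y = 0 := fun y hy => by rw [← hker] at hy; exact hy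
  have hstep : ∀ n, x (n + 1) = x n + fun s => - ∑ t, ρ s t * eval (x n) (E t) := fun n => rfl
  have hinv : ∀ n, (∀ t, eval (x n) (E t) ∈ I ^ (n + 1)) ∧ ∀ s, ψ (x n s) = b₀ s := by
    intro n
    induction n with
    | zero =>
      have hx0 : ∀ s, ψ (x 0 s) = b₀ s := fun s => hlf (b₀ s)
      refine ⟨fun t => ?_, hx0⟩
      rw [zero_add, pow_one]
      apply hmem
      rw [map_eval']
      simp only [hx0]
      exact h1 t
    | succ n ih =>
      obtain ⟨ih1, ih2⟩ := ih
      have hh : ∀ s, - ∑ t, ρ s t * eval (x n) (E t) ∈ I ^ (n + 1) := fun s =>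
        neg_mem (Ideal.sum_mem _ fun t _ => Ideal.mul_mem_left _ _ (ih1 t))
      refine ⟨fun t => ?_, fun s => ?_⟩
      · have h3 := taylor (I ^ (n + 1)) (E t) (x n) _ hh
        rw [← hstep] at h3
        have h4 : (I ^ (n + 1)) ^ 2 ≤ I ^ (n + 1 + 1) := by
          rw [← pow_mul]
          exact Ideal.pow_le_pow_right (by omega)
        have h5 : eval (x n) (E t) +
            ∑ s, eval (x n) (pderiv s (E t)) * (- ∑ t', ρ s t' * eval (x n) (E t')) =
            ∑ t', ((if t = t' then 1 else 0) - ∑ s, eval (x n) (pderiv s (E t)) * ρ s t') *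
              eval (x n) (E t') := by
          simp only [sub_mul, Finset.sum_sub_distrib, ite_mul, one_mul, zero_mul,
            Finset.sum_ite_eq, Finset.mem_univ, if_true, mul_neg, Finset.sum_neg_distrib,
            Finset.mul_sum, Finset.sum_mul]
          rw [Finset.sum_comm, sub_eq_add_neg]
          simp only [mul_assoc]
        have h6 : ∑ t', ((if t = t' then 1 else 0) -
            ∑ s, eval (x n) (pderiv s (E t)) * ρ s t') * eval (x n) (E t') ∈
            I ^ (n + 1 + 1) := by
          refine Ideal.sum_mem _ fun t' _ => ?_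
          rw [pow_succ' I (n + 1)]
          refine Ideal.mul_mem_mul (hmem _ ?_) (ih1 t')
          rw [map_sub, map_sum]
          have h7 : ∀ s, ψ (eval (x n) (pderiv s (E t)) * ρ s t') =
              eval b₀ (pderiv s (map ψ (E t))) * R s t' := by
            intro s
            rw [map_mul, map_eval', pderiv_map]
            simp only [ih2]
            rw [hρ]
            simp only [hlf]
          simp only [h7, h2 t t']
          split_ifs <;> simp
        have h8 := Ideal.add_mem _ (h4 h3) h6
        rw [← h5] at h8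
        convert h8 using 1
        ring
      · rw [hstep, Pi.add_apply, map_add, ih2 s,
          hmem' _ (Ideal.pow_le_self (Nat.succ_ne_zero n) (hh s)), add_zero]
  have hd : ∀ n s, x (n + 1) s - x n s ∈ I ^ (n + 1) := by
    intro n s
    rw [hstep, Pi.add_apply, add_sub_cancel_left]
    exact neg_mem (Ideal.sum_mem _ fun t _ => Ideal.mul_mem_left _ _ ((hinv n).1 t))
  have hd' : ∀ m j s, x (m + j) s - x m s ∈ I ^ m := by
    intro m j s
    induction j with
    | zero => simp
    | succ j ih =>
      have h3 := Ideal.add_mem _ (Ideal.pow_le_pow_right (by omega) (hd (m + j) s)) ih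
      have h4 : x (m + j + 1) s - x (m + j) s + (x (m + j) s - x m s) =
          x (m + (j + 1)) s - x m s := by
        rw [← add_assoc]
        ring
      rw [h4] at h3
      exact h3
  have htop : ∀ n : ℕ, (I ^ n • ⊤ : Submodule A A) = I ^ n := fun n => by
    rw [smul_eq_mul, Ideal.mul_top]
  have hlim : ∀ s, ∃ L, ∀ n, x n s - L ∈ I ^ n := by
    intro s
    obtain ⟨L, hL⟩ := IsPrecomplete.prec (I := I) (M := A) inferInstance
      (f := fun n => x n s) (by
        intro m n hmn
        obtain ⟨j, rfl⟩ := Nat.exists_eq_add_of_le hmn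
        rw [SModEq.sub_mem, htop, ← neg_sub]
        exact neg_mem (hd' m j s))
    refine ⟨L, fun n => ?_⟩
    have := hL n
    rwa [SModEq.sub_mem, htop] at this
  choose b hb using hlim
  refine ⟨b, fun t => ?_, fun s => ?_⟩
  · apply IsHausdorff.haus (I := I) (M := A) inferInstance
    intro n
    rw [SModEq.sub_mem, htop, sub_zero]
    have h3 := congr_eval (I ^ n) (E t) b (x n) (fun s => hb s n)
    have h4 := Ideal.sub_mem _ (Ideal.pow_le_pow_right (Nat.le_succ n) ((hinv n).1 t)) h3
    simpa using h4
  · have h3 := hb s 1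
    rw [pow_one] at h3
    have h4 := hmem' _ h3
    rw [map_sub, (hinv 1).2 s, sub_eq_zero] at h4
    exact h4.symm

end

end Pool.Agent.BP.NewtM

namespace Pool.Agent.BP

open NewtM

theorem stmtNewt : StmtNewt := by
  intro p _ σ τ _ _ _ E b₀ R h1 h2
  exact newton (IsLocalRing.maximalIdeal ℤ_[p]) PadicInt.toZMod
    (ZMod.ringHom_surjective _) PadicInt.ker_toZMod E b₀ R h1 h2

end Pool.Agent.BP
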