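import Pool.Agent.Lib.MP_410da7_agBP.SpecA

/-!
# Four lines: two of the terms are not proportional
-/

set_option autoImplicit false

namespace Pool.Agent.BP.NprM

open Polynomial

noncomputable section

theorem trm_ne {a e c d : Fin 4 → ℕ} {m : ℕ} {γ : Fin 4 → ℂ} {P : Fin 4 → ℂ[X]}
    (h : Football a e c d m γ P) (i : Fin 4) : trm a e γ P i ≠ 0 := by
  have hP : P i ≠ 0 := by
    intro h0
    apply h.const i
    rw [h0]
    simp
  unfold trm
  exact mul_ne_zero (mul_ne_zero (C_ne_zero.2 (h.gam i)) (pow_ne_zero _ X_ne_zero))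
    (pow_ne_zero _ hP)

theorem aeval_prop (κ : Fin 4 → ℂ) (t : ℂ[X]) (δ : ℕ) (R : MvPolynomial (Fin 4) ℂ)
    (hR : R.IsHomogeneous δ) :
    MvPolynomial.aeval (fun i => C (κ i) * t) R = C (MvPolynomial.eval κ R) * t ^ δ := by
  rw [MvPolynomial.aeval_def, MvPolynomial.eval₂_eq, MvPolynomial.eval_eq, map_sum,
    Finset.sum_mul]
  apply Finset.sum_congr rfl
  intro v hv
  have hw : v.degree = δ := by
    have hd := hR (MvPolynomial.mem_support_iff.1 hv)
    rw [← hd, Finsupp.degree_eq_weight_one]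
    rfl
  have hp : (∏ i ∈ v.support, (C (κ i) * t) ^ v i) = C (∏ i ∈ v.support, κ i ^ v i) * t ^ δ := by
    rw [← hw, Finsupp.degree]
    simp only [mul_pow, Finset.prod_mul_distrib, map_prod, map_pow]
    rw [Finset.prod_pow_eq_pow_sum]
    rfl
  rw [hp, map_mul]
  simp only [algebraMap_eq]
  ring

end

end Pool.Agent.BP.NprM

namespace Pool.Agent.BP

open Polynomial NprM

theorem stmtNpr : StmtNpr := by
  intro a e c d m γ P h n hn
  refine ⟨trm_ne h, ?_⟩
  by_contra hcon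
  push Not at hcon
  have h1 : ∀ i, ∃ κ : ℂ, trm a e γ P i = C κ * trm a e γ P 0 := by
    intro i
    obtain ⟨κ, hκ⟩ := hcon i 0
    refine ⟨κ, ?_⟩
    apply expand_injective hn
    rw [hκ, map_mul, expand_C]
  choose κ hκ using h1
  obtain ⟨δ, R₁, R₂, h₁, h₂, hne, heq⟩ := h.bir
  have hT : trm a e γ P = fun i => C (κ i) * trm a e γ P 0 := funext hκ
  have e1 := aeval_prop κ (trm a e γ P 0) δ R₁ h₁
  have e2 := aeval_prop κ (trm a e γ P 0) δ R₂ h₂
  rw [← hT] at e1 e2
  rw [e2] at hne heq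
  rw [e1] at heq
  have ht : trm a e γ P 0 ^ δ ≠ 0 := pow_ne_zero _ (trm_ne h 0)
  have hc : C (MvPolynomial.eval κ R₁) = X * C (MvPolynomial.eval κ R₂) := by
    apply mul_right_cancel₀ ht
    rw [heq]
    ring
  have h3 := congrArg (fun p : ℂ[X] => p.coeff 1) hc
  simp only [coeff_C_succ, coeff_X_mul, coeff_C_zero] at h3
  apply hne
  rw [← h3]
  simp

end Pool.Agent.BP
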