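import Pool.Agent.Lib.MP_410da7_agBP.SpecA

/-!
# Four lines: the terms have no common zero on the projective line
-/

set_option autoImplicit false

namespace Pool.Agent.BP.NzM

open Polynomial

noncomputable section

theorem trm_natDegree {a e c d : Fin 4 → ℕ} {m : ℕ} {γ : Fin 4 → ℂ} {P : Fin 4 → ℂ[X]}
    (h : Football a e c d m γ P) (i : Fin 4) :
    trm a e γ P i ≠ 0 ∧ (trm a e γ P i).natDegree = e i + a i * d i := by
  have hP : P i ≠ 0 := by
    intro h0
    apply h.const i
    rw [h0]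
    simp
  have hC : (C (γ i) : ℂ[X]) ≠ 0 := C_ne_zero.2 (h.gam i)
  have hX : (X : ℂ[X]) ^ e i ≠ 0 := pow_ne_zero _ X_ne_zero
  have hPa : P i ^ a i ≠ 0 := pow_ne_zero _ hP
  refine ⟨mul_ne_zero (mul_ne_zero hC hX) hPa, ?_⟩
  unfold trm
  rw [natDegree_mul (mul_ne_zero hC hX) hPa, natDegree_mul hC hX, natDegree_C,
    natDegree_X_pow, natDegree_pow, h.deg i, zero_add]

theorem hom_zero {k L : Type} [Field k] [Field L] [Algebra k L] (m : ℕ) (f : k[X]) (p : L) :
    hom m f p 0 = algebraMap k L (f.coeff m) * p ^ m := by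
  unfold hom
  rw [Finset.sum_range_succ, Nat.sub_self, pow_zero, mul_one, add_eq_right]
  apply Finset.sum_eq_zero
  intro j hj
  have hj' := Finset.mem_range.1 hj
  rw [zero_pow (by omega), mul_zero]

end

end Pool.Agent.BP.NzM

namespace Pool.Agent.BP

open Polynomial NzM

theorem stmtNz : StmtHom → StmtNz := by
  intro hHom a e c d m γ P h L _ _ p q hpq
  obtain ⟨-, h2, h3, -, -⟩ := hHom
  by_cases hq : q = 0
  · obtain ⟨i, hi⟩ := h.top
    refine ⟨i, ?_⟩
    have hp : p ≠ 0 := by
      rcases hpq with hp | hp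
      · exact hp
      · exact absurd hq hp
    rw [hq, hom_zero]
    refine mul_ne_zero ?_ (pow_ne_zero _ hp)
    have hs := h.sum i
    rw [hi, add_zero] at hs
    obtain ⟨hne, hdeg⟩ := trm_natDegree h i
    rw [← hs, ← hdeg]
    have hlc : (trm a e γ P i).coeff (trm a e γ P i).natDegree ≠ 0 := leadingCoeff_ne_zero.2 hne
    intro h0
    exact hlc ((map_eq_zero _).1 h0)
  · by_contra hcon
    push Not at hcon
    have hz : ∀ i, aeval (p / q) (trm a e γ P i) = 0 := by
      intro i
      obtain ⟨hne, hdeg⟩ := trm_natDegree h i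
      have hle : (trm a e γ P i).natDegree ≤ m := by
        rw [hdeg, ← h.sum i]
        omega
      have e1 := h3 ℂ L m (trm a e γ P i) q (p / q) 1
      rw [mul_div_cancel₀ p hq, mul_one, hcon i, h2 ℂ L m _ hle (p / q)] at e1
      rcases mul_eq_zero.1 e1.symm with h0 | h0
      · exact absurd h0 (pow_ne_zero _ hq)
      · exact h0
    have hsub : Ideal.span (Set.range (trm a e γ P)) ≤
        RingHom.ker (aeval (p / q) : ℂ[X] →ₐ[ℂ] L) := by
      rw [Ideal.span_le]
      rintro _ ⟨i, rfl⟩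
      exact hz i
    rw [h.cop] at hsub
    have h1 : (1 : ℂ[X]) ∈ RingHom.ker (aeval (p / q) : ℂ[X] →ₐ[ℂ] L) := hsub trivial
    rw [RingHom.mem_ker, map_one] at h1
    exact one_ne_zero h1

end Pool.Agent.BP
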