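import Pool.Agent.Lib.MP_410da7_agBP.SpecA

set_option autoImplicit false

/-! The special curve of a football identity. -/

namespace Pool.Agent.BP.ParM

open Polynomial

/-- Polynomials over an algebraically closed field without a common root generate the unit ideal. -/
private theorem unit_of_no_root {L : Type} [Field L] [IsAlgClosed L] (s : Fin 4 → L[X])
    (h : ∀ r : L, ∃ i, (s i).eval r ≠ 0) : Ideal.span (Set.range s) = ⊤ := by
  set J : Ideal L[X] := Ideal.span (Set.range s) with hJ
  set g := Submodule.IsPrincipal.generator J with hg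
  have hgd : ∀ i, g ∣ s i := fun i =>
    (Submodule.IsPrincipal.mem_iff_generator_dvd J).mp (Ideal.subset_span ⟨i, rfl⟩)
  by_cases hu : IsUnit g
  · have : Ideal.span {g} = J := Ideal.span_singleton_generator J
    rw [← this]
    exact Ideal.span_singleton_eq_top.mpr hu
  · exfalso
    by_cases h0 : g = 0
    · obtain ⟨i, hi⟩ := h 0
      apply hi
      have := hgd i
      rw [h0, zero_dvd_iff] at this
      rw [this, eval_zero]
    · have hdeg : g.degree ≠ 0 := by
        intro hd
        exact hu (isUnit_iff_degree_eq_zero.mpr hd)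
      obtain ⟨r, hr⟩ := IsAlgClosed.exists_root g hdeg
      obtain ⟨i, hi⟩ := h r
      apply hi
      obtain ⟨q, hq⟩ := hgd i
      rw [hq, eval_mul, hr.eq_zero, zero_mul]

private theorem ordn_dvd (a e : Fin 4 → ℕ) (i : Fin 4) : a i / Nat.gcd (a i) (e i) ∣ ordn a e := by
  unfold ordn
  fin_cases i
  · exact (Nat.dvd_lcm_left _ _).trans (Nat.dvd_lcm_left _ _)
  · exact (Nat.dvd_lcm_right _ _).trans (Nat.dvd_lcm_left _ _)
  · exact (Nat.dvd_lcm_left _ _).trans (Nat.dvd_lcm_right _ _)
  · exact (Nat.dvd_lcm_right _ _).trans (Nat.dvd_lcm_right _ _)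

private theorem ordn_pos (a e : Fin 4 → ℕ) (h : ∀ i, 0 < a i) : 0 < ordn a e := by
  have h1 : ∀ i, 0 < a i / Nat.gcd (a i) (e i) := fun i =>
    Nat.div_pos (Nat.gcd_le_left _ (h i)) (Nat.gcd_pos_of_pos_left _ (h i))
  unfold ordn
  exact Nat.lcm_pos (Nat.lcm_pos (h1 0) (h1 1)) (Nat.lcm_pos (h1 2) (h1 3))

private theorem dvd_ordn_mul (a e : Fin 4 → ℕ) (i : Fin 4) : a i ∣ ordn a e * e i := by
  have h1 := ordn_dvd a e i
  have h2 : a i = a i / Nat.gcd (a i) (e i) * Nat.gcd (a i) (e i) :=
    (Nat.div_mul_cancel (Nat.gcd_dvd_left _ _)).symm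
  calc a i = a i / Nat.gcd (a i) (e i) * Nat.gcd (a i) (e i) := h2
    _ ∣ ordn a e * e i := Nat.mul_dvd_mul h1 (Nat.gcd_dvd_right _ _)

private theorem crv_eq (D : Fin 4 → ℕ) (f : Fin 4 → ℂ[X]) (hf : ∀ i, (f i).natDegree ≤ D i)
    (i : Fin 4) : crv D (fun q => (f q.1).coeff q.2) i = f i := by
  unfold crv
  rw [Fin.sum_univ_eq_sum_range (fun j => C ((f i).coeff j) * X ^ j) (D i + 1)]
  exact (as_sum_range_C_mul_X_pow' (f i) (Nat.lt_succ_of_le (hf i))).symm

end Pool.Agent.BP.ParM

namespace Pool.Agent.BP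

open Polynomial ParM

theorem stmtPar : StmtPar := by
  intro a e c d m γ P hF
  have ha : ∀ i, 0 < a i := fun i => lt_of_lt_of_le (by norm_num) (hF.two i)
  set n := ordn a e with hn
  have hn0 : 0 < n := ordn_pos a e ha
  choose γ' hγ' using fun i => IsAlgClosed.exists_pow_nat_eq (γ i) (ha i)
  choose k hk using fun i => dvd_ordn_mul a e i
  have hγ0 : ∀ i, γ' i ≠ 0 := by
    intro i h0
    have := hγ' i
    rw [h0, zero_pow (ha i).ne'] at this
    exact hF.gam i this.symm
  have hP0 : ∀ i, P i ≠ 0 := by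
    intro i h0
    apply hF.const i
    rw [h0, coeff_zero]
  set f : Fin 4 → ℂ[X] := fun i => C (γ' i) * X ^ k i * expand ℂ n (P i) with hf
  have hfp : ∀ i, f i ^ a i = expand ℂ n (trm a e γ P i) := by
    intro i
    simp only [hf, trm]
    rw [mul_pow, mul_pow, ← C_pow, hγ' i, ← pow_mul, map_mul, map_mul, map_pow, map_pow, expand_C,
      expand_X, ← pow_mul]
    congr 3
    rw [hn, hk i, mul_comm]
  have hdeg : ∀ i, (f i).natDegree = k i + d i * n := by
    intro i
    have h1 : C (γ' i) * X ^ k i ≠ (0 : ℂ[X]) :=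
      mul_ne_zero (C_ne_zero.mpr (hγ0 i)) (pow_ne_zero _ X_ne_zero)
    have h2 : expand ℂ n (P i) ≠ 0 := (expand_ne_zero hn0).mpr (hP0 i)
    simp only [hf]
    rw [natDegree_mul h1 h2, natDegree_C_mul_X_pow _ _ (hγ0 i), natDegree_expand, hF.deg i]
  have hmul : ∀ i, a i * (k i + d i * n) + c i * n = m * n := by
    intro i
    rw [← hF.sum i]
    have h1 : n * e i = a i * k i := hk i
    calc a i * (k i + d i * n) + c i * n = a i * k i + (a i * d i + c i) * n := by ring
      _ = n * e i + (a i * d i + c i) * n := by rw [h1]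
      _ = (e i + c i + a i * d i) * n := by ring
  have hD : ∀ i, (f i).natDegree ≤ m * n / a i := by
    intro i
    rw [hdeg i, Nat.le_div_iff_mul_le (ha i), ← hmul i, mul_comm]
    exact Nat.le_add_right _ _
  have hcrv := crv_eq (fun i => m * n / a i) f hD
  refine ⟨fun q => (f q.1).coeff q.2, fun i => ?_, ?_, ?_⟩
  · rw [hcrv i]
    exact hfp i
  · obtain ⟨i, hi⟩ := hF.top
    have h1 : m * n / a i = k i + d i * n := by
      rw [← hmul i, hi, zero_mul, add_zero, Nat.mul_div_cancel_left _ (ha i)]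
    refine ⟨i, ?_, ?_⟩
    · change (f i).coeff (m * n / a i) ≠ 0
      rw [h1, ← hdeg i]
      have hfi : f i ≠ 0 := by
        simp only [hf]
        exact mul_ne_zero (mul_ne_zero (C_ne_zero.mpr (hγ0 i)) (pow_ne_zero _ X_ne_zero))
          ((expand_ne_zero hn0).mpr (hP0 i))
      exact leadingCoeff_ne_zero.mpr hfi
    · rw [h1]
      rcases Nat.eq_zero_or_pos (k i + d i * n) with h2 | h2
      · exfalso
        have h3 := hmul i
        rw [h2, hi] at h3
        have h4 : 0 < m * n := Nat.mul_pos hF.pos hn0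
        omega
      · exact h2
  · have h1 : crv (fun i => m * n / a i) (fun q => (f q.1).coeff q.2) = f := funext hcrv
    rw [h1]
    refine unit_of_no_root f fun r => ?_
    by_contra hcon
    have h2 : ∀ i, (f i).eval r = 0 := fun i => by
      by_contra h
      exact hcon ⟨i, h⟩
    have h3 : ∀ i, (trm a e γ P i).eval (r ^ n) = 0 := by
      intro i
      rw [← expand_eval, ← hfp i, eval_pow, h2 i, zero_pow (ha i).ne']
    have h4 : (1 : ℂ[X]) ∈ Ideal.span (Set.range (trm a e γ P)) := by
      rw [hF.cop]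
      trivial
    obtain ⟨w, hw⟩ := Ideal.mem_span_range_iff_exists_fun.mp h4
    have h5 := congrArg (eval (r ^ n)) hw
    rw [eval_finset_sum, eval_one] at h5
    simp only [eval_mul, h3, mul_zero, Finset.sum_const_zero] at h5
    exact zero_ne_one h5

end Pool.Agent.BP
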