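import Pool.Agent.Lib.MP_410da7_agBP.SpecC

/-!
# Four lines: permutation of the coordinates
-/

set_option autoImplicit false

namespace Pool.Agent.BP

open MvPolynomial Pool.Agent.PC Pool.Agent.Lib.MP_410da7_ag

namespace PrmM

theorem rename_bp (a : Fin 4 → ℕ) (σ : Equiv.Perm (Fin 4)) :
    rename σ (bpPoly (a ∘ σ)) = bpPoly a := by
  rw [bpPoly, bpPoly, map_sum]
  simp only [map_pow, rename_X, Function.comp_apply]
  exact Equiv.sum_comp σ (fun i => (X i : MvPolynomial (Fin 4) ℂ) ^ a i)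

theorem rename_symm (σ : Equiv.Perm (Fin 4)) (P : MvPolynomial (Fin 4) ℂ) :
    rename σ (rename σ.symm P) = P := by
  rw [rename_rename]
  simp

theorem symm_rename (σ : Equiv.Perm (Fin 4)) (P : MvPolynomial (Fin 4) ℂ) :
    rename σ.symm (rename σ P) = P := by
  rw [rename_rename]
  simp

theorem charts_comp {K : Type} [Field K] [Algebra ℂ K] (x : Fin 4 → K) (σ : Equiv.Perm (Fin 4))
    (i : Fin 4) : charts (x ∘ σ) i = charts x (σ i) := by
  unfold charts
  rw [EquivLike.range_comp]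
  rfl

end PrmM

theorem stmtPrm : StmtPrm := by
  intro a σ K _ _ x hx
  have hae : ∀ P : MvPolynomial (Fin 4) ℂ, aeval (x ∘ σ) P = aeval x (rename σ P) := fun P =>
    (aeval_rename _ _ _).symm
  refine ⟨⟨?_, ?_, ?_⟩, ?_⟩
  · intro k
    rw [hae, PrmM.rename_bp]
    exact hx.zero 0
  · intro P hP
    rw [hae] at hP
    have h1 := hx.ker _ hP
    rw [Set.range_const, Ideal.mem_span_singleton'] at h1
    rw [Set.range_const, Ideal.mem_span_singleton']
    obtain ⟨c, hc⟩ := h1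
    refine ⟨rename σ.symm c, ?_⟩
    have h2 := congrArg (rename σ.symm) hc
    rw [map_mul, PrmM.symm_rename, ← PrmM.rename_bp a σ, PrmM.symm_rename] at h2
    exact h2
  · intro b
    obtain ⟨P, Q, hQ, h⟩ := hx.gen b
    refine ⟨rename σ.symm P, rename σ.symm Q, ?_, ?_⟩
    · rw [hae, PrmM.rename_symm]
      exact hQ
    · rw [hae, hae, PrmM.rename_symm, PrmM.rename_symm]
      exact h
  · rintro ⟨B, i1, i2, i3, h1, h2, φ, h3, h4⟩
    refine ⟨B, i1, i2, i3, h1, h2, φ, ?_, h4⟩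
    intro P hP
    obtain ⟨i, hi⟩ := h3 P hP
    rw [PrmM.charts_comp] at hi
    exact ⟨σ i, hi⟩

end Pool.Agent.BP
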