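import Pool.Agent.Lib.MP_410da7_agBP.SpecA

/-!
# Four lines: polynomials with divisible root multiplicities
-/

set_option autoImplicit false

namespace Pool.Agent.BP.PwM

open Polynomial

theorem pw_main (L : Type) [Field L] [IsAlgClosed L] (A : L[X]) (n : ℕ) (hn : 0 < n)
    (h : ∀ r, n ∣ A.rootMultiplicity r) : ∃ h : L[X], A = h ^ n := by
  classical
  obtain ⟨z, hz⟩ := IsAlgClosed.exists_pow_nat_eq A.leadingCoeff hn
  have hs : (A.roots.map fun a => X - C a).prod =
      (∏ r ∈ A.roots.toFinset, (X - C r) ^ (A.rootMultiplicity r / n)) ^ n := by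
    rw [prod_multiset_root_eq_finset_root, ← Finset.prod_pow]
    refine Finset.prod_congr rfl fun r _ => ?_
    rw [← pow_mul, Nat.div_mul_cancel (h r)]
  refine ⟨C z * ∏ r ∈ A.roots.toFinset, (X - C r) ^ (A.rootMultiplicity r / n), ?_⟩
  rw [mul_pow, ← hs, ← C_pow, hz]
  exact (IsAlgClosed.splits A).eq_prod_roots

end Pool.Agent.BP.PwM

namespace Pool.Agent.BP

theorem stmtPw : StmtPw := fun L _ _ A n hn _ h => PwM.pw_main L A n hn h

end Pool.Agent.BP
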