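import Pool.Agent.Lib.MP_410da7_agBP.SpecC

/-!
# Four lines: Brieskorn-Pham polynomials are quasi-smooth
-/

set_option autoImplicit false

namespace Pool.Agent.BP

open MvPolynomial Pool.Agent.PC

namespace QsM

theorem support_sub (a : Fin 4 → ℕ) (s : Fin 4 →₀ ℕ) (hs : s ∈ (bpPoly a).support) :
    ∃ i, s = Finsupp.single i (a i) := by
  classical
  rw [bpPoly] at hs
  have h1 := MvPolynomial.support_sum hs
  rw [Finset.mem_biUnion] at h1
  obtain ⟨i, -, hi⟩ := h1
  rw [MvPolynomial.support_X_pow, Finset.mem_singleton] at hi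
  exact ⟨i, hi⟩

theorem pderiv_bp (a : Fin 4 → ℕ) (u : Fin 4 → ℂ) (l : Fin 4) :
    eval u (pderiv l (bpPoly a)) = a l * u l ^ (a l - 1) := by
  classical
  rw [bpPoly, map_sum, map_sum, Finset.sum_eq_single l]
  · simp
  · intro j _ hj
    rw [Derivation.leibniz_pow, pderiv_X_of_ne hj]
    simp
  · simp

end QsM

theorem stmtQs : StmtQs := by
  classical
  intro a ha
  have hpos : ∀ i, 0 < a i := fun i => by have := ha i; omega
  set L : ℕ := Finset.univ.lcm a with hL
  have hdvd : ∀ i, a i ∣ L := fun i => Finset.dvd_lcm (Finset.mem_univ i)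
  have hL0 : 0 < L := by
    rw [Nat.pos_iff_ne_zero, hL, Ne, Finset.lcm_eq_zero_iff]
    simp only [not_exists, not_and]
    intro i _ h
    exact (hpos i).ne' h
  have hw : ∀ i, 0 < L / a i := fun i => Nat.div_pos (Nat.le_of_dvd hL0 (hdvd i)) (hpos i)
  refine ⟨by norm_num, hw, ?_, ?_, ?_, ?_⟩
  · set g := Finset.univ.gcd (fun i => L / a i) with hg
    have hg1 : ∀ i, g ∣ L / a i := fun i => Finset.gcd_dvd (Finset.mem_univ i)
    have hgL : g ∣ L := (hg1 0).trans (Nat.div_dvd_of_dvd (hdvd 0))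
    have hg0 : 0 < g := Nat.pos_of_dvd_of_pos hgL hL0
    have h1 : L ∣ L / g := by
      rw [hL]
      refine Finset.lcm_dvd fun i _ => ?_
      rw [← hL]
      obtain ⟨c, hc⟩ := hg1 i
      have h2 : L = a i * c * g := by
        rw [← Nat.div_mul_cancel (hdvd i), hc]; ring
      rw [h2, Nat.mul_div_cancel _ hg0]
      exact dvd_mul_right _ _
    have h2 : L ≤ L / g := Nat.le_of_dvd (Nat.div_pos (Nat.le_of_dvd hL0 hgL) hg0) h1
    by_contra hne
    have h3 : 2 ≤ g := by omega
    have h4 : L / g < L := Nat.div_lt_self hL0 h3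
    omega
  · intro k
    rw [MvPolynomial.IsWeightedHomogeneous]
    intro s hs
    obtain ⟨i, rfl⟩ := QsM.support_sub a s (MvPolynomial.mem_support_iff.mpr hs)
    rw [Finsupp.weight_single, smul_eq_mul]
    exact Nat.mul_div_cancel' (hdvd i)
  · intro k s hs
    obtain ⟨i, rfl⟩ := QsM.support_sub a s hs
    rw [Finsupp.degree_single]
    exact ha i
  · intro u hu _
    rw [linearIndependent_unique_iff]
    intro h
    apply hu
    funext l
    have h1 := congrFun h l
    simp only [QsM.pderiv_bp, Pi.zero_apply, mul_eq_zero, Nat.cast_eq_zero] at h1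
    rcases h1 with h1 | h1
    · exact absurd h1 (hpos l).ne'
    · exact eq_zero_of_pow_eq_zero h1

end Pool.Agent.BP
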