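import Pool.Agent.Lib.MP_410da7_agBP.SpecA

/-!
# Four lines, REL: the parameter of the generic curve (helper23)
-/

set_option autoImplicit false

namespace Pool.Agent.BP

open Polynomial

noncomputable section

namespace RelM

private theorem gcd_split {F : Type} [Field F] (A' B' : F[X]) (hA : A' ≠ 0) (hB : B' ≠ 0) :
    ∃ g A B : F[X], A' = g * A ∧ B' = g * B ∧ IsCoprime A B ∧ A ≠ 0 ∧ B ≠ 0 ∧ g ≠ 0 := by
  classical
  let _ : GCDMonoid F[X] := EuclideanDomain.gcdMonoid F[X]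
  have hg : GCDMonoid.gcd A' B' ≠ 0 := gcd_ne_zero_of_right hB
  have e1 : A' = GCDMonoid.gcd A' B' * (A' / GCDMonoid.gcd A' B') :=
    (EuclideanDomain.mul_div_cancel' hg (gcd_dvd_left _ _)).symm
  have e2 : B' = GCDMonoid.gcd A' B' * (B' / GCDMonoid.gcd A' B') :=
    (EuclideanDomain.mul_div_cancel' hg (gcd_dvd_right _ _)).symm
  refine ⟨_, _, _, e1, e2, isCoprime_div_gcd_div_gcd hB, fun h => ?_, fun h => ?_, hg⟩
  · rw [h, mul_zero] at e1
    exact hA e1
  · rw [h, mul_zero] at e2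
    exact hB e2

private theorem hom_hg {m δ : ℕ} (f : ℂ[X]) {R₁ R₂ : MvPolynomial (Fin 4) ℂ}
    (h1 : R₁.IsHomogeneous δ) (h2 : R₂.IsHomogeneous δ) :
    (hom m f R₁ R₂ : MvPolynomial (Fin 4) ℂ).IsHomogeneous (δ * m) := by
  unfold hom
  refine MvPolynomial.IsHomogeneous.sum _ _ _ fun j hj => ?_
  have hj' : j ≤ m := Nat.lt_succ_iff.1 (Finset.mem_range.1 hj)
  have e : δ * m = 0 + δ * j + δ * (m - j) := by
    rw [zero_add, ← Nat.mul_add, Nat.add_sub_cancel' hj']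
  rw [e]
  exact ((MvPolynomial.isHomogeneous_C (Fin 4) (f.coeff j)).mul (h1.pow j)).mul (h2.pow (m - j))

private theorem hom_xp {a e c d : Fin 4 → ℕ} {m : ℕ} {γ : Fin 4 → ℂ} {P : Fin 4 → ℂ[X]}
    (h : Football a e c d m γ P) (i : Fin 4) : (trm a e γ P i).natDegree ≤ m := by
  unfold trm
  refine natDegree_mul_le.trans ?_
  have h1 := natDegree_C_mul_X_pow_le (γ i) (e i)
  have h2 := natDegree_pow_le (n := a i) (p := P i)
  rw [h.deg i] at h2
  have h3 := h.sum i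
  omega

end RelM

open RelM in
/-- **REL** -/
theorem stmtRel : StmtHom → StmtRel := by
  rintro ⟨H1, H2, H3, -, -⟩ a e c d m γ P hFb n hn F _ _ y hnz htr
  obtain ⟨δ, R₁, R₂, g1, g2, hR2, hR⟩ := hFb.bir
  have hexp : ∀ R : MvPolynomial (Fin 4) ℂ, MvPolynomial.aeval (fun i => expand ℂ n (trm a e γ P i)) R =
      expand ℂ n (MvPolynomial.aeval (trm a e γ P) R) := fun R =>
    (MvPolynomial.comp_aeval_apply (trm a e γ P) (expand ℂ n) R).symm
  have hA : MvPolynomial.aeval y R₁ ≠ 0 := by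
    intro h
    have h1 := hnz R₁ h
    rw [hexp, expand_eq_zero hn, hR] at h1
    exact (mul_ne_zero X_ne_zero hR2) h1
  have hB : MvPolynomial.aeval y R₂ ≠ 0 := by
    intro h
    have h1 := hnz R₂ h
    rw [hexp, expand_eq_zero hn] at h1
    exact hR2 h1
  obtain ⟨g, A, B, eA, eB, hco, hA0, hB0, hg⟩ := gcd_split _ _ hA hB
  refine ⟨A, B, hco, hA0, hB0, fun i j => ?_⟩
  -- the homogeneous relation
  have hT : ∀ j, MvPolynomial.aeval (fun i => expand ℂ n (trm a e γ P i))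
      (hom m (trm a e γ P j) R₁ R₂ : MvPolynomial (Fin 4) ℂ) =
      (expand ℂ n (MvPolynomial.aeval (trm a e γ P) R₂)) ^ m * expand ℂ n (trm a e γ P j) := by
    intro j
    rw [H1 ℂ _ _ (MvPolynomial.aeval (fun i => expand ℂ n (trm a e γ P i))) m (trm a e γ P j) R₁ R₂,
      hexp, hexp, hR, map_mul, mul_comm (expand ℂ n X)]
    have h5 := H3 ℂ ℂ[X] m (trm a e γ P j) (expand ℂ n (MvPolynomial.aeval (trm a e γ P) R₂))
      (expand ℂ n X) 1
    rw [mul_one] at h5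
    rw [h5, H2 ℂ ℂ[X] m (trm a e γ P j) (hom_xp hFb j), expand_X]
    rfl
  have hrel : MvPolynomial.aeval y (MvPolynomial.X i * hom m (trm a e γ P j) R₁ R₂ -
      MvPolynomial.X j * hom m (trm a e γ P i) R₁ R₂ : MvPolynomial (Fin 4) ℂ) = 0 := by
    refine htr (1 + δ * m) _ ?_ ?_
    · exact ((MvPolynomial.isHomogeneous_X ℂ i).mul (hom_hg _ g1 g2)).sub
        ((MvPolynomial.isHomogeneous_X ℂ j).mul (hom_hg _ g1 g2))
    · rw [map_sub, map_mul, map_mul, hT, hT, MvPolynomial.aeval_X, MvPolynomial.aeval_X]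
      ring
  rw [map_sub, map_mul, map_mul, MvPolynomial.aeval_X, MvPolynomial.aeval_X,
    H1 ℂ _ _ (MvPolynomial.aeval y) m (trm a e γ P j) R₁ R₂,
    H1 ℂ _ _ (MvPolynomial.aeval y) m (trm a e γ P i) R₁ R₂, eA, eB, H3, H3] at hrel
  have h6 : g ^ m * (y i * hom m (trm a e γ P j) A B - y j * hom m (trm a e γ P i) A B) = 0 := by
    rw [← hrel]
    ring
  exact sub_eq_zero.1 ((mul_eq_zero.1 h6).resolve_left (pow_ne_zero m hg))

end

end Pool.Agent.BP
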