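import Pool.Agent.Lib.MP_410da7_agBP.SpecA

/-!
# Four lines: module STR
-/

set_option autoImplicit false

namespace Pool.Agent.BP

open Polynomial

namespace StrM

theorem div_gcd_pos {x y : ℕ} (hx : 0 < x) : 0 < x / Nat.gcd x y :=
  Nat.div_pos (Nat.le_of_dvd hx (Nat.gcd_dvd_left x y)) (Nat.gcd_pos_of_pos_left y hx)

theorem ordn_pos {a e : Fin 4 → ℕ} (ha : ∀ i, 0 < a i) : 0 < ordn a e :=
  Nat.lcm_pos (Nat.lcm_pos (div_gcd_pos (ha 0)) (div_gcd_pos (ha 1)))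
    (Nat.lcm_pos (div_gcd_pos (ha 2)) (div_gcd_pos (ha 3)))

theorem mult_C {L : Type} [Field L] {μ : L} (hμ : μ ≠ 0) (A : L[X]) (r : L) :
    (C μ * A).rootMultiplicity r = A.rootMultiplicity r := by
  classical
  rw [← count_roots, ← count_roots, roots_C_mul _ hμ]

end StrM

open StrM in
theorem stmtStr (hHom : StmtHom) (hKap : StmtKap) (hMul : StmtMul) (hDg : StmtDg) (hPw : StmtPw) :
    StmtStr := by
  intro a e c d m γ P hF L _ _ _ x A B hAB hA hB hx hdeg hrel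
  obtain ⟨κ, hκ, h1⟩ := hKap a e c d m γ P hF L x A B hAB hx hrel
  obtain ⟨h2, h3⟩ := hMul a e c d m γ P hF L x A B κ hκ hAB hA hB h1
  obtain ⟨μ, hμ⟩ := IsAlgClosed.exists_pow_nat_eq κ hF.pos
  have ha : ∀ i, 0 < a i := fun i => lt_of_lt_of_le (by norm_num) (hF.two i)
  have hn0 : 0 < ordn a e := ordn_pos ha
  have hn1 : 0 < ordn a c := ordn_pos ha
  have hμ0 : μ ≠ 0 := by
    rintro rfl
    rw [zero_pow hF.pos.ne'] at hμ
    exact hκ hμ.symm
  have hCμ : (C μ : L[X]) ≠ 0 := C_ne_zero.2 hμ0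
  have h4 : ∀ i, x i ^ a i = hom m (trm a e γ P i) (C μ * A) (C μ * B) := by
    intro i
    rw [hHom.2.2.1, ← C_pow, hμ]
    exact h1 i
  obtain ⟨h, hh⟩ := hPw L (C μ * A) (ordn a e) hn0 (mul_ne_zero hCμ hA) (fun r => by
    rw [mult_C hμ0]
    exact h2 r)
  obtain ⟨h', hh'⟩ := hPw L (C μ * B) (ordn a c) hn1 (mul_ne_zero hCμ hB) (fun r => by
    rw [mult_C hμ0]
    exact h3 r)
  obtain ⟨h5, h6⟩ := hDg a e c d m γ P hF L (C μ * A) (C μ * B) (mul_ne_zero hCμ hA) (mul_ne_zero hCμ hB)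
    (ordn a e) (fun i => by
      rw [← h4 i]
      refine natDegree_pow_le.trans ?_
      exact (Nat.mul_le_mul_left _ (hdeg i)).trans (Nat.mul_div_le _ _))
  rw [hh, natDegree_pow] at h5
  rw [hh', natDegree_pow] at h6
  refine ⟨h, h', ?_, ?_, fun i => ?_⟩
  · by_contra hcon
    rw [not_le] at hcon
    have := Nat.mul_le_mul_left (ordn a e) hcon
    omega
  · rw [Nat.le_div_iff_mul_le hn1, mul_comm]
    exact h6
  · rw [← hh, ← hh']
    exact h4 i

end Pool.Agent.BP
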