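import Pool.Agent.Lib.MP_410da7_agBP.SpecA

/-!
# Four lines, TRD: the dimension of the family of curves with the same image (helper23)
-/

set_option autoImplicit false

namespace Pool.Agent.BP

open Polynomial

noncomputable section

namespace TrdM

/-- a field generated by a finite family has transcendence degree at most the number of its elements -/
private theorem trdeg_adjoin {L ι : Type} [Field L] [Algebra ℂ L] (g : ι → L) :
    Algebra.trdeg ℂ (IntermediateField.adjoin ℂ (Set.range g)) ≤ Cardinal.mk ι := by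
  set g' : ι → IntermediateField.adjoin ℂ (Set.range g) := fun j =>
    ⟨g j, IntermediateField.subset_adjoin ℂ _ ⟨j, rfl⟩⟩ with hg'
  have halg : Algebra.IsAlgebraic (Algebra.adjoin ℂ (Set.range g'))
      (IntermediateField.adjoin ℂ (Set.range g)) := by
    refine ⟨fun y => ?_⟩
    obtain ⟨x, hx⟩ := y
    refine IntermediateField.adjoin_induction ℂ (s := Set.range g)
      (p := fun x hx => IsAlgebraic (Algebra.adjoin ℂ (Set.range g'))
        (⟨x, hx⟩ : IntermediateField.adjoin ℂ (Set.range g))) ?_ ?_ ?_ ?_ ?_ hx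
    · rintro _ ⟨j, rfl⟩
      exact isAlgebraic_algebraMap (⟨g' j, Algebra.subset_adjoin ⟨j, rfl⟩⟩ :
        Algebra.adjoin ℂ (Set.range g'))
    · intro c
      exact isAlgebraic_algebraMap (algebraMap ℂ (Algebra.adjoin ℂ (Set.range g')) c)
    · intro x y hx hy h1 h2
      exact h1.add h2
    · intro x hx h1
      exact h1.inv
    · intro x y hx hy h1 h2
      exact h1.mul h2
  exact (Algebra.IsAlgebraic.trdeg_le_cardinalMk ℂ (Set.range g')).trans Cardinal.mk_range_le

private theorem crv_coeff {R : Type} [CommRing R] (D : Fin 4 → ℕ) (b : Ix D → R) (i : Fin 4)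
    (j : Fin (D i + 1)) : (crv D b i).coeff j = b ⟨i, j⟩ := by
  unfold crv
  rw [finsetSum_coeff, Finset.sum_eq_single j]
  · rw [coeff_C_mul_X_pow, if_pos rfl]
  · intro l _ hl
    rw [coeff_C_mul_X_pow, if_neg fun h => hl (Fin.ext h.symm)]
  · intro h
    exact absurd (Finset.mem_univ j) h

end TrdM

open TrdM in
/-- **TRD** -/
theorem stmtTrd : StmtPw → StmtAlg → StmtHom → StmtTrd := by
  rintro hPw hAlg0 ⟨H1, -, -, -, -⟩ D F _ _ b hb L _ _ _ _ _ a ha T m n n' r s h h' hr hs heq
  have hAlg := hAlg0 hPw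
  set g : Fin (r + 1) ⊕ Fin (s + 1) → L := Sum.elim (fun j => h.coeff j) (fun j => h'.coeff j) with hg
  let k₀ : IntermediateField ℂ L := IntermediateField.adjoin ℂ (Set.range g)
  let k : IntermediateField k₀ L := algebraicClosure k₀ L
  have hk : IsAlgClosed k := IsAlgClosure.isAlgClosed k₀
  have hkL : IsScalarTower ℂ k L := IsScalarTower.of_algebraMap_eq fun c => rfl
  have hgk : ∀ j, g j ∈ Set.range (algebraMap k L) := by
    intro j
    have h1 : g j ∈ k₀ := IntermediateField.subset_adjoin ℂ _ ⟨j, rfl⟩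
    exact ⟨algebraMap k₀ k ⟨g j, h1⟩, rfl⟩
  have hlift : ∀ (p : L[X]) (t : ℕ), p.natDegree ≤ t → (∀ j : Fin (t + 1), p.coeff j ∈
      Set.range (algebraMap k L)) → ∃ z : k[X], z.map (algebraMap k L) = p := by
    intro p t hp hc
    have h1 : p ∈ lifts (algebraMap k L) := by
      rw [lifts_iff_coeff_lifts]
      intro l
      by_cases hl : l < t + 1
      · exact hc ⟨l, hl⟩
      · exact ⟨0, by rw [map_zero, coeff_eq_zero_of_natDegree_lt (by omega)]⟩
    exact (mem_lifts p).1 h1
  obtain ⟨z, hz⟩ := hlift h r hr fun j => hgk (Sum.inl j)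
  obtain ⟨z', hz'⟩ := hlift h' s hs fun j => hgk (Sum.inr j)
  have hcoe : ∀ i, ∃ x : k[X], (crv D b i).map (algebraMap F L) = x.map (algebraMap k L) := by
    intro i
    refine hAlg k L _ (a i) (ha i) ⟨hom m (T i) (z ^ n) (z' ^ n'), ?_⟩
    rw [heq i]
    have h1 := H1 ℂ k[X] L[X] (mapAlgHom (IsScalarTower.toAlgHom ℂ k L)) m (T i) (z ^ n) (z' ^ n')
    have h2 : ∀ x : k[X], mapAlgHom (IsScalarTower.toAlgHom ℂ k L) x = x.map (algebraMap k L) :=
      fun x => rfl
    rw [h2, h2, h2, Polynomial.map_pow, Polynomial.map_pow, hz, hz'] at h1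
    exact h1.symm
  have hbk : ∀ q, algebraMap F L (b q) ∈ Set.range (algebraMap k L) := by
    rintro ⟨i, j⟩
    obtain ⟨x, hx⟩ := hcoe i
    have h1 := congrArg (fun p : L[X] => p.coeff j) hx
    simp only [coeff_map, crv_coeff] at h1
    exact ⟨_, h1.symm⟩
  have hFk : ∀ f : F, algebraMap F L f ∈ k := by
    intro f
    have hf : f ∈ IntermediateField.adjoin ℂ (Set.range b) := by
      rw [hb]
      exact IntermediateField.mem_top
    refine IntermediateField.adjoin_induction ℂ (s := Set.range b)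
      (p := fun x _ => algebraMap F L x ∈ k) ?_ ?_ ?_ ?_ ?_ hf
    · rintro _ ⟨q, rfl⟩
      obtain ⟨y, hy⟩ := hbk q
      rw [← hy]
      exact y.2
    · intro c
      rw [← IsScalarTower.algebraMap_apply ℂ F L, IsScalarTower.algebraMap_apply ℂ k₀ L]
      exact k.algebraMap_mem _
    · intro x y _ _ h1 h2
      rw [map_add]
      exact k.add_mem h1 h2
    · intro x _ h1
      rw [map_inv₀]
      exact k.inv_mem h1
    · intro x y _ _ h1 h2
      rw [map_mul]
      exact k.mul_mem h1 h2
  let ψ : F →ₐ[ℂ] k :=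
    { toFun := fun f => ⟨algebraMap F L f, hFk f⟩
      map_one' := Subtype.ext (map_one _)
      map_mul' := fun x y => Subtype.ext (map_mul _ x y)
      map_zero' := Subtype.ext (map_zero _)
      map_add' := fun x y => Subtype.ext (map_add _ x y)
      commutes' := fun c => Subtype.ext (by
        show algebraMap F L (algebraMap ℂ F c) = algebraMap k L (algebraMap ℂ k c)
        rw [← IsScalarTower.algebraMap_apply ℂ F L, ← IsScalarTower.algebraMap_apply ℂ k L]) }
  have hψ : Function.Injective ψ := ψ.toRingHom.injective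
  refine (trdeg_le_of_injective ψ hψ).trans ?_
  have h1 : Algebra.trdeg ℂ k₀ + Algebra.trdeg k₀ k = Algebra.trdeg ℂ k := trdeg_add_eq ℂ k₀ (A := k)
  have h2 : Algebra.trdeg k₀ k = 0 := trdeg_eq_zero
  rw [← h1, h2, add_zero]
  refine (trdeg_adjoin g).trans ?_
  rw [Cardinal.mk_sum, Cardinal.mk_fin, Cardinal.mk_fin, Cardinal.lift_natCast, Cardinal.lift_natCast,
    ← Nat.cast_add]

end

end Pool.Agent.BP
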