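import Pool.Agent.Lib.MP_410da7_agBP.SpecA

/-! Package BP, module Two: two monomial-like elements are algebraically independent. The proof
compares the orders at a point `r` where `u ^ n` and `v ^ m` have different multiplicities. -/

set_option autoImplicit false

namespace Pool.Agent.BP

open Polynomial

namespace TwoM

theorem aux (u v u₁ v₁ : ℂ[X]) (m n α β : ℕ) (r : ℂ) (hn : 0 < n)
    (hu : u = (X - C r) ^ α * u₁) (hv : v = (X - C r) ^ β * v₁) (hu₁ : u₁.eval r ≠ 0)
    (hv₁ : v₁.eval r ≠ 0) (hne : n * α ≠ m * β) :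
    AlgebraicIndependent ℂ ![(C u * X ^ m : ℂ[X][X]), (C v * X ^ n : ℂ[X][X])] := by
  rw [algebraicIndependent_iff]
  intro F hF
  by_contra hF0
  obtain ⟨s, hs, hmin⟩ := Finset.exists_min_image F.support (fun d => α * d 0 + β * d 1)
    (MvPolynomial.support_nonempty.mpr hF0)
  -- the coefficient
  have hcoef : ∑ d ∈ F.support, C (F.coeff d) *
      (if m * d 0 + n * d 1 = m * s 0 + n * s 1 then u ^ d 0 * v ^ d 1 else 0) = 0 := by
    have h1 := congrArg (fun G : ℂ[X][X] => G.coeff (m * s 0 + n * s 1)) hF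
    rw [MvPolynomial.aeval_def, MvPolynomial.eval₂_eq'] at h1
    simp only [Polynomial.finsetSum_coeff, Polynomial.coeff_zero, Fin.prod_univ_two,
      Matrix.cons_val_zero, Matrix.cons_val_one, Matrix.cons_val_fin_one] at h1
    refine Eq.trans (Finset.sum_congr rfl fun d _ => ?_) h1
    have h2 : (algebraMap ℂ ℂ[X][X]) (F.coeff d) * ((C u * X ^ m) ^ d 0 * (C v * X ^ n) ^ d 1) =
        C (C (F.coeff d) * (u ^ d 0 * v ^ d 1)) * X ^ (m * d 0 + n * d 1) := by
      have h3 : (algebraMap ℂ ℂ[X][X]) (F.coeff d) = C (C (F.coeff d)) := rfl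
      rw [h3]
      simp only [map_mul, map_pow, mul_pow, ← pow_mul, pow_add]
      ring
    rw [h2, Polynomial.coeff_C_mul_X_pow]
    by_cases h4 : m * d 0 + n * d 1 = m * s 0 + n * s 1
    · rw [if_pos h4, if_pos h4.symm]
    · rw [if_neg h4, if_neg (fun h => h4 h.symm), mul_zero]
  have hmono : ∀ d : Fin 2 →₀ ℕ, u ^ d 0 * v ^ d 1 =
      (X - C r) ^ (α * d 0 + β * d 1) * (u₁ ^ d 0 * v₁ ^ d 1) := by
    intro d
    rw [hu, hv, mul_pow, mul_pow, ← pow_mul, ← pow_mul, pow_add]
    ring
  set k := α * s 0 + β * s 1 with hk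
  rw [← Finset.add_sum_erase _ _ hs, if_pos rfl] at hcoef
  have hdvd : (X - C r) ^ (k + 1) ∣ ∑ d ∈ F.support.erase s, C (F.coeff d) *
      (if m * d 0 + n * d 1 = m * s 0 + n * s 1 then u ^ d 0 * v ^ d 1 else 0) := by
    apply Finset.dvd_sum
    intro d hd
    apply Dvd.dvd.mul_left
    by_cases h4 : m * d 0 + n * d 1 = m * s 0 + n * s 1
    · rw [if_pos h4, hmono]
      apply Dvd.dvd.mul_right
      apply pow_dvd_pow
      have hd' := Finset.mem_erase.mp hd
      have h5 : k ≤ α * d 0 + β * d 1 := hmin d hd'.2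
      rcases Nat.lt_or_ge k (α * d 0 + β * d 1) with h6 | h6
      · exact h6
      · exfalso
        have h7 : α * d 0 + β * d 1 = α * s 0 + β * s 1 := le_antisymm h6 h5
        -- the two linear equations
        have e1 : (m : ℤ) * d 0 + n * d 1 = m * s 0 + n * s 1 := by exact_mod_cast h4
        have e2 : (α : ℤ) * d 0 + β * d 1 = α * s 0 + β * s 1 := by exact_mod_cast h7
        have e3 : ((n : ℤ) * α - m * β) * (d 0 - s 0) = 0 := by
          linear_combination (n : ℤ) * e2 - (β : ℤ) * e1
        have e4 : (n : ℤ) * α - m * β ≠ 0 := by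
          intro h
          apply hne
          have h8 : (n : ℤ) * α = m * β := by linarith
          exact_mod_cast h8
        have e5 : (d 0 : ℤ) = s 0 := by
          have := (mul_eq_zero.mp e3).resolve_left e4
          linarith
        have e6 : (d 1 : ℤ) = s 1 := by
          rw [e5] at e1
          have h9 : (n : ℤ) * (d 1 - s 1) = 0 := by linarith
          have h10 : (n : ℤ) ≠ 0 := by exact_mod_cast hn.ne'
          have := (mul_eq_zero.mp h9).resolve_left h10
          linarith
        apply hd'.1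
        ext i
        fin_cases i
        · exact_mod_cast e5
        · exact_mod_cast e6
    · rw [if_neg h4]
      exact dvd_zero _
  have hdvd2 : (X - C r) ^ (k + 1) ∣ C (F.coeff s) * (u ^ s 0 * v ^ s 1) := by
    rw [eq_neg_of_add_eq_zero_left hcoef]
    exact (dvd_neg).mpr hdvd
  rw [hmono, ← hk, ← mul_assoc, mul_comm (C (F.coeff s)), mul_assoc, pow_succ] at hdvd2
  have h11 := (mul_dvd_mul_iff_left (pow_ne_zero k (X_sub_C_ne_zero r))).mp hdvd2
  rw [Polynomial.dvd_iff_isRoot, Polynomial.IsRoot.def, Polynomial.eval_mul, Polynomial.eval_C,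
    Polynomial.eval_mul, Polynomial.eval_pow, Polynomial.eval_pow] at h11
  have h12 : F.coeff s ≠ 0 := MvPolynomial.mem_support_iff.mp hs
  exact (mul_ne_zero h12 (mul_ne_zero (pow_ne_zero _ hu₁) (pow_ne_zero _ hv₁))) h11

end TwoM

open TwoM in
theorem stmtTwo : StmtTwo := by
  intro u v m n hm hn hu hv huv
  -- a point with different multiplicities
  obtain ⟨r, hr⟩ : ∃ r : ℂ, n * u.rootMultiplicity r ≠ m * v.rootMultiplicity r := by
    by_contra hcon
    push Not at hcon
    have hroots : (u ^ n).roots = (v ^ m).roots := by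
      ext r
      rw [Polynomial.roots_pow, Polynomial.roots_pow, Multiset.count_nsmul, Multiset.count_nsmul,
        Polynomial.count_roots, Polynomial.count_roots]
      exact hcon r
    have hprod : ∀ p : ℂ[X], C p.leadingCoeff * (p.roots.map fun a => X - C a).prod = p := by
      intro p
      exact Polynomial.C_leadingCoeff_mul_prod_multiset_X_sub_C
        (IsAlgClosed.splits p).natDegree_eq_card_roots.symm
    apply huv ((u ^ n).leadingCoeff * ((v ^ m).leadingCoeff)⁻¹)
    have h1 := hprod (u ^ n)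
    have h2 := hprod (v ^ m)
    have h3 : (v ^ m).leadingCoeff ≠ 0 := leadingCoeff_ne_zero.mpr (pow_ne_zero m hv)
    rw [hroots] at h1
    calc u ^ n = C (u ^ n).leadingCoeff * ((v ^ m).roots.map fun a => X - C a).prod := h1.symm
      _ = C ((u ^ n).leadingCoeff * ((v ^ m).leadingCoeff)⁻¹) *
          (C (v ^ m).leadingCoeff * ((v ^ m).roots.map fun a => X - C a).prod) := by
        rw [← mul_assoc, ← C_mul, mul_assoc, inv_mul_cancel₀ h3, mul_one]
      _ = C ((u ^ n).leadingCoeff * ((v ^ m).leadingCoeff)⁻¹) * v ^ m := by rw [h2]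
  obtain ⟨u₁, hu₁, hnu⟩ := Polynomial.exists_eq_pow_rootMultiplicity_mul_and_not_dvd u hu r
  obtain ⟨v₁, hv₁, hnv⟩ := Polynomial.exists_eq_pow_rootMultiplicity_mul_and_not_dvd v hv r
  rw [Polynomial.dvd_iff_isRoot, Polynomial.IsRoot.def] at hnu hnv
  exact aux u v u₁ v₁ m n _ _ r hn hu₁ hv₁ hnu hnv hr

end Pool.Agent.BP
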