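import Pool.Agent.Lib.MP_410da7_agBP.SpecA

/-! Package BP, module Un: the generic curve has no common zero. -/

set_option autoImplicit false

namespace Pool.Agent.BP

open Polynomial

namespace UnM

theorem map_crv {R S : Type} [CommRing R] [CommRing S] (φ : R →+* S) (D : Fin 4 → ℕ)
    (b : Ix D → R) (i : Fin 4) : (crv D b i).map φ = crv D (fun q => φ (b q)) i := by
  unfold crv
  rw [Polynomial.map_sum]
  refine Finset.sum_congr rfl fun j _ => ?_
  rw [Polynomial.map_mul, Polynomial.map_C, Polynomial.map_pow, Polynomial.map_X]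

theorem map_span {R S : Type} [CommRing R] [CommRing S] (φ : R →+* S) (D : Fin 4 → ℕ)
    (b : Ix D → R) : (Ideal.span (Set.range (crv D b))).map (Polynomial.mapRingHom φ) =
      Ideal.span (Set.range (crv D fun q => φ (b q))) := by
  rw [Ideal.map_span, ← Set.range_comp]
  congr 2
  funext i
  exact map_crv φ D b i

theorem coeff_crv {R : Type} [CommRing R] (D : Fin 4 → ℕ) (b : Ix D → R) (i : Fin 4) :
    (crv D b i).natDegree ≤ D i ∧ (crv D b i).coeff (D i) = b ⟨i, Fin.last _⟩ := by
  unfold crv
  constructor
  · apply Polynomial.natDegree_sum_le_of_forall_le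
    intro j _
    refine (Polynomial.natDegree_C_mul_X_pow_le _ _).trans ?_
    have := j.2
    omega
  · rw [Polynomial.finsetSum_coeff, Finset.sum_eq_single (Fin.last _)]
    · rw [Polynomial.coeff_C_mul_X_pow]
      simp
    · intro j _ hj
      rw [Polynomial.coeff_C_mul_X_pow, if_neg]
      intro h
      exact hj (Fin.ext h.symm)
    · intro h
      exact absurd (Finset.mem_univ _) h

end UnM

open UnM in
theorem stmtUn : StmtNak → StmtUn := by
  intro hNak D u F _ _ b hspec hi htop
  let P : Type := MvPolynomial (Ix D) ℂ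
  let m : Ideal (MvPolynomial (Ix D) ℂ) := RingHom.ker (MvPolynomial.eval u)
  have hm : m.IsPrime := RingHom.ker_isPrime _
  have hmu : ∀ y : m.primeCompl, IsUnit (MvPolynomial.eval u (y : MvPolynomial (Ix D) ℂ)) := by
    intro y
    rw [isUnit_iff_ne_zero]
    exact y.2
  have hmb : ∀ y : m.primeCompl,
      IsUnit ((MvPolynomial.aeval b : MvPolynomial (Ix D) ℂ →ₐ[ℂ] F).toRingHom
        (y : MvPolynomial (Ix D) ℂ)) := by
    intro y
    rw [isUnit_iff_ne_zero]
    intro h
    exact y.2 (hspec _ h)
  let ψ : Localization.AtPrime m →+* ℂ := IsLocalization.lift (M := m.primeCompl) hmu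
  let φ : Localization.AtPrime m →+* F := IsLocalization.lift (M := m.primeCompl) hmb
  let z : Ix D → Localization.AtPrime m := fun q =>
    algebraMap (MvPolynomial (Ix D) ℂ) (Localization.AtPrime m) (MvPolynomial.X q)
  have hψ : (fun q => ψ (z q)) = u := by
    funext q
    change IsLocalization.lift (M := m.primeCompl) hmu (algebraMap _ _ (MvPolynomial.X q)) = u q
    rw [IsLocalization.lift_eq, MvPolynomial.eval_X]
  have hφ : (fun q => φ (z q)) = b := by
    funext q
    change IsLocalization.lift (M := m.primeCompl) hmb (algebraMap _ _ (MvPolynomial.X q)) = b q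
    rw [IsLocalization.lift_eq]
    exact MvPolynomial.aeval_X _ _
  have hψs : Function.Surjective ψ := by
    intro c
    refine ⟨algebraMap (MvPolynomial (Ix D) ℂ) (Localization.AtPrime m) (MvPolynomial.C c), ?_⟩
    change IsLocalization.lift (M := m.primeCompl) hmu _ = c
    rw [IsLocalization.lift_eq, MvPolynomial.eval_C]
  have h1 : Ideal.span (Set.range (crv D z)) = ⊤ := by
    obtain ⟨i, hi⟩ := hi
    have hu : IsUnit (z ⟨i, Fin.last _⟩) := by
      have hmem : (MvPolynomial.X ⟨i, Fin.last _⟩ : MvPolynomial (Ix D) ℂ) ∈ m.primeCompl := by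
        intro h
        apply hi
        have h2 : MvPolynomial.eval u (MvPolynomial.X (⟨i, Fin.last _⟩ : Ix D)) = 0 := h
        rwa [MvPolynomial.eval_X] at h2
      exact IsLocalization.map_units (M := m.primeCompl) (Localization.AtPrime m)
        (⟨MvPolynomial.X ⟨i, Fin.last _⟩, hmem⟩ : m.primeCompl)
    obtain ⟨hd, hc⟩ := coeff_crv D z i
    apply hNak _ _ ψ hψs _ (crv D z i) (Ideal.subset_span (Set.mem_range_self i))
    · have h2 : (crv D z i).natDegree = D i := by
        apply le_antisymm hd
        apply Polynomial.le_natDegree_of_ne_zero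
        rw [hc]
        exact hu.ne_zero
      rw [Polynomial.leadingCoeff, h2, hc]
      exact hu
    · rw [map_span, hψ]
      exact htop
  rw [← hφ, ← map_span, h1, Ideal.map_top]

end Pool.Agent.BP
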