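import Pool.Agent.Lib.MP_410da7_agBP.DefsB

/-!
# Four lines: the 34 certificates and the 112 types
-/

set_option autoImplicit false

namespace Pool.Agent.BP

/-- Certificate 0. -/
def crt0 : Crt :=
  ⟨5, 2, [2, 1, 1, 1], [0, 1, 2, 0], [0, 1, 0, 2], [1, 0, 0, 0], [1, 1, 1, 1], [[1, 2], [1], [1],
    [4]], [[1, 4, 4], [0, 1], [0, 0, 1], [4]], [[2, 4], [0, 1], [0, 0, 1], [1]], [[], [], [],
    [4]], [[[3], [3], [], []], [[], [1], [], []], [[0, 4], [2], [], []]], 0, 0, [[], [1], [0, 1],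
    [4, 4]], [[], [1], [], []]⟩

/-- Certificate 1. -/
def crt1 : Crt :=
  ⟨5, 2, [2, 1, 1, 1], [0, 2, 1, 0], [0, 0, 1, 2], [1, 0, 0, 0], [1, 1, 1, 1], [[1, 2], [1], [1],
    [4]], [[1, 4, 4], [0, 0, 1], [0, 1], [4]], [[2, 4], [0, 0, 1], [0, 1], [1]], [[], [], [],
    [4]], [[[3, 4], [4], [], []], [[0, 3], [3], [], []], [[], [1], [], []]], 0, 0, [[], [0, 1],
    [1], [4, 4]], [[], [], [1], []]⟩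

/-- Certificate 2. -/
def crt2 : Crt :=
  ⟨5, 3, [2, 3, 1, 1], [1, 0, 0, 1], [0, 0, 3, 2], [1, 1, 0, 0], [4, 1, 1, 1], [[1, 4], [1, 1],
    [4], [3]], [[0, 4, 2, 4], [1, 3, 3, 1], [4], [0, 3]], [[0, 3, 2], [3, 1, 3], [1], [0, 1]],
    [[], [], [4], []], [[[0, 1], [2, 1], [], []], [[4, 3], [0, 3], [], []], [[2, 3], [0, 3], [],
    []], [[2, 1], [0, 3], [], []]], 0, 1, [[4, 2, 4], [], [3, 3, 1], [3]], [[], [], [], [2]]⟩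

/-- Certificate 3. -/
def crt3 : Crt :=
  ⟨5, 2, [2, 1, 1, 1], [0, 2, 0, 1], [0, 0, 2, 1], [1, 0, 0, 0], [4, 1, 1, 1], [[1, 1], [1], [1],
    [2]], [[4, 3, 4], [0, 0, 1], [1], [0, 2]], [[3, 3], [0, 0, 1], [1], [0, 1]], [[], [], [1],
    []], [[[2, 3], [1], [], []], [[0, 2], [4], [], []], [[], [1], [], []]], 0, 0, [[], [0, 4], [2,
    1], [3]], [[], [], [], [2]]⟩

/-- Certificate 4. -/
def crt4 : Crt :=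
  ⟨5, 4, [2, 3, 1, 1], [0, 1, 0, 1], [0, 0, 4, 3], [2, 1, 0, 0], [4, 1, 1, 1], [[1, 4, 1], [1, 1],
    [1], [2]], [[4, 2, 2, 2, 4], [0, 1, 3, 3, 1], [1], [0, 2]], [[3, 2, 3], [0, 3, 1, 3], [1], [0,
    1]], [[], [], [1], []], [[[2, 2, 4], [0, 1], [], []], [[0, 3, 4], [4, 1], [], []], [[0, 1],
    [4], [], []], [[0, 0, 1], [0, 4], [], []], [[0, 4, 3], [1, 4], [], []]], 0, 0, [[], [4, 2, 2,
    4], [3, 3, 3, 1], [3]], [[], [], [], [2]]⟩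

/-- Certificate 5. -/
def crt5 : Crt :=
  ⟨5, 7, [2, 3, 7, 1], [1, 0, 0, 1], [0, 1, 0, 6], [3, 2, 1, 0], [1, 1, 1, 1], [[1, 0, 4, 2], [1,
    1, 1], [4, 1], [4]], [[0, 1, 0, 3, 4, 1, 1, 4], [1, 3, 1, 2, 1, 3, 1], [4, 2, 4, 0, 0, 1, 3,
    1], [0, 4]], [[0, 2, 0, 3, 4], [3, 1, 4, 1, 3], [2, 3, 0, 0, 0, 3, 2], [0, 1]], [[4], [1], [],
    [2, 1, 4, 2, 2, 0, 1]], [[[2, 4], [1, 1, 4], [4], []], [[3, 0, 4], [4, 3, 2], [4], []], [[4,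
    2, 3], [0, 4, 1], [], []], [[2, 1, 3], [2, 1, 3], [2], []], [[1, 3, 2], [4, 4, 3], [4], []],
    [[1, 2, 2], [2, 0, 1], [2], []], [[2, 3, 1], [0, 2, 4], [], []], [[3, 0, 2, 4], [3, 4, 3],
    [3], []]], 0, 1, [[1, 0, 3, 4, 1, 1, 4], [], [0, 0, 2, 1, 4, 4, 1], [4]], [[], [], [], [4]]⟩

/-- Certificate 6. -/
def crt6 : Crt :=
  ⟨5, 6, [2, 3, 1, 1], [0, 0, 1, 2], [0, 0, 5, 4], [3, 2, 0, 0], [4, 1, 1, 1], [[1, 0, 4, 1], [1,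
    1, 1], [2], [2]], [[4, 0, 2, 3, 4, 2, 4], [1, 3, 1, 2, 1, 3, 1], [0, 2], [0, 0, 2]], [[3, 0,
    2, 3], [3, 1, 4, 1, 3], [0, 1], [0, 0, 1]], [[4], [], [0, 1, 4, 2, 1, 2], []], [[[1, 1, 2, 3],
    [1, 2, 2], [], []], [[2, 0, 2, 1], [3, 1, 4], [], []], [[4, 0, 2], [1, 3], [], []], [[0, 4, 0,
    2], [0, 1, 3], [], []], [[3, 1, 3, 1], [2, 0, 4], [], []], [[4, 1, 3, 1], [1, 2, 4], [], []],
    [[4, 2, 3, 1], [1, 1, 1], [], []]], 1, 2, [[2, 0, 1, 0, 2, 3], [3, 1, 4, 0, 3, 2], [], [0,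
    4]], [[3], [], [], [0, 3, 0, 1, 4]]⟩

/-- Certificate 7. -/
def crt7 : Crt :=
  ⟨11, 6, [2, 3, 1, 1], [0, 0, 1, 3], [0, 0, 5, 3], [3, 2, 0, 0], [10, 1, 1, 1], [[1, 6, 7, 1],
    [1, 1, 1], [9], [2]], [[10, 10, 5, 2, 5, 8, 10], [1, 3, 6, 7, 6, 3, 1], [0, 9], [0, 0, 0, 2]],
    [[9, 10, 8, 9], [3, 6, 9, 6, 3], [0, 1], [0, 0, 0, 1]], [[2], [3], [9, 3, 7, 3, 7, 6], []],
    [[[0, 9, 3, 1], [4, 9, 8], [], []], [[10, 9, 6, 1], [3, 0, 8], [], []], [[10, 8, 6, 4], [3,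
    10, 10], [], []], [[7, 2, 7, 9], [1, 9, 6], [], []], [[2, 0, 8], [5, 9], [], []], [[0, 2, 0,
    8], [0, 5, 9], [], []], [[3, 6, 0, 6], [2, 1, 8], [], []]], 1, 0, [[], [0, 10, 10], [2, 5, 6,
    2, 3, 9], [9, 7, 6, 9, 8, 2]], [[], [5, 7, 7, 8, 3], [6, 4], []]⟩

/-- Certificate 8. -/
def crt8 : Crt :=
  ⟨5, 12, [2, 3, 7, 1], [0, 0, 1, 3], [0, 0, 4, 9], [6, 4, 1, 0], [1, 1, 2, 1], [[1, 2, 2, 1, 3,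
    3, 2], [4, 0, 2, 1, 1], [2, 1], [3]], [[1, 4, 3, 0, 4, 2, 4, 1, 3, 2, 1, 2, 4], [4, 0, 1, 3,
    1, 3, 3, 1, 0, 3, 4, 3, 1], [0, 1, 1, 4, 0, 0, 3, 3, 2], [0, 0, 0, 3]], [[2, 4, 4, 2, 1, 1,
    4], [3, 0, 3, 4, 1, 2, 0, 1, 3], [0, 1, 3, 0, 0, 0, 3, 4], [0, 0, 0, 1]], [[4, 3], [3, 4, 2],
    [], [1, 4, 2, 0, 1, 0, 4, 2, 1, 0, 1, 1]], [[[2, 2, 1, 0, 1, 0, 4], [4, 1, 2, 1, 3], [0, 4],
    []], [[2, 1, 2, 4, 2, 2, 2], [2, 2, 2, 2, 4], [0, 2], []], [[1, 4, 1, 1, 0, 0, 3], [1, 1, 0,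
    2, 1], [0, 1], []], [[3, 4, 2, 0, 2, 4, 4], [3, 0, 0, 4, 3], [0, 4], []], [[2, 2, 4, 0, 2, 3,
    1], [2, 1, 1, 0, 2], [0, 2], []], [[1, 3, 3, 2, 2, 0, 1], [1, 0, 4, 4, 2], [0, 3], []], [[4,
    2, 0, 2, 3, 4, 3], [4, 0, 2, 0, 1], [0, 3], []], [[4, 2, 2, 1, 1, 0, 3], [4, 0, 2, 2, 1], [0,
    4], []], [[2, 2, 3, 4, 4, 2, 4], [2, 1, 1, 0, 3], [0, 4], []], [[2, 1, 2, 1, 1, 0, 4], [2, 0,
    2, 1, 3], [0, 2], []], [[1, 1, 4, 3, 0, 4, 2], [1, 3, 3, 1, 4], [0, 2], []], [[1, 3, 1, 3, 4,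
    3], [1, 0, 1, 3], [0, 1], []], [[3, 1, 4, 2, 2, 3, 3], [3, 2, 4, 4, 3], [], []]], 4, 0, [[],
    [0, 1, 0, 2, 3, 2, 1, 2], [2, 0, 0, 1, 2, 2, 3, 1, 3, 1, 1, 3], [3, 4, 0, 2, 0, 1, 1, 2, 2, 4,
    4, 2]], [[], [2, 1, 1, 0, 4, 1, 3, 2, 3, 3], [3, 4, 2, 1, 1, 3], []]⟩

/-- Certificate 9. -/
def crt9 : Crt :=
  ⟨5, 4, [2, 3, 1, 1], [0, 1, 1, 0], [0, 0, 3, 4], [2, 1, 0, 0], [4, 1, 1, 1], [[1, 4, 1], [1, 1],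
    [2], [1]], [[4, 2, 2, 2, 4], [0, 1, 3, 3, 1], [0, 2], [1]], [[3, 2, 3], [0, 3, 1, 3], [0, 1],
    [1]], [[], [], [], [1]], [[[2, 2, 4], [0, 1], [], []], [[0, 3, 4], [4, 1], [], []], [[0, 1],
    [4], [], []], [[0, 0, 1], [0, 4], [], []], [[0, 4, 3], [1, 4], [], []]], 0, 0, [[], [4, 2, 2,
    4], [3], [3, 3, 3, 1]], [[], [], [2], []]⟩

/-- Certificate 10. -/
def crt10 : Crt :=
  ⟨5, 3, [2, 3, 1, 1], [1, 0, 1, 0], [0, 0, 2, 3], [1, 1, 0, 0], [4, 1, 1, 1], [[1, 4], [1, 1],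
    [3], [4]], [[0, 4, 2, 4], [1, 3, 3, 1], [0, 3], [4]], [[0, 3, 2], [3, 1, 3], [0, 1], [1]],
    [[], [], [], [4]], [[[0, 1], [2, 1], [], []], [[4, 3], [0, 3], [], []], [[2, 3], [0, 3], [],
    []], [[2, 1], [0, 3], [], []]], 0, 1, [[4, 2, 4], [], [3], [3, 3, 1]], [[], [], [2], []]⟩

/-- Certificate 11. -/
def crt11 : Crt :=
  ⟨5, 6, [2, 3, 1, 1], [0, 0, 2, 1], [0, 0, 4, 5], [3, 2, 0, 0], [4, 1, 1, 1], [[1, 0, 4, 1], [1,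
    1, 1], [2], [2]], [[4, 0, 2, 3, 4, 2, 4], [1, 3, 1, 2, 1, 3, 1], [0, 0, 2], [0, 2]], [[3, 0,
    2, 3], [3, 1, 4, 1, 3], [0, 0, 1], [0, 1]], [[4], [], [], [0, 1, 4, 2, 1, 2]], [[[1, 1, 2, 3],
    [1, 2, 2], [], []], [[2, 0, 2, 1], [3, 1, 4], [], []], [[4, 0, 2], [1, 3], [], []], [[0, 4, 0,
    2], [0, 1, 3], [], []], [[3, 1, 3, 1], [2, 0, 4], [], []], [[4, 1, 3, 1], [1, 2, 4], [], []],
    [[4, 2, 3, 1], [1, 1, 1], [], []]], 1, 3, [[2, 0, 1, 0, 2, 3], [3, 1, 4, 0, 3, 2], [0, 4],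
    []], [[3], [], [0, 3, 0, 1, 4], []]⟩

/-- Certificate 12. -/
def crt12 : Crt :=
  ⟨5, 12, [2, 3, 11, 11], [0, 0, 1, 0], [0, 0, 0, 1], [6, 4, 1, 1], [4, 1, 3, 1], [[1, 1, 0, 3, 0,
    4, 2], [4, 2, 0, 1, 1], [4, 1], [3, 1]], [[4, 3, 4, 4, 4, 2, 4, 1, 1, 3, 4, 4, 1], [4, 1, 3,
    1, 1, 0, 4, 0, 4, 2, 3, 3, 1], [0, 2, 3, 0, 0, 0, 1, 4, 0, 0, 0, 2, 3], [2, 4, 0, 0, 0, 3, 1,
    0, 0, 0, 3, 1]], [[3, 3, 0, 4, 0, 2, 1], [3, 3, 2, 4, 1, 2, 3, 1, 3], [0, 3, 0, 0, 0, 0, 4, 0,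
    0, 0, 0, 3], [4, 0, 0, 0, 0, 1, 0, 0, 0, 0, 1]], [[2, 1, 0, 4, 1, 4, 2, 3, 0, 1, 1], [2, 1, 3,
    1, 4, 0, 3, 4, 3, 2, 3], [], [0, 2, 1, 3, 3, 2, 0, 1, 2, 1, 1, 1]], [[[3, 3, 4, 2, 1, 1, 3],
    [4, 2, 0, 0, 4], [3], []], [[3, 3, 4, 0, 2, 2, 1], [2, 1, 4, 3, 3], [3], []], [[4, 2, 1, 2, 3,
    4, 1], [1, 2, 3, 1, 3], [1], []], [[1, 4, 4, 3, 2, 0, 4], [4, 0, 1, 4, 2], [1], []], [[2, 0,
    3, 3, 1, 0, 4], [3, 1, 4, 1, 2], [4], []], [[4, 2, 3, 1, 3, 4], [1, 4, 2, 3], [4], []], [[1,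
    2, 4, 0, 2, 3, 2], [4, 3, 0, 4, 1], [], []], [[4, 2, 0, 2, 2, 1, 4], [1, 1, 3, 1, 2], [2],
    []], [[1, 0, 4, 2, 4, 0, 2], [4, 1, 4, 1, 1], [4], []], [[0, 0, 0, 4, 0, 3, 4], [0, 3, 2, 2,
    2], [2], []], [[1, 1, 2, 2, 1, 3, 4], [4, 0, 1, 0, 2], [4], []], [[4, 1, 4, 0, 2, 4, 3], [1,
    0, 1, 0, 4], [4], []], [[2, 1, 0, 3, 4, 3, 1], [3, 1, 1, 2], [3], []]], 0, 0, [[], [2, 1, 3,
    3, 2, 0, 1, 2, 1, 1, 1], [3, 2, 0, 0, 0, 4, 1, 0, 0, 0, 3, 2], [0, 2, 2, 2, 3, 1, 3, 3, 4, 4,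
    1, 3]], [[], [4, 3, 2, 0, 3, 4, 4, 0, 0, 2, 1], [1, 1, 3, 2, 4, 0, 2, 4, 3, 2], []]⟩

/-- Certificate 13. -/
def crt13 : Crt :=
  ⟨5, 18, [2, 3, 11, 13], [0, 0, 2, 2], [0, 0, 5, 3], [9, 6, 1, 1], [4, 1, 4, 1], [[1, 2, 4, 4, 2,
    3, 2, 4, 4, 1], [1, 3, 1, 4, 2, 1, 1], [4, 1], [1, 1]], [[4, 1, 3, 1, 4, 4, 2, 4, 2, 2, 0, 2,
    3, 1, 2, 4, 1, 2, 4], [1, 4, 0, 2, 3, 0, 3, 1, 0, 2, 3, 3, 0, 2, 0, 0, 4, 3, 1], [0, 0, 1, 4,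
    0, 0, 0, 3, 2, 0, 0, 0, 1, 4], [0, 0, 1, 3, 3, 1, 0, 2, 1, 1, 2, 0, 1, 3, 3, 1]], [[3, 1, 2,
    2, 1, 4, 1, 2, 2, 3], [3, 3, 3, 2, 2, 1, 4, 2, 2, 1, 0, 1, 3], [0, 0, 4, 0, 0, 0, 0, 2, 0, 0,
    0, 0, 4], [0, 0, 3, 1, 3, 0, 0, 1, 2, 1, 0, 0, 3, 1, 3]], [[0, 0, 0, 3, 2, 3, 3, 1, 1, 2, 4,
    3, 1], [1, 1, 4, 4, 0, 0, 4, 2, 1, 1, 2, 1, 3], [2, 3, 1, 2, 1, 1, 4, 3, 2, 0, 4, 4, 3, 3, 0,
    1, 1, 2], []], [[[2, 3, 0, 3, 3, 1, 1, 2, 1, 3], [0, 3, 2, 0, 1, 3, 2], [2, 4], []], [[1, 2,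
    0, 3, 3, 4, 4, 2, 2, 2], [4, 4, 3, 2, 4, 4, 3], [2], []], [[1, 1, 2, 2, 1, 0, 0, 2, 3, 4], [4,
    3, 0, 1, 2, 4, 1], [4, 2], []], [[3, 1, 2, 1, 2, 4, 4, 3, 2, 1], [2, 1, 3, 0, 3, 1, 4], [1,
    3], []], [[2, 3, 0, 3, 1, 4, 0, 1, 3, 4], [3, 0, 1, 3, 3, 4, 1], [4, 2], []], [[3, 2, 4, 4, 3,
    4, 3, 3, 1, 1], [2, 0, 0, 1, 0, 2, 4], [1, 3], []], [[2, 3, 1, 0, 4, 0, 0, 0, 3, 3], [3, 0, 0,
    0, 4, 1, 2], [4, 2], []], [[0, 2, 4, 4, 1, 1, 1, 4, 2], [0, 3, 2, 1, 2, 3], [4, 3], []], [[4,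
    0, 1, 4, 0, 2, 4, 4, 1, 3], [1, 1, 0, 3, 4, 3, 2], [2], []], [[4, 4, 0, 4, 1, 3, 1, 1, 3, 4],
    [1, 2, 0, 2, 3, 4, 1], [1, 2], []], [[3, 4, 0, 4, 4, 4, 2, 4, 1, 1], [2, 3, 2, 0, 4, 2, 4],
    [1], []], [[3, 3, 4, 1, 3, 0, 2, 1, 2, 2], [2, 4, 1, 1, 0, 4, 3], [2, 1], []], [[4, 3, 1, 1,
    1, 2, 2, 1, 1, 1], [1, 3, 4, 1, 2, 2, 4], [3, 4], []], [[0, 4, 0, 2, 3, 0, 4], [0, 1, 2, 1],
    [3, 1], []], [[3, 0, 2, 0, 4, 0, 1, 0, 4, 2], [2, 2, 0, 4, 2, 2, 3], [4], []], [[1, 3, 0, 4,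
    3, 1, 1, 4, 1, 1], [4, 1, 3, 3, 4, 2, 4], [4, 4], []], [[0, 1, 0, 1, 1, 2, 3, 4, 3], [0, 4, 0,
    0, 2, 2], [3, 2], []], [[1, 0, 2, 0, 0, 0, 4, 0, 2, 2], [4, 4, 2, 4, 2, 1, 3], [3, 2], []],
    [[2, 1, 1, 4, 2, 1, 3, 4, 4, 3], [3, 2, 3, 4, 1, 1, 4], [2, 2], []]], 2, 0, [[], [4, 3, 3, 1,
    1, 0, 2, 0, 1, 3, 0, 2, 0, 2, 2, 3, 0, 2], [2, 4, 3, 0, 2, 3, 0, 3, 4, 3, 4, 3, 0, 1, 4, 4, 0,
    1], [4, 3, 4, 4, 2, 2, 3, 2, 0, 4, 1, 0, 0, 2, 4, 3, 0, 2]], [[], [1, 0, 0, 4, 3, 3, 3, 2, 1,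
    0, 3, 2, 2, 4, 4, 2], [1, 4, 4, 0, 3, 2, 1, 1, 0, 1, 0, 0, 3, 2, 2, 1], []]⟩

/-- Certificate 14. -/
def crt14 : Crt :=
  ⟨5, 4, [2, 4, 1, 1], [0, 0, 1, 2], [0, 0, 3, 2], [2, 1, 0, 0], [4, 1, 1, 1], [[1, 3, 4], [1, 1],
    [2], [1]], [[4, 4, 3, 1, 4], [1, 4, 1, 4, 1], [0, 2], [0, 0, 1]], [[3, 4, 2], [4, 2, 2, 4],
    [0, 1], [0, 0, 1]], [[2], [3], [0, 3, 3, 2], []], [[[4, 1, 3], [1, 1], [], []], [[2, 0, 2],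
    [1, 4], [], []], [[3, 1, 4], [4, 3], [], []], [[1, 1, 4], [3, 3], [], []], [[1, 4, 4], [3, 2],
    [], []]], 1, 3, [[1, 2, 0, 4], [4, 0, 0, 1], [0, 3], []], [[], [4], [0, 0, 2], []]⟩

/-- Certificate 15. -/
def crt15 : Crt :=
  ⟨11, 5, [2, 4, 5, 1], [1, 0, 0, 4], [0, 1, 0, 1], [2, 1, 1, 0], [2, 1, 1, 1], [[1, 1, 7], [1,
    1], [10, 1], [9]], [[0, 2, 4, 8, 6, 10], [1, 4, 6, 4, 1], [10, 5, 1, 10, 6, 1], [0, 0, 0, 0,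
    9]], [[0, 4, 4, 6], [4, 1, 1, 4], [5, 2, 8, 2, 5], [0, 0, 0, 0, 1]], [[1, 4, 8, 4], [1, 5, 6,
    1, 4], [], []], [[[9, 2], [8, 2], [7], []], [[9, 1], [7], [1], []], [[2, 6], [5, 7], [7], []],
    [[2, 10], [3, 10], [2], []], [[1, 6], [2, 7], [5], []], [[9, 4, 2], [4, 7], [10], []]], 2, 3,
    [[0, 10, 3, 3, 10], [5, 6, 0, 9], [6, 6, 8, 10, 1], []], [[6], [9, 8], [], []]⟩

/-- Certificate 16. -/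
def crt16 : Crt :=
  ⟨7, 8, [2, 4, 5, 1], [0, 0, 1, 3], [0, 0, 2, 5], [4, 2, 1, 0], [3, 1, 2, 1], [[1, 3, 0, 0, 3],
    [3, 0, 1], [3, 1], [6]], [[3, 4, 6, 0, 4, 5, 0, 0, 6], [4, 0, 3, 0, 5, 0, 5, 0, 1], [0, 3, 5,
    1, 5, 2, 2], [0, 0, 0, 6]], [[6, 4, 0, 0, 4], [3, 0, 3, 0, 1, 0, 4], [0, 5, 2, 1, 1, 3], [0,
    0, 0, 1]], [[0, 6, 5], [2, 6, 1], [], [4, 1, 5, 2, 6, 0, 0, 3]], [[[4, 3, 6, 3, 5], [4, 4, 2],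
    [2], []], [[2, 0, 3, 6, 3], [3, 1, 4], [5], []], [[3, 0, 0, 3, 4], [1, 4, 3], [5], []], [[1,
    2, 0, 0, 6], [5, 0, 1], [1], []], [[1, 6, 2], [5], [6], []], [[1, 2, 6, 2, 2], [5, 5, 5], [5],
    []], [[5, 5, 2, 6, 2], [4, 1, 5], [2], []], [[1, 5, 5, 2, 5], [5, 0, 2], [3], []], [[1, 3, 5,
    5], [5, 2, 2], [], []]], 4, 0, [[], [6, 0, 2, 4, 6, 4, 4, 1], [0, 6, 1, 4, 4, 5], [1, 1, 4, 6,
    4, 5, 3, 6]], [[], [6, 4, 2, 5], [3, 6, 3, 4, 2, 6], []]⟩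

/-- Certificate 17. -/
def crt17 : Crt :=
  ⟨7, 8, [2, 4, 5, 1], [0, 0, 1, 2], [0, 0, 2, 6], [4, 2, 1, 0], [3, 1, 4, 1], [[1, 2, 1, 1, 4],
    [3, 1, 1], [3, 1], [6]], [[3, 5, 4, 4, 4, 5, 6, 3, 6], [4, 3, 1, 1, 0, 5, 4, 4, 1], [0, 6, 3,
    2, 3, 4, 4], [0, 0, 6]], [[6, 5, 6, 6, 3], [3, 3, 4, 6, 6, 5, 4], [0, 3, 4, 2, 2, 6], [0, 0,
    1]], [[3, 3], [5, 6], [], [1, 0, 2, 3, 6, 1, 0, 3]], [[[6, 0, 6, 6, 4], [0, 2, 4], [2], []],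
    [[2, 0, 4, 1, 3], [3, 5, 3], [3], []], [[6, 1, 2, 0, 6], [2, 1, 6], [6], []], [[5, 4, 5, 1,
    3], [4, 5, 3], [5], []], [[5, 4, 0, 3, 4], [4, 6, 4], [4], []], [[1, 6, 2, 4, 5], [5, 6, 5],
    [1], []], [[5, 4, 5, 3], [4, 3], [], []], [[0, 5, 4, 5, 3], [0, 4, 3], [], []], [[4, 6, 2, 4,
    6], [6, 6, 1], [2], []]], 3, 0, [[], [0, 5, 1, 2, 2, 4], [2, 6, 1, 6, 1, 5, 0, 2], [5, 3, 5,
    6, 4, 5, 0, 5]], [[], [3, 3, 4, 5, 6], [4, 5, 2], []]⟩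

/-- Certificate 18. -/
def crt18 : Crt :=
  ⟨5, 4, [2, 4, 1, 1], [0, 0, 1, 3], [0, 0, 3, 1], [2, 1, 0, 0], [4, 1, 1, 1], [[1, 3, 1], [1, 1],
    [2], [2]], [[4, 4, 4, 4, 4], [1, 4, 1, 4, 1], [0, 2], [0, 0, 0, 2]], [[3, 4, 3], [4, 2, 2, 4],
    [0, 1], [0, 0, 0, 1]], [[2], [3], [0, 2, 0, 2], []], [[[2, 0, 1], [0, 3], [], []], [[4, 4, 2],
    [2, 1], [], []], [[3, 3, 3], [4, 4], [], []], [[2, 4, 4], [1, 2], [], []], [[1, 0, 2], [3],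
    [], []]], 2, 0, [[], [0, 4, 2], [3, 3, 2, 4], [2, 3, 1, 1]], [[], [1, 1], [2], []]⟩

/-- Certificate 19. -/
def crt19 : Crt :=
  ⟨5, 4, [2, 4, 1, 1], [0, 0, 2, 1], [0, 0, 2, 3], [2, 1, 0, 0], [4, 1, 1, 1], [[1, 3, 4], [1, 1],
    [1], [2]], [[4, 4, 3, 1, 4], [1, 4, 1, 4, 1], [0, 0, 1], [0, 2]], [[3, 4, 2], [4, 2, 2, 4],
    [0, 0, 1], [0, 1]], [[2], [3], [], [0, 3, 3, 2]], [[[4, 1, 3], [1, 1], [], []], [[2, 0, 2],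
    [1, 4], [], []], [[3, 1, 4], [4, 3], [], []], [[1, 1, 4], [3, 3], [], []], [[1, 4, 4], [3, 2],
    [], []]], 1, 2, [[1, 2, 0, 4], [4, 0, 0, 1], [], [0, 3]], [[], [4], [], [0, 0, 2]]⟩

/-- Certificate 20. -/
def crt20 : Crt :=
  ⟨5, 6, [2, 4, 6, 1], [0, 1, 0, 2], [0, 1, 0, 4], [3, 1, 1, 0], [2, 1, 2, 1], [[1, 2, 4, 3], [1,
    1], [3, 1], [2]], [[2, 3, 4, 4, 1, 3, 3], [0, 1, 4, 1, 4, 1], [3, 1, 0, 0, 0, 1, 2], [0, 0,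
    2]], [[4, 3, 1, 2], [0, 4, 2, 2, 4], [1, 0, 0, 0, 0, 2], [0, 0, 1]], [[4, 4], [2, 4], [1, 4],
    [3, 0, 4, 0, 3]], [[[3, 1, 3], [3, 4], [4], []], [[1, 1, 3], [1, 3], [1], []], [[4, 2, 2], [0,
    2], [4], []], [[1, 3, 1], [0, 4], [1], []], [[4, 4, 3], [3, 4], [4], []], [[1, 2, 1], [1, 3],
    [1], []], [[4, 2, 3, 3], [0, 2], [4], []]], 1, 3, [[1, 0, 2, 4, 2, 1], [0, 3, 2, 0, 2], [4, 2,
    1, 1, 1, 4], []], [[1, 0, 3], [0, 0, 2, 1], [], []]⟩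

/-- Certificate 21. -/
def crt21 : Crt :=
  ⟨5, 10, [2, 4, 7, 9], [0, 1, 3, 0], [0, 1, 0, 1], [5, 2, 1, 1], [3, 1, 2, 1], [[1, 0, 2, 1, 0,
    4], [2, 0, 1], [2, 1], [2, 1]], [[3, 0, 2, 1, 2, 1, 3, 3, 4, 0, 3], [0, 1, 0, 2, 0, 4, 0, 3,
    0, 1], [0, 0, 0, 1, 1, 4, 0, 0, 3, 3, 2], [2, 4, 3, 1, 2, 1, 2, 4, 3, 1]], [[1, 0, 2, 1, 0,
    4], [0, 2, 0, 3, 0, 4, 0, 4], [0, 0, 0, 1, 3, 0, 0, 0, 3, 4], [4, 1, 3, 3, 0, 2, 3, 4, 4]],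
    [[2, 0, 1, 3, 2, 2, 1, 3, 4], [0, 3, 4, 2, 2, 1, 2, 2, 1, 3], [], []], [[[1, 1, 2, 1, 4, 1],
    [2, 3, 2], [1, 4], []], [[0, 3, 1, 3, 1, 1], [4, 2, 3], [3, 4], []], [[0, 0, 0, 4, 2, 4], [0,
    3], [1, 1], []], [[0, 4, 4, 3, 2, 2], [3, 3, 4], [3, 3], []], [[0, 4, 4, 1, 3, 1], [3, 3, 3],
    [1, 4], []], [[0, 0, 1, 2, 0, 1], [0, 2, 1], [1, 4], []], [[0, 4, 3, 0, 3, 1], [3, 1, 4], [0,
    4], []], [[0, 3, 3, 3, 3, 2], [1, 1, 2], [4, 3], []], [[0, 3, 4, 1], [1, 3], [], []], [[0, 0,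
    3, 4, 1], [0, 1, 3], [], []], [[0, 4, 1, 4, 1, 4], [3, 2], [4], []]], 0, 0, [[], [3, 0, 1, 0,
    2, 0, 4, 0, 3], [0, 0, 3, 3, 2, 0, 0, 4, 4, 1], [2, 0, 1, 2, 1, 0, 1, 1, 3, 4]], [[], [2, 0,
    1, 1, 0, 4, 0, 2, 3], [0, 4, 1, 2, 4, 4, 0, 1], []]⟩

/-- Certificate 22. -/
def crt22 : Crt :=
  ⟨7, 5, [2, 1, 5, 5], [0, 3, 0, 0], [1, 2, 0, 0], [2, 0, 1, 1], [3, 1, 1, 6], [[1, 2, 5], [5],
    [1, 1], [2, 1]], [[3, 5, 0, 4, 5], [0, 0, 0, 5], [1, 5, 3, 3, 5, 1], [3, 4, 4, 2, 4, 6]], [[6,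
    5, 2], [0, 0, 0, 1], [5, 6, 2, 6, 5], [4, 1, 6, 2, 2]], [[5, 1, 3], [0, 4, 5, 4], [], []],
    [[[5, 0, 4], [5], [4], []], [[5, 2, 1], [6], [1], []], [[1, 2, 3], [5], [3], []], [[], [1],
    [], []], [[4, 1, 2], [], [5], []], [[3], [3], [2, 3], []]], 0, 0, [[], [0, 0, 1], [3, 2, 5, 3,
    3], [4, 5, 1, 4, 4]], [[], [5, 4, 2, 3], [5, 6], []]⟩

/-- Certificate 23. -/
def crt23 : Crt :=
  ⟨7, 6, [2, 5, 5, 1], [0, 1, 0, 1], [0, 0, 1, 5], [3, 1, 1, 0], [6, 1, 3, 1], [[1, 5, 3, 6], [1,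
    1], [3, 1], [5]], [[6, 4, 4, 0, 1, 6, 6], [0, 1, 5, 3, 3, 5, 1], [1, 4, 5, 4, 3, 3], [0, 5]],
    [[5, 4, 1, 2], [0, 5, 6, 2, 6, 5], [4, 3, 5, 5, 1], [0, 1]], [[5], [2], [6], [2, 2, 1, 4, 1,
    2]], [[[4, 4, 3, 5], [3, 5], [4], []], [[6, 4, 5, 4], [5, 4], [3], []], [[1, 4, 4, 5], [4, 5],
    [4], []], [[6, 1, 5, 5], [5, 5], [3], []], [[1, 3, 5, 2], [5, 2], [4], []], [[6, 4, 6, 1], [2,
    1], [3], []], [[1, 0, 6, 1], [1, 4], [4], []]], 0, 0, [[], [6, 2, 4, 4, 2, 6], [6, 5, 3, 3, 5,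
    1], [2]], [[], [], [], [4]]⟩

/-- Certificate 24. -/
def crt24 : Crt :=
  ⟨11, 6, [2, 5, 1, 6], [0, 0, 1, 0], [0, 1, 5, 0], [3, 1, 0, 1], [6, 1, 1, 3], [[1, 10, 8, 7],
    [1, 1], [3], [6, 1]], [[6, 10, 3, 10, 3, 1, 8], [1, 5, 10, 10, 5, 1], [0, 3], [4, 4, 9, 2, 3,
    9, 3]], [[1, 10, 8, 7], [5, 9, 8, 9, 5], [0, 1], [4, 7, 6, 1, 1, 7]], [[9], [2], [7, 10, 0, 6,
    0, 9], []], [[[6, 8, 2], [10, 6], [10], []], [[], [], [1], []], [[9, 4, 7], [7, 10], [2], []],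
    [[0, 10, 9], [0, 5], [9], []], [[6, 5, 8], [1, 2], [4], []], [[6, 3, 7], [1, 8], [9], []],
    [[5, 10, 6, 8], [10, 3], [], []]], 0, 0, [[], [9, 2, 6, 5, 5, 3], [7], [6, 9, 5, 6, 6, 8]],
    [[], [], [8], []]⟩

/-- Certificate 25. -/
def crt25 : Crt :=
  ⟨11, 8, [2, 5, 6, 7], [0, 2, 2, 0], [0, 1, 0, 1], [4, 1, 1, 1], [5, 1, 2, 1], [[1, 6, 2, 9, 9],
    [1, 1], [2, 1], [7, 1]], [[5, 5, 2, 1, 1, 5, 2, 7, 9], [0, 0, 1, 5, 10, 10, 5, 1], [0, 0, 7,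
    10, 7, 1, 10, 2, 2], [6, 6, 1, 6, 4, 6, 5, 1]], [[10, 5, 9, 2, 2], [0, 0, 5, 9, 8, 9, 5], [0,
    0, 10, 3, 3, 7, 10, 1], [6, 2, 7, 5, 8, 8, 7]], [[9, 2, 7, 4, 7, 3, 9], [3, 5, 8, 10, 0, 2, 7,
    7], [], []], [[[10, 6, 1, 10, 1], [7, 4], [0, 9], []], [[0, 10, 8, 4, 3], [3], [2, 5], []],
    [[0, 0, 5, 5, 4], [4, 3], [3, 3], []], [[0, 0, 8, 4, 8], [2, 7], [2, 6], []], [[0, 0, 5, 7],
    [9, 9], [7], []], [[0, 0, 0, 3, 5], [1, 7], [5, 1], []], [[0, 0, 10, 2, 10], [5, 8], [4, 2],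
    []], [[0, 0, 9, 8, 10], [2, 2], [1, 2], []], [[0, 0, 9, 1, 10], [5, 4], [5, 3], []]], 2, 3,
    [[2, 3, 5, 7, 4, 4, 8, 3], [1, 7, 9, 1, 5], [8, 1, 8, 3, 2, 7, 3, 8], []], [[5, 0, 6], [2, 4,
    5, 6, 3, 3], [], []]⟩

/-- Certificate 26. -/
def crt26 : Crt :=
  ⟨7, 3, [3, 3, 1, 1], [0, 0, 1, 2], [0, 0, 2, 1], [1, 1, 0, 0], [6, 1, 1, 1], [[1, 4], [1, 1],
    [2], [3]], [[6, 2, 1, 6], [1, 3, 3, 1], [0, 2], [0, 0, 3]], [[4, 4, 1], [3, 6, 3], [0, 1], [0,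
    0, 1]], [[3], [4], [5, 3, 3], []], [[[6, 5], [4, 3], [], []], [[2, 3], [2, 6], [], []], [[4,
    3], [4, 6], [], []], [[4, 5], [4, 1], [], []]], 1, 2, [[2, 0, 5], [5, 1, 2], [], [0, 6]],
    [[4], [], [], [0, 6]]⟩

/-- Certificate 27. -/
def crt27 : Crt :=
  ⟨5, 3, [3, 3, 1, 1], [0, 0, 0, 2], [0, 0, 3, 1], [1, 1, 0, 0], [1, 1, 1, 1], [[1, 4], [1, 1],
    [3], [4]], [[1, 2, 3, 4], [1, 3, 3, 1], [3], [0, 0, 4]], [[3, 4, 3], [3, 1, 3], [1], [0, 0,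
    1]], [[], [], [2], []], [[[1, 3], [1, 2], [], []], [[2], [3], [], []], [[0, 2], [0, 3], [],
    []], [[3, 1], [2, 1], [], []]], 0, 0, [[], [1, 0, 2], [4, 1, 3], [0, 4]], [[], [1], [], [0,
    2]]⟩

/-- Certificate 28. -/
def crt28 : Crt :=
  ⟨13, 4, [3, 3, 4, 1], [1, 0, 0, 1], [0, 1, 0, 3], [1, 1, 1, 0], [8, 1, 12, 1], [[1, 11], [1, 1],
    [8, 1], [9]], [[0, 8, 4, 5, 1], [1, 3, 3, 1], [12, 6, 6, 7, 12], [0, 9]], [[0, 11, 8, 5], [3,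
    6, 3], [6, 12, 8, 9], [0, 1]], [[8], [1], [], [7, 12, 7, 2]], [[[12], [7, 3], [1], []], [[12],
    [3, 4], [5], []], [[3], [9, 2], [2], []], [[8], [5, 1], [4], []], [[4, 8], [6, 7], [10], []]],
    0, 1, [[8, 4, 5, 1], [], [9, 9, 8, 12], [9]], [[], [], [], [3]]⟩

/-- Certificate 29. -/
def crt29 : Crt :=
  ⟨7, 6, [3, 3, 4, 1], [0, 0, 1, 3], [0, 0, 1, 3], [2, 2, 1, 0], [1, 1, 6, 1], [[1, 4, 6], [3, 1,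
    1], [4, 1], [2]], [[1, 5, 3, 5, 4, 5, 6], [6, 6, 1, 5, 5, 3, 1], [0, 3, 3, 2, 5, 6], [0, 0, 0,
    2]], [[3, 3, 0, 4, 3], [6, 4, 0, 6, 3], [0, 3, 4, 1, 3], [0, 0, 0, 1]], [[1, 2, 3], [0, 0, 2],
    [], [2, 5, 2, 2, 1, 4]], [[[6, 3, 4], [3, 2, 3], [4], []], [[4, 4, 1], [5, 6, 6], [4], []],
    [[0, 0, 6], [0, 4, 1], [6], []], [[6, 4, 4], [4, 1, 3], [6], []], [[1, 4, 6], [3, 0, 1], [5],
    []], [[4, 5, 6], [5, 4, 1], [2], []], [[5, 1, 1], [1, 6, 4], [4], []]], 1, 0, [[], [0, 3, 6,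
    3, 1], [5, 6, 4, 6, 0, 5], [2, 5, 4, 5, 6, 2]], [[], [6, 3, 3, 4], [3, 4, 2], []]⟩

/-- Certificate 30. -/
def crt30 : Crt :=
  ⟨7, 6, [3, 3, 5, 5], [0, 0, 1, 0], [0, 0, 0, 1], [2, 2, 1, 1], [5, 1, 1, 2], [[1, 3, 1], [1, 1,
    1], [4, 1], [2, 1]], [[5, 3, 3, 1, 3, 3, 5], [1, 3, 6, 0, 6, 3, 1], [0, 2, 6, 3, 6, 6, 1], [1,
    6, 6, 3, 6, 2]], [[1, 6, 4, 6, 1], [3, 6, 2, 6, 3], [0, 6, 6, 4, 3, 5], [6, 5, 2, 3, 3]], [[6,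
    6, 3, 2, 2], [6, 3, 6, 6, 2], [], [0, 1, 4, 4, 4, 1]], [[[3, 5, 4], [4, 6, 1], [2], []], [[0,
    0, 1], [0, 2, 2], [5], []], [[2, 0, 4], [4, 0, 1], [1], []], [[5, 0, 5], [3, 5, 3], [], []],
    [[2, 2], [4, 1], [6], []], [[5, 3, 4], [3, 0, 1], [2], []], [[0, 2, 6], [0, 1, 3], [5], []]],
    6, 0, [[], [4, 6, 3, 3, 6, 4], [4, 1, 5, 6, 0, 6], [6, 0, 6, 5, 1, 4]], [[], [1, 5, 6, 5], [1,
    2, 5, 6], []]⟩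

/-- Certificate 31. -/
def crt31 : Crt :=
  ⟨13, 10, [3, 3, 5, 7], [1, 0, 0, 1], [0, 1, 0, 2], [3, 3, 2, 1], [9, 1, 6, 2], [[1, 5, 7, 6],
    [2, 6, 1, 1], [9, 5, 1], [7, 1]], [[0, 9, 5, 6, 5, 11, 11, 7, 6, 5, 7], [8, 7, 7, 1, 4, 8, 4,
    8, 3, 1], [5, 11, 2, 12, 11, 8, 7, 4, 2, 7, 6], [0, 12, 12, 7, 6, 12, 4, 7, 2]], [[0, 1, 10,
    0, 4, 5, 6, 10], [12, 7, 3, 9, 0, 6, 3], [10, 2, 9, 0, 8, 0, 3, 2, 4], [0, 12, 1, 5, 9, 7, 3,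
    1]], [[4, 12, 3, 4, 11, 2, 3, 12], [5, 10, 5, 11, 12, 11, 4, 11], [], [8, 5, 9, 0, 10, 7, 9,
    6, 10, 10]], [[[2, 12, 11, 6], [10, 5, 0, 8], [5, 4, 11], []], [[9, 10, 7, 2], [0, 0, 12, 10],
    [0, 7, 8], []], [[4, 5, 10, 7], [5, 8, 7, 5], [7, 2, 2], []], [[4, 9, 10, 6], [0, 2, 1, 10],
    [0, 5, 11], []], [[1, 9, 8, 3], [12, 12, 2, 7], [9, 0, 12], []], [[12, 7, 6], [5, 1, 5, 1],
    [7, 7], []], [[9, 4, 9, 7], [6, 3, 4, 3], [11, 6, 2], []], [[12, 4, 5, 3], [1, 7, 3, 11], [4,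
    11, 12], []], [[9, 12, 9, 1], [3, 8, 12, 7], [12, 11, 4], []], [[7, 4, 3, 11], [8, 3, 11, 11],
    [6, 11, 5], []], [[3, 12, 7, 11], [4, 10, 7, 2], [3, 9, 2], []]], 12, 0, [[], [7, 8, 11, 5, 0,
    9, 3, 10, 11, 6], [6, 5, 6, 0, 1, 1, 5, 3, 4], [0, 0, 9, 8, 12, 3, 5, 0, 11, 7]], [[], [4, 6,
    12, 6, 8, 8, 11], [2, 12, 2, 1, 11, 12, 1, 3], []]⟩

/-- Certificate 32. -/
def crt32 : Crt :=
  ⟨11, 4, [3, 1, 4, 4], [0, 3, 0, 0], [1, 1, 0, 0], [1, 0, 1, 1], [3, 1, 1, 10], [[1, 3], [4], [1,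
    1], [3, 1]], [[3, 5, 4, 4], [0, 0, 0, 4], [1, 4, 6, 4, 1], [7, 2, 1, 10, 10]], [[9, 10, 4],
    [0, 0, 0, 1], [4, 1, 1, 4], [2, 2, 8, 7]], [[4, 8, 7], [4, 7, 4], [], []], [[[2, 1], [2], [4],
    []], [[8, 3], [5], [4], []], [[6, 4], [5], [3], []], [[], [1], [], []], [[7, 7], [10], [9, 3],
    []]], 0, 0, [[], [0, 0, 1], [7, 3, 8, 3], [4, 8, 2, 8]], [[], [6, 5, 4], [8, 6], []]⟩

/-- Certificate 33. -/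
def crt33 : Crt :=
  ⟨7, 5, [3, 4, 4, 5], [1, 1, 0, 0], [1, 0, 1, 0], [1, 1, 1, 1], [6, 1, 6, 6], [[1, 3], [1, 1],
    [4, 1], [5, 1]], [[0, 6, 5, 1, 1], [0, 1, 4, 6, 4, 1], [3, 3, 2, 5, 6], [4, 4, 3, 2, 3, 6]],
    [[0, 4, 3, 1], [0, 4, 5, 5, 4], [3, 4, 1, 3], [4, 6, 6, 5, 2]], [[5, 3, 5, 1, 1], [4, 1, 2,
    6], [5], []], [[[4, 1], [3], [5, 5], []], [[4, 1], [2], [0, 4], []], [[4, 2], [], [0, 4], []],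
    [[1, 4], [6], [], []], [[2, 2], [3], [0, 5], []], [[1, 1], [1, 2], [0, 2], []]], 5, 0, [[],
    [0, 0, 2, 6, 2], [3, 4, 5], [4, 3, 0, 1, 5]], [[], [2, 1], [5, 5, 0, 1], []]⟩

/-- The types that use certificate 0. -/
def typ0 : List (List ℕ) :=
  [[2, 3, 7, 7], [2, 3, 7, 8], [2, 3, 7, 9], [2, 3, 7, 10], [2, 3, 7, 11], [2, 3, 7, 13], [2, 3,
    7, 14], [2, 3, 7, 16], [2, 3, 7, 17], [2, 3, 7, 19], [2, 3, 7, 20], [2, 3, 8, 8], [2, 3, 8,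
    10], [2, 3, 8, 11], [2, 4, 5, 5], [2, 4, 5, 6], [2, 4, 5, 7], [2, 4, 5, 9], [2, 4, 5, 10], [2,
    4, 5, 11], [2, 4, 5, 13], [2, 4, 6, 6], [2, 4, 6, 7], [2, 4, 7, 7]]

/-- The types that use certificate 1. -/
def typ1 : List (List ℕ) :=
  [[2, 3, 7, 12], [2, 3, 7, 15], [2, 3, 7, 18], [2, 3, 8, 9], [2, 3, 8, 12], [2, 3, 8, 13], [2, 3,
    8, 14], [2, 3, 8, 15], [2, 3, 10, 11], [2, 4, 5, 8]]

/-- The types that use certificate 2. -/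
def typ2 : List (List ℕ) :=
  [[2, 3, 7, 21], [2, 3, 7, 24], [2, 3, 7, 27], [2, 3, 7, 33]]

/-- The types that use certificate 3. -/
def typ3 : List (List ℕ) :=
  [[2, 3, 7, 22], [2, 3, 7, 23], [2, 3, 7, 25], [2, 3, 7, 26], [2, 3, 7, 29], [2, 3, 7, 31], [2,
    3, 7, 32], [2, 3, 7, 34], [2, 3, 8, 17], [2, 3, 8, 19], [2, 3, 9, 10], [2, 3, 9, 11], [2, 3,
    9, 13], [2, 3, 9, 14], [2, 5, 5, 6], [2, 5, 5, 7], [2, 5, 5, 8]]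

/-- The types that use certificate 4. -/
def typ4 : List (List ℕ) :=
  [[2, 3, 7, 28], [2, 3, 7, 30], [2, 3, 7, 37], [2, 3, 7, 38], [2, 3, 8, 16], [2, 3, 9, 16]]

/-- The types that use certificate 5. -/
def typ5 : List (List ℕ) :=
  [[2, 3, 7, 35]]

/-- The types that use certificate 6. -/
def typ6 : List (List ℕ) :=
  [[2, 3, 7, 36], [2, 3, 7, 39], [2, 3, 8, 20], [2, 3, 8, 21], [2, 3, 8, 22], [2, 3, 8, 23], [2,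
    3, 9, 15], [2, 3, 9, 17], [2, 3, 11, 12]]

/-- The types that use certificate 7. -/
def typ7 : List (List ℕ) :=
  [[2, 3, 7, 40]]

/-- The types that use certificate 8. -/
def typ8 : List (List ℕ) :=
  [[2, 3, 7, 41]]

/-- The types that use certificate 9. -/
def typ9 : List (List ℕ) :=
  [[2, 3, 8, 18], [2, 3, 10, 10], [2, 3, 10, 12], [2, 3, 10, 13]]

/-- The types that use certificate 10. -/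
def typ10 : List (List ℕ) :=
  [[2, 3, 9, 9], [2, 3, 9, 12]]

/-- The types that use certificate 11. -/
def typ11 : List (List ℕ) :=
  [[2, 3, 10, 14]]

/-- The types that use certificate 12. -/
def typ12 : List (List ℕ) :=
  [[2, 3, 11, 11]]

/-- The types that use certificate 13. -/
def typ13 : List (List ℕ) :=
  [[2, 3, 11, 13]]

/-- The types that use certificate 14. -/
def typ14 : List (List ℕ) :=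
  [[2, 4, 5, 12], [2, 4, 5, 14], [2, 4, 5, 16], [2, 4, 5, 17], [2, 4, 6, 9], [2, 4, 7, 8]]

/-- The types that use certificate 15. -/
def typ15 : List (List ℕ) :=
  [[2, 4, 5, 15]]

/-- The types that use certificate 16. -/
def typ16 : List (List ℕ) :=
  [[2, 4, 5, 18]]

/-- The types that use certificate 17. -/
def typ17 : List (List ℕ) :=
  [[2, 4, 5, 19]]

/-- The types that use certificate 18. -/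
def typ18 : List (List ℕ) :=
  [[2, 4, 6, 8]]

/-- The types that use certificate 19. -/
def typ19 : List (List ℕ) :=
  [[2, 4, 6, 10]]

/-- The types that use certificate 20. -/
def typ20 : List (List ℕ) :=
  [[2, 4, 6, 11]]

/-- The types that use certificate 21. -/
def typ21 : List (List ℕ) :=
  [[2, 4, 7, 9]]

/-- The types that use certificate 22. -/
def typ22 : List (List ℕ) :=
  [[2, 5, 5, 5]]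

/-- The types that use certificate 23. -/
def typ23 : List (List ℕ) :=
  [[2, 5, 5, 9]]

/-- The types that use certificate 24. -/
def typ24 : List (List ℕ) :=
  [[2, 5, 6, 6]]

/-- The types that use certificate 25. -/
def typ25 : List (List ℕ) :=
  [[2, 5, 6, 7]]

/-- The types that use certificate 26. -/
def typ26 : List (List ℕ) :=
  [[3, 3, 4, 4], [3, 3, 4, 6], [3, 3, 4, 9], [3, 3, 5, 6]]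

/-- The types that use certificate 27. -/
def typ27 : List (List ℕ) :=
  [[3, 3, 4, 5], [3, 3, 4, 7]]

/-- The types that use certificate 28. -/
def typ28 : List (List ℕ) :=
  [[3, 3, 4, 8], [3, 3, 4, 10]]

/-- The types that use certificate 29. -/
def typ29 : List (List ℕ) :=
  [[3, 3, 4, 11]]

/-- The types that use certificate 30. -/
def typ30 : List (List ℕ) :=
  [[3, 3, 5, 5]]

/-- The types that use certificate 31. -/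
def typ31 : List (List ℕ) :=
  [[3, 3, 5, 7]]

/-- The types that use certificate 32. -/
def typ32 : List (List ℕ) :=
  [[3, 4, 4, 4]]

/-- The types that use certificate 33. -/
def typ33 : List (List ℕ) :=
  [[3, 4, 4, 5]]

/-- The certificates with the types that use them. -/
def fam : List (Crt × List (List ℕ)) :=
  [(crt0, typ0), (crt1, typ1), (crt2, typ2), (crt3, typ3), (crt4, typ4), (crt5, typ5), (crt6,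
    typ6), (crt7, typ7), (crt8, typ8), (crt9, typ9), (crt10, typ10), (crt11, typ11), (crt12,
    typ12), (crt13, typ13), (crt14, typ14), (crt15, typ15), (crt16, typ16), (crt17, typ17),
    (crt18, typ18), (crt19, typ19), (crt20, typ20), (crt21, typ21), (crt22, typ22), (crt23,
    typ23), (crt24, typ24), (crt25, typ25), (crt26, typ26), (crt27, typ27), (crt28, typ28),
    (crt29, typ29), (crt30, typ30), (crt31, typ31), (crt32, typ32), (crt33, typ33)]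

/-- The numerical condition for the type `t` and the certificate `Z`. -/
def TypOk (Z : Crt) (t : List ℕ) : Prop :=
  (∀ i, 2 ≤ evf t i) ∧ (∀ i, 0 < evf Z.d i → evf t i = evf Z.a i) ∧
  Z.m * ordn (evf t) (evf Z.e) + ordn (evf t) (evf Z.e) / ordn (evf t) (evf Z.c) <
    ∑ i, Z.m * ordn (evf t) (evf Z.e) / evf t i

instance (Z : Crt) (t : List ℕ) : Decidable (TypOk Z t) := by unfold TypOk; infer_instance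

set_option maxRecDepth 100000 in
/-- All certificates and types are correct. -/
theorem fam_ok : ∀ q ∈ fam, q.1.chk = true ∧ ∀ t ∈ q.2, TypOk q.1 t := by decide +kernel

end Pool.Agent.BP
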