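import Pool.Agent.Lib.MP_410da7_agP.Defs

/-!
# Four lines (Brieskorn-Pham threefolds): definitions

`V = {x₁^(a₁) + x₂^(a₂) + x₃^(a₃) + x₄^(a₄) = 0} ⊆ 𝔸⁴`, `X = V ∖ {0}`. A special curve on `X` is obtained
from an identity `∑ γ_i s^(e_i) P_i(s)^(a_i) = 0` in one variable by the substitution `s = t^n`.
-/

set_option autoImplicit false

namespace Pool.Agent.BP

open Polynomial

noncomputable section

/-- The polynomial `∑ x_i^(a_i)`. -/
def bpPoly (a : Fin 4 → ℕ) : MvPolynomial (Fin 4) ℂ := ∑ i, MvPolynomial.X i ^ a i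

/-- The homogenisation, of degree `m`, of a polynomial `f` of degree `≤ m`, evaluated at `(A, B)`:
`∑_j f_j A^j B^(m-j)`. -/
def hom {k R : Type} [CommRing k] [CommRing R] [Algebra k R] (m : ℕ) (f : k[X]) (A B : R) : R :=
  ∑ j ∈ Finset.range (m + 1), algebraMap k R (f.coeff j) * A ^ j * B ^ (m - j)

/-- The `i`-th term `γ_i s^(e_i) P_i(s)^(a_i)` of the identity. -/
def trm {k : Type} [CommRing k] (a e : Fin 4 → ℕ) (γ : Fin 4 → k) (P : Fin 4 → k[X]) (i : Fin 4) :
    k[X] := C (γ i) * X ^ e i * P i ^ a i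

/-- The least common multiple of the numbers `a_i / gcd(a_i, e_i)`. -/
def ordn (a e : Fin 4 → ℕ) : ℕ :=
  Nat.lcm (Nat.lcm (a 0 / Nat.gcd (a 0) (e 0)) (a 1 / Nat.gcd (a 1) (e 1)))
    (Nat.lcm (a 2 / Nat.gcd (a 2) (e 2)) (a 3 / Nat.gcd (a 3) (e 3)))

/-- The rational function `s` is a quotient of two forms of equal degree in the four polynomials
`T_i(s)`: the parametrised plane curve `s ↦ (T_i(s))` is birational onto its image. -/
def IsBir (T : Fin 4 → ℂ[X]) : Prop :=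
  ∃ (δ : ℕ) (R₁ R₂ : MvPolynomial (Fin 4) ℂ), R₁.IsHomogeneous δ ∧ R₂.IsHomogeneous δ ∧
    MvPolynomial.aeval T R₂ ≠ 0 ∧ MvPolynomial.aeval T R₁ = X * MvPolynomial.aeval T R₂

/-- The identity `∑ γ_i s^(e_i) P_i^(a_i) = 0`, all of whose terms have degree `≤ m`
(`e_i + c_i + a_i d_i = m`: the `i`-th term vanishes to order `e_i` at `0` and to order `c_i` at `∞`),
without common zero on the projective line, and birational onto its image. -/
structure Football (a e c d : Fin 4 → ℕ) (m : ℕ) (γ : Fin 4 → ℂ) (P : Fin 4 → ℂ[X]) : Prop where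
  two : ∀ i, 2 ≤ a i
  pos : 0 < m
  sum : ∀ i, e i + c i + a i * d i = m
  deg : ∀ i, (P i).natDegree = d i
  const : ∀ i, (P i).coeff 0 ≠ 0
  gam : ∀ i, γ i ≠ 0
  eq : ∑ i, trm a e γ P i = 0
  cop : Ideal.span (Set.range (trm a e γ P)) = ⊤
  top : ∃ i, c i = 0
  bir : IsBir (trm a e γ P)

/-- Index set of the coefficients of four polynomials of degrees `≤ D_i`. -/
abbrev Ix (D : Fin 4 → ℕ) : Type := Σ i : Fin 4, Fin (D i + 1)

/-- The four polynomials with coefficients `b`. -/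
def crv {R : Type} [CommRing R] (D : Fin 4 → ℕ) (b : Ix D → R) (i : Fin 4) : R[X] :=
  ∑ j : Fin (D i + 1), C (b ⟨i, j⟩) * X ^ (j : ℕ)

/-- The equations for the coefficients: the coefficient of `t^k` of `∑ x_i(t)^(a_i)`. -/
def eqn (a D : Fin 4 → ℕ) (k : ℕ) : MvPolynomial (Ix D) ℂ :=
  (∑ i, crv D (fun q => (MvPolynomial.X q : MvPolynomial (Ix D) ℂ)) i ^ a i).coeff k

/-- The point `u` is a specialisation of the point `b`: polynomials that vanish at `b` vanish
at `u`. -/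
def Spec {σ F : Type} [Field F] [Algebra ℂ F] (b : σ → F) (u : σ → ℂ) : Prop :=
  ∀ Q : MvPolynomial σ ℂ, MvPolynomial.aeval b Q = 0 → MvPolynomial.eval u Q = 0

end

end Pool.Agent.BP
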