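import Pool.Agent.Lib.MP_410da7_agBP.Defs

/-!
# Four lines: definitions for the certificates

Identities over finite fields: structure `FbOn`, and a checker `Crt.chk` on lists of natural numbers.
-/

set_option autoImplicit false

namespace Pool.Agent.BP

open Polynomial

noncomputable section

/-- A point certificate for birationality, at the point `c`: the polynomials
`(T_i T_l(c) - T_l T_i(c)) / (X - c)` generate the unit ideal and one of them has degree `m - 1`. -/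
def PtAt {k : Type} [Field k] (m : ℕ) (T : Fin 4 → k[X]) (c : k) (l : Fin 4) : Prop :=
  (T l).eval c ≠ 0 ∧ (∃ h : Fin 4 → k[X], Ideal.span (Set.range h) = ⊤ ∧
    ∀ i, (X - C c) * h i = T i * C ((T l).eval c) - T l * C ((T i).eval c)) ∧
    ∃ i, (T i).coeff m * (T l).eval c ≠ (T l).coeff m * (T i).eval c

/-- A football identity over a field `k` with a point certificate. -/
structure FbOn (k : Type) [Field k] (a e c d : Fin 4 → ℕ) (m : ℕ) (γ : Fin 4 → k)
    (P : Fin 4 → k[X]) : Prop where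
  pos : 0 < m
  sum : ∀ i, e i + c i + a i * d i = m
  deg : ∀ i, (P i).natDegree = d i
  const : ∀ i, (P i).coeff 0 ≠ 0
  gam : ∀ i, γ i ≠ 0
  eq : ∑ i, trm a e γ P i = 0
  cop : Ideal.span (Set.range (trm a e γ P)) = ⊤
  top : ∃ i, c i = 0
  pt : ∃ (c₀ : k) (l : Fin 4), PtAt m (trm a e γ P) c₀ l

/-- The derivative of the identity with respect to the coefficients of the `P_i` is onto the
polynomials of degree `≤ m`. -/
def Sur {k : Type} [Field k] (a e d : Fin 4 → ℕ) (m : ℕ) (γ : Fin 4 → k) (P : Fin 4 → k[X]) :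
    Prop :=
  ∀ j ≤ m, ∃ δ : Ix d → k,
    ∑ i, C (γ i * (a i : k)) * X ^ e i * P i ^ (a i - 1) * crv d δ i = X ^ j

/-- The `i`-th entry of a list. -/
def evf (l : List ℕ) : Fin 4 → ℕ := fun i => l.getD i 0

/-- The polynomial over `ZMod p` with the coefficients `l`. -/
def ofL (p : ℕ) (l : List ℕ) : (ZMod p)[X] := l.foldr (fun c f => C (c : ZMod p) + X * f) 0

end

/-- Sum of two polynomials. -/
def addL : List ℕ → List ℕ → List ℕ
  | [], l => l
  | a :: l, [] => a :: l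
  | a :: l, b :: l' => (a + b) :: addL l l'

/-- Product of two polynomials. -/
def mulL (p : ℕ) : List ℕ → List ℕ → List ℕ
  | [], _ => []
  | a :: l, l' => addL (l'.map fun b => a * b % p) (0 :: mulL p l l')

/-- Powers. -/
def powL (p : ℕ) (l : List ℕ) : ℕ → List ℕ
  | 0 => [1]
  | n + 1 => mulL p l (powL p l n)

/-- Product with `X^n`. -/
def shL (n : ℕ) (l : List ℕ) : List ℕ := List.replicate n 0 ++ l

/-- Equality mod `p`. -/
def eqL (p : ℕ) : List ℕ → List ℕ → Bool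
  | [], l => l.all fun b => b % p == 0
  | a :: l, [] => a % p == 0 && l.all fun b => b % p == 0
  | a :: l, b :: l' => a % p == b % p && eqL p l l'

/-- Value at `x`. -/
def evL (p : ℕ) (x : ℕ) : List ℕ → ℕ
  | [] => 0
  | a :: l => (a + x * evL p x l) % p

/-- Sum of four polynomials. -/
def sumL (f : ℕ → List ℕ) : List ℕ := addL (addL (f 0) (f 1)) (addL (f 2) (f 3))

/-- Conjunction. -/
def four (f : ℕ → Bool) : Bool := f 0 && f 1 && f 2 && f 3

/-- Data of a certificate. -/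
structure Crt where
  p : ℕ
  m : ℕ
  a : List ℕ
  e : List ℕ
  c : List ℕ
  d : List ℕ
  g : List ℕ
  P : List (List ℕ)
  T : List (List ℕ)
  B : List (List ℕ)
  U : List (List ℕ)
  D : List (List (List ℕ))
  s : ℕ
  l : ℕ
  h : List (List ℕ)
  W : List (List ℕ)

/-- The checker. -/
def Crt.chk (Z : Crt) : Bool :=
  (Z.p == 5 || Z.p == 7 || Z.p == 11 || Z.p == 13) && decide (0 < Z.m) && decide (Z.l < 4) &&
  four (fun i => Z.e.getD i 0 + Z.c.getD i 0 + Z.a.getD i 0 * Z.d.getD i 0 == Z.m &&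
    (Z.P.getD i []).length == Z.d.getD i 0 + 1 && (Z.P.getD i []).getD 0 0 % Z.p != 0 &&
    (Z.P.getD i []).getD (Z.d.getD i 0) 0 % Z.p != 0 && Z.g.getD i 0 % Z.p != 0 &&
    decide (1 ≤ Z.a.getD i 0)) &&
  (Z.c.getD 0 0 == 0 || Z.c.getD 1 0 == 0 || Z.c.getD 2 0 == 0 || Z.c.getD 3 0 == 0) &&
  four (fun i => eqL Z.p (Z.T.getD i [])
    (mulL Z.p [Z.g.getD i 0] (shL (Z.e.getD i 0) (powL Z.p (Z.P.getD i []) (Z.a.getD i 0)))) &&
    eqL Z.p (Z.B.getD i []) (mulL Z.p [Z.g.getD i 0 * Z.a.getD i 0]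
      (shL (Z.e.getD i 0) (powL Z.p (Z.P.getD i []) (Z.a.getD i 0 - 1))))) &&
  eqL Z.p (sumL fun i => Z.T.getD i []) [] &&
  eqL Z.p (sumL fun i => mulL Z.p (Z.U.getD i []) (Z.T.getD i [])) [1] &&
  (List.range (Z.m + 1)).all (fun j =>
    four (fun i => decide (((Z.D.getD j []).getD i []).length ≤ Z.d.getD i 0 + 1)) &&
    eqL Z.p (sumL fun i => mulL Z.p ((Z.D.getD j []).getD i []) (Z.B.getD i [])) (shL j [1])) &&
  evL Z.p Z.s (Z.T.getD Z.l []) % Z.p != 0 &&
  four (fun i => eqL Z.p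
    (addL (mulL Z.p [Z.p - Z.s % Z.p, 1] (Z.h.getD i []))
      (mulL Z.p [evL Z.p Z.s (Z.T.getD i [])] (Z.T.getD Z.l [])))
    (mulL Z.p [evL Z.p Z.s (Z.T.getD Z.l [])] (Z.T.getD i []))) &&
  eqL Z.p (sumL fun i => mulL Z.p (Z.W.getD i []) (Z.h.getD i [])) [1] &&
  !(four fun i => (Z.T.getD i []).getD Z.m 0 * evL Z.p Z.s (Z.T.getD Z.l []) % Z.p ==
    (Z.T.getD Z.l []).getD Z.m 0 * evL Z.p Z.s (Z.T.getD i []) % Z.p)

end Pool.Agent.BP
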