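import Pool.Agent.Lib.MP_410da7_agBP.SpecA
import Pool.Agent.Lib.MP_410da7_agP.Gen

/-! Package BP, module Gn: generic points specialising to a given point. -/

set_option autoImplicit false

namespace Pool.Agent.BP

open MvPolynomial Pool.Agent.PC

theorem stmtGn : StmtGn := by
  classical
  intro σ τ _ _ E u hE
  let I : Ideal (MvPolynomial σ ℂ) := Ideal.span (Set.range E)
  let m : Ideal (MvPolynomial σ ℂ) := RingHom.ker (eval u)
  have hm : m.IsPrime := RingHom.ker_isPrime _
  have hIm : I ≤ m := by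
    rw [Ideal.span_le]
    rintro _ ⟨t, rfl⟩
    exact hE t
  obtain ⟨q, hq, hqm⟩ := Ideal.exists_minimalPrimes_le hIm
  have hqp : q.IsPrime := hq.1.1
  let F : Type := FractionRing (MvPolynomial σ ℂ ⧸ q)
  let ι : MvPolynomial σ ℂ →ₐ[ℂ] F :=
    (IsScalarTower.toAlgHom ℂ (MvPolynomial σ ℂ ⧸ q) F).comp (Ideal.Quotient.mkₐ ℂ q)
  let b : σ → F := fun s => ι (X s)
  have hι : ι = aeval b := by
    ext s : 1
    rw [aeval_X]
  have hker : ∀ P, aeval b P = 0 ↔ P ∈ q := by
    intro P
    rw [← hι]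
    change algebraMap (MvPolynomial σ ℂ ⧸ q) F (Ideal.Quotient.mk q P) = 0 ↔ _
    rw [map_eq_zero_iff _ (IsFractionRing.injective (MvPolynomial σ ℂ ⧸ q) F),
      Ideal.Quotient.eq_zero_iff_mem]
  refine ⟨F, inferInstance, inferInstance, b, ?_, ?_, ?_, ?_⟩
  · intro t
    rw [hker]
    exact hq.1.2 (Ideal.subset_span ⟨t, rfl⟩)
  · intro Q hQ
    rw [hker] at hQ
    exact hqm hQ
  · rw [eq_top_iff]
    intro y _
    obtain ⟨u, v, hv, rfl⟩ := IsFractionRing.div_surjective (A := MvPolynomial σ ℂ ⧸ q) y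
    have hmem : ∀ u : MvPolynomial σ ℂ ⧸ q, algebraMap (MvPolynomial σ ℂ ⧸ q) F u ∈
        IntermediateField.adjoin ℂ (Set.range b) := by
      intro u
      obtain ⟨P, rfl⟩ := Ideal.Quotient.mk_surjective u
      have h1 : algebraMap (MvPolynomial σ ℂ ⧸ q) F (Ideal.Quotient.mk q P) = aeval b P := by
        rw [← hι]
        rfl
      rw [h1]
      have h2 : aeval b P ∈ Algebra.adjoin ℂ (Set.range b) := by
        rw [Algebra.adjoin_range_eq_range_aeval]
        exact ⟨P, rfl⟩
      exact IntermediateField.algebra_adjoin_le_adjoin ℂ _ h2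
    exact div_mem (hmem u) (hmem v)
  · obtain ⟨U0, hU0, hle⟩ := GenM.card_le (L := ℂ) b
    have h1 : RingHom.ker (aeval b : MvPolynomial σ ℂ →ₐ[ℂ] F) = q := by
      ext P
      rw [RingHom.mem_ker, hker]
    rw [h1] at hle
    have h2 : q.height ≤ (Set.range E).ncard :=
      Ideal.height_le_card_of_mem_minimalPrimes_span (Set.finite_range E) hq
    have h3 : (Set.range E).ncard ≤ Fintype.card τ := by
      rw [← Set.image_univ]
      refine (Set.ncard_image_le Set.finite_univ).trans ?_
      rw [Set.ncard_univ, Nat.card_eq_fintype_card]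
    have h4 : Fintype.card σ ≤ U0.card + Fintype.card τ := by
      have h5 : (Fintype.card σ : ℕ∞) ≤ (U0.card : ℕ∞) + (Fintype.card τ : ℕ∞) :=
        hle.trans (add_le_add_right (h2.trans (by exact_mod_cast h3)) _)
      exact_mod_cast h5
    have h6 := AlgebraicIndependent.cardinalMk_le_trdeg hU0
    have h7 : (U0.card : Cardinal) ≤ Algebra.trdeg ℂ F := by
      refine le_trans (le_of_eq ?_) h6
      simp
    calc (Fintype.card σ : Cardinal) ≤ ((U0.card + Fintype.card τ : ℕ) : Cardinal) := by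
          exact_mod_cast h4
      _ = (U0.card : Cardinal) + (Fintype.card τ : Cardinal) := by push_cast; rfl
      _ ≤ _ := add_le_add_left h7 _

end Pool.Agent.BP
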