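import Pool.Agent.Lib.MP_410da7_agBP.SpecA

set_option autoImplicit false

/-! Two proportional vectors without common zeros. -/

namespace Pool.Agent.BP.KapM

open Polynomial

/-- Polynomials over an algebraically closed field without a common root generate the unit ideal. -/
private theorem unit_of_no_root {L : Type} [Field L] [IsAlgClosed L] (s : Fin 4 → L[X])
    (h : ∀ r : L, ∃ i, (s i).eval r ≠ 0) : ∃ w : Fin 4 → L[X], ∑ i, w i * s i = 1 := by
  set J : Ideal L[X] := Ideal.span (Set.range s) with hJ
  set g := Submodule.IsPrincipal.generator J with hg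
  have hgd : ∀ i, g ∣ s i := fun i =>
    (Submodule.IsPrincipal.mem_iff_generator_dvd J).mp (Ideal.subset_span ⟨i, rfl⟩)
  have hJt : J = ⊤ := by
    by_cases hu : IsUnit g
    · have : Ideal.span {g} = J := Ideal.span_singleton_generator J
      rw [← this]
      exact Ideal.span_singleton_eq_top.mpr hu
    · exfalso
      by_cases h0 : g = 0
      · obtain ⟨i, hi⟩ := h 0
        apply hi
        have := hgd i
        rw [h0, zero_dvd_iff] at this
        rw [this, eval_zero]
      · have hdeg : g.degree ≠ 0 := by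
          intro hd
          exact hu (isUnit_iff_degree_eq_zero.mpr hd)
        obtain ⟨r, hr⟩ := IsAlgClosed.exists_root g hdeg
        obtain ⟨i, hi⟩ := h r
        apply hi
        obtain ⟨q, hq⟩ := hgd i
        rw [hq, eval_mul, hr.eq_zero, zero_mul]
  have h1 : (1 : L[X]) ∈ J := by
    rw [hJt]
    trivial
  exact Ideal.mem_span_range_iff_exists_fun.mp h1

end Pool.Agent.BP.KapM

namespace Pool.Agent.BP

open Polynomial KapM

theorem stmtKap : StmtNz → StmtHom → StmtKap := by
  intro hNz hHom a e c d m γ P hF L _ _ _ x A B hAB hx hrel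
  obtain ⟨hH1, -⟩ := hHom
  have ha : ∀ i, 0 < a i := fun i => lt_of_lt_of_le (by norm_num) (hF.two i)
  set Z : Fin 4 → L[X] := fun i => hom m (trm a e γ P i) A B with hZ
  have hZr : ∀ r : L, ∃ i, (Z i).eval r ≠ 0 := by
    intro r
    have hne : A.eval r ≠ 0 ∨ B.eval r ≠ 0 := by
      by_contra hcon
      push Not at hcon
      obtain ⟨s, t, hst⟩ := hAB
      have h1 := congrArg (eval r) hst
      rw [eval_add, eval_mul, eval_mul, hcon.1, hcon.2, mul_zero, mul_zero, add_zero,
        eval_one] at h1
      exact zero_ne_one h1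
    obtain ⟨i, hi⟩ := hNz a e c d m γ P hF L (A.eval r) (B.eval r) hne
    refine ⟨i, ?_⟩
    have h1 := hH1 ℂ L[X] L ((aeval r).restrictScalars ℂ) m (trm a e γ P i) A B
    simp only [AlgHom.coe_restrictScalars', coe_aeval_eq_eval] at h1
    change eval r (hom m (trm a e γ P i) A B) ≠ 0
    rw [h1]
    exact hi
  have hxr : ∀ r : L, ∃ i, ((fun i => x i ^ a i) i).eval r ≠ 0 := by
    intro r
    by_contra hcon
    have h2 : ∀ i, (x i).eval r = 0 := fun i => by
      by_contra h
      refine hcon ⟨i, ?_⟩
      simp only [eval_pow]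
      exact pow_ne_zero _ h
    have h4 : (1 : L[X]) ∈ Ideal.span (Set.range x) := by
      rw [hx]
      trivial
    obtain ⟨w, hw⟩ := Ideal.mem_span_range_iff_exists_fun.mp h4
    have h5 := congrArg (eval r) hw
    rw [eval_finset_sum, eval_one] at h5
    simp only [eval_mul, h2, mul_zero, Finset.sum_const_zero] at h5
    exact zero_ne_one h5
  obtain ⟨b, hb⟩ := unit_of_no_root Z hZr
  obtain ⟨b', hb'⟩ := unit_of_no_root (fun i => x i ^ a i) hxr
  have h1 : ∀ i, (∑ j, b j * x j ^ a j) * Z i = x i ^ a i := by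
    intro i
    calc (∑ j, b j * x j ^ a j) * Z i = ∑ j, b j * (x j ^ a j * Z i) := by
          rw [Finset.sum_mul]
          exact Finset.sum_congr rfl fun j _ => by ring
      _ = ∑ j, x i ^ a i * (b j * Z j) := by
          refine Finset.sum_congr rfl fun j _ => ?_
          have h := hrel i j
          change x i ^ a i * Z j = x j ^ a j * Z i at h
          rw [← h]
          ring
      _ = x i ^ a i := by rw [← Finset.mul_sum, hb, mul_one]
  have h2 : ∀ i, (∑ j, b' j * Z j) * x i ^ a i = Z i := by
    intro i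
    calc (∑ j, b' j * Z j) * x i ^ a i = ∑ j, b' j * (x i ^ a i * Z j) := by
          rw [Finset.sum_mul]
          exact Finset.sum_congr rfl fun j _ => by ring
      _ = ∑ j, Z i * (b' j * x j ^ a j) := by
          refine Finset.sum_congr rfl fun j _ => ?_
          have h := hrel i j
          change x i ^ a i * Z j = x j ^ a j * Z i at h
          rw [h]
          ring
      _ = Z i := by rw [← Finset.mul_sum, hb', mul_one]
  obtain ⟨i₀, hi₀⟩ := hxr 0
  have hne : x i₀ ^ a i₀ ≠ 0 := by
    intro h
    apply hi₀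
    change eval 0 (x i₀ ^ a i₀) = 0
    rw [h, eval_zero]
  have h3 : (∑ j, b j * x j ^ a j) * (∑ j, b' j * Z j) = 1 := by
    have h4 : (∑ j, b j * x j ^ a j) * (∑ j, b' j * Z j) * x i₀ ^ a i₀ = 1 * x i₀ ^ a i₀ := by
      rw [mul_assoc, h2 i₀, h1 i₀, one_mul]
    exact mul_right_cancel₀ hne h4
  have hu : IsUnit (∑ j, b j * x j ^ a j) := IsUnit.of_mul_eq_one _ h3
  obtain ⟨κ, hκ, hκe⟩ := isUnit_iff.mp hu
  refine ⟨κ, hκ.ne_zero, fun i => ?_⟩
  rw [hκe]
  exact (h1 i).symm

end Pool.Agent.BP
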