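import Pool.Agent.Lib.MP_410da7_agBP.SpecB

/-!
# Four lines: lifting an identity from `ZMod p` to `ℂ`
-/

set_option autoImplicit false

namespace Pool.Agent.BP

open Polynomial

noncomputable section

namespace LiftM

private theorem crv_map {R S : Type} [CommRing R] [CommRing S] (D : Fin 4 → ℕ) (φ : R →+* S)
    (b : Ix D → R) (i : Fin 4) : (crv D b i).map φ = crv D (fun q => φ (b q)) i := by
  unfold crv
  rw [Polynomial.map_sum]
  apply Finset.sum_congr rfl
  intro j _
  rw [Polynomial.map_mul, Polynomial.map_C, Polynomial.map_pow, Polynomial.map_X]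

private theorem crv_natDegree {R : Type} [CommRing R] (D : Fin 4 → ℕ) (b : Ix D → R) (i : Fin 4) :
    (crv D b i).natDegree ≤ D i := by
  unfold crv
  apply natDegree_sum_le_of_forall_le
  intro j _
  refine (natDegree_C_mul_X_pow_le _ _).trans ?_
  have := j.2
  omega

private theorem crv_coeff {R : Type} [CommRing R] (D : Fin 4 → ℕ) (b : Ix D → R) (i : Fin 4)
    (k : Fin (D i + 1)) : (crv D b i).coeff k = b ⟨i, k⟩ := by
  unfold crv
  rw [finsetSum_coeff, Finset.sum_eq_single k]
  · rw [coeff_C_mul_X_pow, if_pos rfl]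
  · intro j _ hj
    rw [coeff_C_mul_X_pow, if_neg]
    intro h
    apply hj
    apply Fin.ext
    exact h.symm
  · intro h
    exact absurd (Finset.mem_univ _) h

private theorem crv_eq {R : Type} [CommRing R] (D : Fin 4 → ℕ) (P : Fin 4 → R[X])
    (h : ∀ i, (P i).natDegree ≤ D i) (i : Fin 4) :
    crv D (fun q => (P q.1).coeff q.2) i = P i := by
  ext n
  by_cases hn : n ≤ D i
  · have h1 := crv_coeff D (fun q => (P q.1).coeff q.2) i ⟨n, by omega⟩
    exact h1
  · rw [coeff_eq_zero_of_natDegree_lt (lt_of_le_of_lt (crv_natDegree _ _ _) (by omega)),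
      coeff_eq_zero_of_natDegree_lt (lt_of_le_of_lt (h i) (by omega))]

private theorem crv_add {R : Type} [CommRing R] (D : Fin 4 → ℕ) (b b' : Ix D → R) (i : Fin 4) :
    crv D (fun q => b q + b' q) i = crv D b i + crv D b' i := by
  unfold crv
  rw [← Finset.sum_add_distrib]
  apply Finset.sum_congr rfl
  intro j _
  rw [C_add]
  ring

private theorem crv_smul {R : Type} [CommRing R] (D : Fin 4 → ℕ) (c : R) (b : Ix D → R)
    (i : Fin 4) : crv D (fun q => c * b q) i = C c * crv D b i := by
  unfold crv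
  rw [Finset.mul_sum]
  apply Finset.sum_congr rfl
  intro j _
  rw [C_mul]
  ring

/-- powers of `x + h` with `h ^ 2 = 0` -/
private theorem add_pow_sq_zero {R : Type} [CommRing R] (x h : R) (hh : h * h = 0) (n : ℕ) :
    (x + h) ^ n = x ^ n + (n : R) * x ^ (n - 1) * h := by
  induction n with
  | zero => simp
  | succ n ih =>
    rw [pow_succ, ih]
    rcases n with _ | n
    · simp
    · have e : n + 1 + 1 - 1 = n + 1 := rfl
      rw [e, Nat.add_sub_cancel]
      push_cast
      have h2 : (x ^ (n + 1) + ((n : R) + 1) * x ^ n * h) * (x + h) =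
          x ^ (n + 1 + 1) + ((n : R) + 1 + 1) * x ^ (n + 1) * h +
            ((n : R) + 1) * x ^ n * (h * h) := by
        ring
      rw [h2, hh, mul_zero, add_zero]

/-- Taylor expansion over the dual numbers -/
private theorem taylor {σ k : Type} [Fintype σ] [DecidableEq σ] [Field k] (b δ : σ → k)
    (Q : MvPolynomial σ k) :
    MvPolynomial.aeval (fun s => (TrivSqZeroExt.inl (b s) + TrivSqZeroExt.inr (δ s) :
      TrivSqZeroExt k k)) Q =
      TrivSqZeroExt.inl (MvPolynomial.eval b Q) +
        TrivSqZeroExt.inr (∑ s, MvPolynomial.eval b (MvPolynomial.pderiv s Q) * δ s) := by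
  induction Q using MvPolynomial.induction_on with
  | C c =>
    simp only [MvPolynomial.algHom_C, MvPolynomial.eval_C, MvPolynomial.pderiv_C, map_zero,
      zero_mul, Finset.sum_const_zero, TrivSqZeroExt.inr_zero, add_zero]
    rfl
  | add P Q hP hQ =>
    rw [map_add, hP, hQ]
    apply TrivSqZeroExt.ext
    · simp
    · simp [add_mul, Finset.sum_add_distrib]
  | mul_X P s hP =>
    rw [map_mul, hP, MvPolynomial.aeval_X]
    apply TrivSqZeroExt.ext
    · simp
    · have h1 : ∀ t, MvPolynomial.eval b (MvPolynomial.pderiv t (P * MvPolynomial.X s)) * δ t =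
          (MvPolynomial.eval b (MvPolynomial.pderiv t P) * δ t) * b s +
            (if t = s then MvPolynomial.eval b P * δ t else 0) := by
        intro t
        rw [Derivation.leibniz, MvPolynomial.pderiv_X]
        simp only [smul_eq_mul, map_add, map_mul, MvPolynomial.eval_X]
        by_cases hts : t = s
        · subst hts
          simp
          ring
        · rw [if_neg hts, Pi.single_eq_of_ne (fun h => hts h.symm)]
          simp
          ring
      simp only [h1, Finset.sum_add_distrib, Finset.sum_ite_eq', Finset.mem_univ, if_true]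
      simp [← Finset.sum_mul]
      ring

/-- the universal terms -/
private def sys {S : Type} [CommRing S] (a e d : Fin 4 → ℕ) (g : Fin 4 → S) (i : Fin 4) :
    (MvPolynomial (Ix d) S)[X] :=
  C (MvPolynomial.C (g i)) * X ^ e i * crv d (fun q => (MvPolynomial.X q : MvPolynomial (Ix d) S)) i ^ a i

private theorem sys_eval {S S' : Type} [CommRing S] [CommRing S'] (a e d : Fin 4 → ℕ)
    (g : Fin 4 → S) (f : S →+* S') (c : Ix d → S') (i : Fin 4) :
    (sys a e d g i).map (MvPolynomial.eval₂Hom f c) = C (f (g i)) * X ^ e i * crv d c i ^ a i := by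
  unfold sys
  rw [Polynomial.map_mul, Polynomial.map_mul, Polynomial.map_pow, Polynomial.map_pow,
    Polynomial.map_C, Polynomial.map_X, crv_map]
  simp only [MvPolynomial.eval₂Hom_C, MvPolynomial.eval₂Hom_X']

private theorem sys_map {S S' : Type} [CommRing S] [CommRing S'] (a e d : Fin 4 → ℕ)
    (g : Fin 4 → S) (f : S →+* S') (i : Fin 4) :
    (sys a e d g i).map (MvPolynomial.map f) = sys a e d (fun i => f (g i)) i := by
  unfold sys
  rw [Polynomial.map_mul, Polynomial.map_mul, Polynomial.map_pow, Polynomial.map_pow,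
    Polynomial.map_C, Polynomial.map_X, crv_map]
  simp only [MvPolynomial.map_C, MvPolynomial.map_X]

/-- the derivative of the system -/
private theorem deriv_sys {k : Type} [Field k] (a e d : Fin 4 → ℕ) (γ : Fin 4 → k)
    (P : Fin 4 → k[X]) (b₀ δ : Ix d → k) (hb : ∀ i, crv d b₀ i = P i) (t : ℕ) :
    ∑ s, MvPolynomial.eval b₀ (MvPolynomial.pderiv s ((∑ i, sys a e d γ i).coeff t)) * δ s =
      (∑ i, C (γ i * (a i : k)) * X ^ e i * P i ^ (a i - 1) * crv d δ i).coeff t := by
  classical
  set ι : k →+* TrivSqZeroExt k k := TrivSqZeroExt.inlHom k k with hι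
  set ε : TrivSqZeroExt k k := TrivSqZeroExt.inr 1 with hεd
  have hε : ε * ε = 0 := TrivSqZeroExt.inr_mul_inr k 1 1
  have h3 : ∀ z : k, TrivSqZeroExt.snd (ι z) = 0 := fun z => rfl
  have h4 : ∀ z : k, ε * ι z = TrivSqZeroExt.inr z := by
    intro z
    have h := TrivSqZeroExt.inr_mul_inl (R := k) (M := k) z 1
    rw [op_smul_eq_smul, smul_eq_mul, mul_one] at h
    exact h
  set c : Ix d → TrivSqZeroExt k k :=
    fun s => (TrivSqZeroExt.inl (b₀ s) + TrivSqZeroExt.inr (δ s)) with hcd
  have hc : c = fun s => ι (b₀ s) + ε * ι (δ s) := by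
    funext s
    rw [h4]
    rfl
  have hcrv : ∀ i, crv d c i = (P i).map ι + C ε * (crv d δ i).map ι := by
    intro i
    rw [hc, crv_add, crv_smul, ← hb i, crv_map, crv_map]
  have hsq : ∀ i, (C ε * (crv d δ i).map ι) * (C ε * (crv d δ i).map ι) = 0 := by
    intro i
    have : (C ε * (crv d δ i).map ι) * (C ε * (crv d δ i).map ι) =
        C (ε * ε) * ((crv d δ i).map ι * (crv d δ i).map ι) := by
      rw [C_mul]
      ring
    rw [this, hε, C_0, zero_mul]
  have hW : (∑ i, sys a e d γ i).map (MvPolynomial.eval₂Hom ι c) =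
      (∑ i, C (γ i) * X ^ e i * P i ^ a i).map ι +
        C ε * (∑ i, C (γ i * (a i : k)) * X ^ e i * P i ^ (a i - 1) * crv d δ i).map ι := by
    rw [Polynomial.map_sum, Polynomial.map_sum, Polynomial.map_sum, Finset.mul_sum,
      ← Finset.sum_add_distrib]
    apply Finset.sum_congr rfl
    intro i _
    rw [sys_eval, hcrv, add_pow_sq_zero _ _ (hsq i)]
    simp only [Polynomial.map_mul, Polynomial.map_pow, Polynomial.map_C, Polynomial.map_X, map_mul,
      map_natCast, Polynomial.map_natCast]
    ring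
  have hT := taylor b₀ δ ((∑ i, sys a e d γ i).coeff t)
  have hA : MvPolynomial.aeval (fun s => (TrivSqZeroExt.inl (b₀ s) + TrivSqZeroExt.inr (δ s) :
      TrivSqZeroExt k k)) ((∑ i, sys a e d γ i).coeff t) =
      ((∑ i, sys a e d γ i).map (MvPolynomial.eval₂Hom ι c)).coeff t := by
    rw [coeff_map]
    rfl
  rw [hA, hW] at hT
  have hS := congrArg TrivSqZeroExt.snd hT
  simp only [coeff_add, coeff_map, coeff_C_mul, TrivSqZeroExt.snd_add, TrivSqZeroExt.snd_inl,
    TrivSqZeroExt.snd_inr, zero_add, h3, h4] at hS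
  exact hS.symm

private theorem unit_of_ne {p : ℕ} [Fact p.Prime] (x : ℤ_[p]) (h : PadicInt.toZMod x ≠ 0) :
    IsUnit x := by
  by_contra hx
  apply h
  have h1 : x ∈ IsLocalRing.maximalIdeal ℤ_[p] := (IsLocalRing.mem_maximalIdeal x).2 hx
  rw [← PadicInt.ker_toZMod] at h1
  exact h1

end LiftM

open LiftM in
theorem stmtLift : StmtNewt → StmtEmb → StmtLpt → StmtLco → StmtLift := by
  classical
  intro hNewt hEmb hLpt hLco p _ a e c d m γ P hF hS
  have hψs : Function.Surjective (PadicInt.toZMod : ℤ_[p] →+* ZMod p) :=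
    ZMod.ringHom_surjective _
  choose g hg using fun i => hψs (γ i)
  set b₀ : Ix d → ZMod p := fun q => (P q.1).coeff q.2 with hb₀
  have hcb : ∀ i, crv d b₀ i = P i := crv_eq d P (fun i => (hF.deg i).le)
  have hγ : (fun i => (PadicInt.toZMod (g i) : ZMod p)) = γ := _root_.funext hg
  -- the system
  have hmapE : ∀ t : ℕ, MvPolynomial.map PadicInt.toZMod ((∑ i, sys a e d g i).coeff t) =
      (∑ i, sys a e d γ i).coeff t := by
    intro t
    rw [← coeff_map, Polynomial.map_sum]
    simp only [sys_map]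
    rw [hγ]
  have hev : ∀ (S : Type) [CommRing S] (f : ℤ_[p] →+* S) (z : Ix d → S) (t : ℕ),
      MvPolynomial.eval₂Hom f z ((∑ i, sys a e d g i).coeff t) =
        (∑ i, C (f (g i)) * X ^ e i * crv d z i ^ a i).coeff t := by
    intro S _ f z t
    rw [← coeff_map, Polynomial.map_sum]
    simp only [sys_eval]
  obtain ⟨δ, hδ⟩ : ∃ δ : Fin (m + 1) → Ix d → ZMod p, ∀ j,
      ∑ i, C (γ i * (a i : ZMod p)) * X ^ e i * P i ^ (a i - 1) * crv d (δ j) i = X ^ (j : ℕ) := by
    choose δ hδ using fun j : Fin (m + 1) => hS j (by have := j.2; omega)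
    exact ⟨δ, hδ⟩
  obtain ⟨b, hb1, hb2⟩ := hNewt p (Ix d) (Fin (m + 1))
    (fun t => (∑ i, sys a e d g i).coeff t) b₀ (fun s t => δ t s) (by
      intro t
      rw [MvPolynomial.eval_map]
      have h1 := hev (ZMod p) PadicInt.toZMod b₀ t
      have h2 : (∑ i, C ((PadicInt.toZMod (g i) : ZMod p)) * X ^ e i * crv d b₀ i ^ a i) = 0 := by
        rw [← hF.eq]
        apply Finset.sum_congr rfl
        intro i _
        rw [hg, hcb]
        rfl
      rw [h2, coeff_zero] at h1
      exact h1) (by
      intro t t'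
      rw [hmapE]
      rw [deriv_sys a e d γ P b₀ (δ t') hcb t, hδ, coeff_X_pow]
      by_cases h : t = t'
      · rw [if_pos h, if_pos (by rw [h])]
      · rw [if_neg h, if_neg (fun h' => h (Fin.ext h'))])
  obtain ⟨φ⟩ := hEmb p
  -- the terms over the p-adic integers
  set T : Fin 4 → ℤ_[p][X] := fun i => C (g i) * X ^ e i * crv d b i ^ a i with hT
  have hTdeg : ∀ i, (T i).natDegree ≤ m := by
    intro i
    have h1 : (T i).natDegree ≤ e i + a i * d i := by
      refine natDegree_mul_le.trans ?_
      refine add_le_add ?_ ?_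
      · exact natDegree_C_mul_X_pow_le _ _
      · exact natDegree_pow_le.trans (Nat.mul_le_mul_left _ (crv_natDegree d b i))
    have := hF.sum i
    omega
  have hTsum : ∑ i, T i = 0 := by
    ext t
    rw [coeff_zero]
    by_cases ht : t ≤ m
    · have h1 := hb1 ⟨t, by omega⟩
      have h2 := hev ℤ_[p] (RingHom.id _) b t
      have h3 : MvPolynomial.eval₂Hom (RingHom.id ℤ_[p]) b ((∑ i, sys a e d g i).coeff t) = 0 := h1
      rw [h3] at h2
      exact h2.symm
    · apply coeff_eq_zero_of_natDegree_lt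
      exact lt_of_le_of_lt (natDegree_sum_le_of_forall_le _ _ fun i _ => hTdeg i) (by omega)
  have hTψ : ∀ i, (T i).map PadicInt.toZMod = trm a e γ P i := by
    intro i
    rw [hT]
    simp only [Polynomial.map_mul, Polynomial.map_pow, Polynomial.map_C, Polynomial.map_X]
    rw [hg, crv_map]
    have h1 : (fun q => (PadicInt.toZMod (b q) : ZMod p)) = b₀ := _root_.funext hb2
    rw [h1, hcb]
    rfl
  have hTφ : ∀ i, (T i).map φ = trm a e (fun i => φ (g i)) (fun i => (crv d b i).map φ) i := by
    intro i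
    rw [hT]
    simp only [Polynomial.map_mul, Polynomial.map_pow, Polynomial.map_C, Polynomial.map_X]
    rfl
  have hne : ∀ x : ℤ_[p], PadicInt.toZMod x ≠ 0 → φ x ≠ 0 := fun x hx =>
    ((unit_of_ne x hx).map φ).ne_zero
  have hPne : ∀ i, P i ≠ 0 := by
    intro i h
    apply hF.const i
    rw [h, coeff_zero]
  have hcoef : ∀ (i : Fin 4) (k : Fin (d i + 1)), (P i).coeff k ≠ 0 →
      ((crv d b i).map φ).coeff k ≠ 0 := by
    intro i k hk
    rw [coeff_map, crv_coeff]
    apply hne
    rw [hb2]
    exact hk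
  have hTψ' : (fun i => (T i).map (PadicInt.toZMod : ℤ_[p] →+* ZMod p)) = trm a e γ P :=
    _root_.funext hTψ
  have hTφ' : (fun i => (T i).map φ) =
      trm a e (fun i => φ (g i)) (fun i => (crv d b i).map φ) := _root_.funext hTφ
  refine ⟨fun i => φ (g i), fun i => (crv d b i).map φ, ⟨hF.pos, hF.sum, ?_, ?_, ?_, ?_, ?_,
    hF.top, ?_⟩⟩
  · intro i
    apply le_antisymm
    · exact natDegree_map_le.trans (crv_natDegree d b i)
    · apply le_natDegree_of_ne_zero
      have h1 := hcoef i (Fin.last _) (by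
        rw [Fin.val_last, ← hF.deg i, coeff_natDegree]
        exact leadingCoeff_ne_zero.2 (hPne i))
      rw [Fin.val_last] at h1
      exact h1
  · intro i
    exact hcoef i 0 (hF.const i)
  · intro i
    apply hne
    rw [hg]
    exact hF.gam i
  · have h1 : (∑ i, T i).map φ = 0 := by rw [hTsum, Polynomial.map_zero]
    rw [Polynomial.map_sum] at h1
    rw [← h1]
    exact Finset.sum_congr rfl fun i _ => (hTφ i).symm
  · rw [← hTφ']
    apply hLco ℤ_[p] (ZMod p) ℂ PadicInt.toZMod φ hψs m T hTdeg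
    · obtain ⟨i, hi⟩ := hF.top
      refine ⟨i, ?_⟩
      rw [← coeff_map, hTψ]
      have h1 : (trm a e γ P i).natDegree = m := by
        unfold trm
        rw [natDegree_mul, natDegree_C_mul_X_pow _ _ (hF.gam i), natDegree_pow, hF.deg]
        · have := hF.sum i
          omega
        · exact mul_ne_zero (C_ne_zero.2 (hF.gam i)) (pow_ne_zero _ X_ne_zero)
        · exact pow_ne_zero _ (hPne i)
      have h2 : trm a e γ P i ≠ 0 := by
        unfold trm
        exact mul_ne_zero (mul_ne_zero (C_ne_zero.2 (hF.gam i)) (pow_ne_zero _ X_ne_zero))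
          (pow_ne_zero _ (hPne i))
      rw [← h1, coeff_natDegree]
      exact leadingCoeff_ne_zero.2 h2
    · rw [hTψ']
      exact hF.cop
  · obtain ⟨c₀, l, hpt⟩ := hF.pt
    obtain ⟨s, hs⟩ := hψs c₀
    refine ⟨φ s, l, ?_⟩
    rw [← hTφ']
    apply hLpt ℤ_[p] (ZMod p) ℂ PadicInt.toZMod φ hψs m T hF.pos hTdeg s l
    rw [hTψ', hs]
    exact hpt

end

end Pool.Agent.BP
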