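import Pool.Agent.Lib.MP_410da7_agBP.SpecC
import Pool.Agent.Lib.MP_410da7_ag.Moved.PuncturedCones

/-!
# Four lines: from `StmtFin` to the statement with arbitrary weights
-/

set_option autoImplicit false

namespace Pool.Agent.BP

open MvPolynomial Pool.Agent.PC Pool.Agent.Lib.MP_410da7_ag

namespace ResM

/-- the monomials of a Brieskorn-Pham polynomial -/
theorem mem_support (a : Fin 4 → ℕ) (i : Fin 4) : Finsupp.single i (a i) ∈ (bpPoly a).support := by
  classical
  rw [MvPolynomial.mem_support_iff, bpPoly, MvPolynomial.coeff_sum]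
  have h : ∀ j : Fin 4, MvPolynomial.coeff (Finsupp.single i (a i))
      ((MvPolynomial.X j : MvPolynomial (Fin 4) ℂ) ^ a j) =
      ((if Finsupp.single j (a j) = Finsupp.single i (a i) then 1 else 0 : ℕ) : ℂ) := by
    intro j
    rw [MvPolynomial.coeff_X_pow]
    push_cast
    rfl
  rw [Finset.sum_congr rfl fun j _ => h j, ← Nat.cast_sum, Nat.cast_ne_zero]
  intro h0
  have h1 := (Finset.sum_eq_zero_iff.mp h0) i (Finset.mem_univ i)
  simp at h1

end ResM

/-- The theorem for arbitrary weights. -/
theorem res_of_fin (hF : StmtFin) {w : Fin 4 → ℕ} {d : Fin 1 → ℕ}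
    {f : Fin 1 → MvPolynomial (Fin 4) ℂ} (hV : QuasiSmooth w d f) {K : Type} [Field K]
    [Algebra ℂ K] {x : Fin 4 → K} (hx : IsFunctionField f x) (a : Fin 4 → ℕ)
    (hf : ∀ k, f k = ∑ i, X i ^ a i) :
    List.TFAE [A1UniruledOn (charts x), LogKodairaNegInfOn (charts x) (4 - 1),
      ∑ k, d k < ∑ i, w i] := by
  have hfb : f = fun _ => bpPoly a := funext hf
  subst hfb
  have ha : ∀ i, 2 ≤ a i := by
    intro i
    have := hV.noLinear 0 _ (ResM.mem_support a i)
    rwa [Finsupp.degree_single] at this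
  have hw : ∀ i, a i * w i = d 0 := by
    intro i
    have h1 := hV.homog 0 (MvPolynomial.mem_support_iff.mp (ResM.mem_support a i))
    rw [Finsupp.weight_apply, Finsupp.sum_single_index (by simp)] at h1
    simpa [mul_comm] using h1
  have hd : 0 < d 0 := by
    rw [← hw 0]
    exact Nat.mul_pos (by have := ha 0; omega) (hV.pos 0)
  have key : (1 < ∑ i, 1 / (a i : ℚ)) ↔ ∑ k, d k < ∑ i, w i := by
    have hdq : (0 : ℚ) < d 0 := by exact_mod_cast hd
    have h1 : ∀ i, (w i : ℚ) = d 0 * (1 / (a i : ℚ)) := by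
      intro i
      have h2 : (a i : ℚ) * w i = d 0 := by exact_mod_cast hw i
      have h3 : (a i : ℚ) ≠ 0 := by have := ha i; positivity
      field_simp
      linarith
    rw [← Nat.cast_lt (α := ℚ)]
    push_cast
    rw [Finset.sum_congr rfl fun i _ => h1 i, ← Finset.mul_sum, Fin.sum_univ_one]
    constructor
    · intro h
      nlinarith
    · intro h
      by_contra hc
      nlinarith
  have h := hF a ha K x hx
  rw [key] at h
  exact h

end Pool.Agent.BP
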