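import Pool.Agent.Lib.MP_410da7_agBP.Defs
import Pool.Agent.Lib.MP_410da7_agP.Spec

/-!
# Four lines, part A: the key theorem. Statements and proofs of the modules

KEY THEOREM. Let `∑ γ_i s^(e_i) P_i^(a_i) = 0` be a football identity (`Football a e c d m γ P`), `n₀ = ordn a e`,
`n₁ = ordn a c`, `M = m n₀`, `D_i = ⌊M / a_i⌋`. If `M + ⌊n₀/n₁⌋ < ∑ D_i`, then `X = V ∖ {0}` is
`𝔸¹`-uniruled. IDEA: the curve `f_i(t)`, `f_i^(a_i) = T_i(t^n₀)` (`T_i` the `i`-th term), is a point of the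
space of 4-tuples of polynomials of degree `≤ D_i` with `∑ x_i^(a_i) = 0`, whose components through `f` have
dimension `≥ ∑ (D_i+1) - (M+1)`; if the generic curve did not pass through the generic point of `V`, it
would have the same image in `ℙ²` as `f`, and such curves form a family of dimension `≤ ⌊n₀/n₁⌋ + 3`.

Every module: file `Pool/Agent/Lib/MP_410da7_agBP/<Name>.lean`, importing
`Pool.Agent.Lib.MP_410da7_agBP.SpecA` (and the library files named in the task), private names in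
`namespace Pool.Agent.BP.<Name>M`, final theorem `Pool.Agent.BP.stmt<Name> : … → Stmt<Name>`; the other
statements it uses are hypotheses.
-/

set_option autoImplicit false

namespace Pool.Agent.BP

open Polynomial Pool.Agent.PC Pool.Agent.Lib.MP_410da7_ag

noncomputable section

/-- GN (40 lines; copy the proof of `stmtGen` in `Pool/Agent/Lib/MP_410da7_agP/Gen.lean`, and import that
file for `GenM.card_le`). A common zero `u` of `|τ|` polynomials in `|σ|` variables is a specialisation of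
a generic point `b` whose field has transcendence degree at least `|σ| - |τ|`. In the proof of `stmtGen` the
minimal prime `q` is contained in the maximal ideal of `u`: this is `Spec b u`. -/
def StmtGn : Prop := ∀ (σ τ : Type) [Fintype σ] [Fintype τ] (E : τ → MvPolynomial σ ℂ) (u : σ → ℂ),
  (∀ t, MvPolynomial.eval u (E t) = 0) →
  ∃ (F : Type) (_ : Field F) (_ : Algebra ℂ F) (b : σ → F),
    (∀ t, MvPolynomial.aeval b (E t) = 0) ∧ Spec b u ∧
    IntermediateField.adjoin ℂ (Set.range b) = ⊤ ∧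
    (Fintype.card σ : Cardinal) ≤ Algebra.trdeg ℂ F + (Fintype.card τ : Cardinal)

/-- NAK (80 lines). Let `R` be a local ring with residue field `k`, and `I ⊆ R[X]` an ideal that contains a
polynomial `f` with invertible leading coefficient. If `I` generates the unit ideal of `k[X]`, then
`I = R[X]`.
PROOF. `ker ψ` is the maximal ideal `𝔪` of `R`. `N = R[X]/I` is a finite `R`-module: it is a quotient of
`R[X]/(f)`, and `f` is a unit times a monic polynomial (division with remainder by a monic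
polynomial: `N` is spanned by the classes of `X^j`, `j < deg f`; e.g. `Polynomial.modByMonic`). The
hypothesis says that there is `g ∈ I` with all coefficients of `g - 1` in `𝔪`
(`Ideal.map` under the surjection `R[X] → k[X]`; `Ideal.mem_map_iff_of_surjective`,
`Polynomial.map_surjective`), so `1 ∈ 𝔪 N`, i.e. `N = 𝔪 N`. By Nakayama
(`Submodule.eq_bot_of_le_smul_of_le_jacobson_bot`) `N = 0`. -/
def StmtNak : Prop := ∀ (R k : Type) [CommRing R] [IsLocalRing R] [Field k] (ψ : R →+* k),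
  Function.Surjective ψ → ∀ (I : Ideal R[X]) (f : R[X]), f ∈ I → IsUnit f.leadingCoeff →
  I.map (Polynomial.mapRingHom ψ) = ⊤ → I = ⊤

/-- UN (100 lines, uses `StmtNak`). If the special curve has no common zero, also at infinity, then the
generic curve has no common zero.
PROOF. Let `P = MvPolynomial (Ix D) ℂ`, `𝔪 = ker (eval u)` (maximal), `R = P_𝔪` (`Localization.AtPrime`), with
`R → ℂ` induced by `eval u` (surjective), and `R → F` induced by `aeval b` (elements outside `𝔪` do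
not vanish at `b`, by `Spec b u`). Let `I ⊆ R[X]` be the ideal generated by the `crv D (X q)` (mapped to `R`).
Its image in `ℂ[X]` is generated by the `crv D u`, so it is `ℂ[X]`. For `i` with `u ⟨i, Fin.last _⟩ ≠ 0` the
polynomial `crv D (X q) i` has (as `crv` has degree `≤ D i`) leading coefficient `X ⟨i, last⟩ ∉ 𝔪`, a unit of
`R`. By `StmtNak` `I = R[X]`, and its image in `F[X]` generates the unit ideal. (`crv` commutes with ring
homomorphisms: `(crv D b i).map φ = crv D (φ ∘ b) i`.) -/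
def StmtUn : Prop := ∀ (D : Fin 4 → ℕ) (u : Ix D → ℂ) (F : Type) [Field F] [Algebra ℂ F]
  (b : Ix D → F), Spec b u → (∃ i, u ⟨i, Fin.last _⟩ ≠ 0) →
  Ideal.span (Set.range (crv D u)) = ⊤ → Ideal.span (Set.range (crv D b)) = ⊤

/-- IND (100 lines). Let `π : A → B` be a homomorphism of `ℂ`-algebras, `A` a domain, `π(z_1),…,π(z_n)`
algebraically independent, `h ≠ 0`, `π(h) = 0`. Then `z_1,…,z_n,h` are algebraically independent.
PROOF. Let `Q ≠ 0` be a polynomial in `n + 1` variables with `Q(z,h) = 0`; view `Q` as a polynomial `∑ Q_j T^j` in the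
last variable `T` with coefficients `Q_j ∈ ℂ[x_1,…,x_n]` (`MvPolynomial.finSuccEquiv` singles out the
first variable; use `Fin.cons`/`Fin.snoc` as convenient, or `AlgebraicIndependent` of `Option`), and
divide by the largest power of `T` dividing it (`h ≠ 0`, `A` a domain: the relation still holds). Then
`Q_0 ≠ 0` and applying `π` to `∑ Q_j(z) h^j = 0` gives `Q_0(π(z)) = 0`, a contradiction. -/
def StmtInd : Prop := ∀ (A B : Type) [CommRing A] [IsDomain A] [CommRing B] [Algebra ℂ A]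
  [Algebra ℂ B] (π : A →ₐ[ℂ] B) (n : ℕ) (z : Fin n → A) (h : A),
  AlgebraicIndependent ℂ (fun i => π (z i)) → h ≠ 0 → π h = 0 →
  AlgebraicIndependent ℂ (Fin.snoc (α := fun _ => A) z h : Fin (n + 1) → A)

/-- TWO (120 lines). Two monomial-like elements `u Y^m`, `v Y^n` of `ℂ[X][Y]` (`u, v ∈ ℂ[X]`) are
algebraically independent, unless `u^n = κ v^m` for a constant `κ`.
PROOF. One way: `ρ = (uY^m)^n / (vY^n)^m = u^n / v^m ∈ ℂ(X)` is not a constant, so transcendental over
`ℂ` (`ℂ` is algebraically closed: `IsAlgClosed`, an algebraic element of `ℂ(X)` over `ℂ` is in `ℂ`, e.g.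
`RatFunc`/`IsIntegrallyClosed`; or a polynomial relation `P(u^n, v^m) = 0`, take `P` homogeneous and factor it
over `ℂ`). Another way, direct: let `Q(x,y) ≠ 0` vanish at `(uY^m, vY^n)`. The coefficient of `Y^N` gives
`∑_{m i + n j = N} q_{ij} u^i v^j = 0` for every `N`; choose `N` with some `q_{ij} ≠ 0`. The pairs `(i,j)` with
`m i + n j = N` are `(i_0 + k n', j_0 - k m')`, `n' = n/g`, `m' = m/g`, `g = gcd(m,n)`. Dividing by the common
factor we get a nonzero homogeneous relation `∑_k c_k (u^(n'))^k (v^(m'))^(K-k) = 0`, which factors over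
`ℂ` (`IsAlgClosed.splits`): so `u^(n') = κ v^(m')` (or `u = 0` or `v = 0`), and then
`u^n = κ^g v^m`. -/
def StmtTwo : Prop := ∀ (u v : ℂ[X]) (m n : ℕ), 0 < m → 0 < n → u ≠ 0 → v ≠ 0 →
  (∀ κ : ℂ, u ^ n ≠ C κ * v ^ m) →
  AlgebraicIndependent ℂ ![(C u * X ^ m : ℂ[X][X]), (C v * X ^ n : ℂ[X][X])]

/-- DIC (200 lines, uses `StmtSpread` of `Pool/Agent/Lib/MP_410da7_agP/Spec.lean`, `StmtInd`, `StmtTwo`).
The dichotomy. `b` are the coefficients of a curve over `F` without common zeros, with specialisation `u`;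
two of the `(crv D u i)^(a i)` are not proportional. Then either `X` is `𝔸¹`-uniruled or all homogeneous
relations between the `(crv D u i)^(a i)` hold for the `(crv D b i)^(a i)`.
PROOF. Let `L = ∏ a_i`, `w_i = L / a_i > 0`, `x_i = crv D b i`, `u_i = crv D u i`,
`y_i = C x_i * Y^(w_i) ∈ F[X][Y]`, `v_i = C u_i * Y^(w_i) ∈ ℂ[X][Y]` (`Y` the outer variable). For
`Q ∈ ℂ[x_1,…,x_4]`: `Q(y) = 0 → Q(v) = 0` (the coefficients of `Q(y) ∈ F[X][Y]` are values at `b` of
polynomials whose values at `u` are the coefficients of `Q(v)`: `Spec b u`). Moreover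
`bpPoly a` vanishes at `y`: `∑ y_i^(a_i) = C(∑ x_i^(a_i)) Y^L = 0`.
Case 1: every `Q` with `Q(y) = 0` is in the ideal of `bpPoly a`. Then (`IsFunctionField`: `ker` and `gen`, `K` is
the fraction field of `ℂ[x] / (bpPoly a)`) there is a homomorphism of `ℂ`-algebras
`φ : K → E = FractionRing (F[X][Y])`, `x_i ↦ y_i` (for instance `IsFractionRing`/`IsLocalization.lift` from the
subalgebra `Algebra.adjoin ℂ (Set.range x)`, see `Pool/Agent/Lib/MP_410da7_agP/Spread.lean`). The curve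
`γ_i(Z) = Y^(w_i) x_i(X + Z) ∈ E[Z]` (`X, Y ∈ E`) has `γ_i(0) = y_i`, lies on `V`, generates the unit ideal
(the `x_i` do in `F[X]`; substitution `X ↦ X + Z` and multiplication by units of `E`), and some `γ_i` is not
constant: `IsGood`. `StmtSpread` gives `A1UniruledOn (charts x)`.
Case 2: some `Q` with `Q(y) = 0` is not in the ideal of `bpPoly a`. Let `H` be homogeneous of degree `n` with
`H(u_i^(a_i)) = 0`, and `G = H(x_1^(a_1),…,x_4^(a_4)) ∈ ℂ[x_1,…,x_4]`, so `G(v) = C(H(u_i^(a_i))) Y^(nL) = 0`. We must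
show `G(y) = 0` (then `H(x_i^(a_i)) = 0`). Suppose not. By `StmtTwo` two of the `v_i` are algebraically
independent, say `v_i`, `v_j` (if `u_i^(w_j) = κ u_j^(w_i)`, then, raising to the power `a_i a_j`,
`(u_i^(a_i))^L = κ' (u_j^(a_j))^L` and `u_i^(a_i) = κ'' u_j^(a_j)`; `u_i, u_j ≠ 0` by the
hypothesis). Apply `StmtInd` three times. (a) `A = {Q(y)} ⊆ F[X][Y]` (the range of `aeval y`),
`π : A → ℂ[X][Y]`, `Q(y) ↦ Q(v)`: `y_i, y_j, G(y)` are algebraically independent. (b)
`A = ℂ[x] / (bpPoly a)` (a domain, as a subring of `K`) or its image in `K`, `π` to (a): `x_i, x_j, G, Q` are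
algebraically independent in it. (c) `A = MvPolynomial (Fin 4) ℂ`, `π` to (b): `x_i, x_j, G, Q, bpPoly a` are
algebraically independent: five elements, but the transcendence degree is four
(`MvPolynomial.trdeg_of_isDomain` or `AlgebraicIndependent.cardinalMk_le_trdeg`). Contradiction. -/
def StmtDic : Prop := ∀ (a D : Fin 4 → ℕ), (∀ i, 0 < a i) → ∀ (u : Ix D → ℂ) (F : Type) [Field F]
  [Algebra ℂ F] (b : Ix D → F), Spec b u → ∑ i, crv D b i ^ a i = 0 →
  Ideal.span (Set.range (crv D b)) = ⊤ → (∃ i, 0 < (crv D b i).natDegree) →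
  (∃ i j, crv D u i ≠ 0 ∧ crv D u j ≠ 0 ∧ ∀ κ : ℂ, crv D u i ^ a i ≠ C κ * crv D u j ^ a j) →
  ∀ (K : Type) [Field K] [Algebra ℂ K] (x : Fin 4 → K),
  IsFunctionField (fun _ : Fin 1 => bpPoly a) x → A1UniruledOn (charts x) ∨
    ∀ (n : ℕ) (H : MvPolynomial (Fin 4) ℂ), H.IsHomogeneous n →
      MvPolynomial.aeval (fun i => crv D u i ^ a i) H = 0 →
      MvPolynomial.aeval (fun i => crv D b i ^ a i) H = 0

/-- HOM (100 lines). Basic properties of `hom`. (1) compatibility with homomorphisms, (2) `hom m f A 1` is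
the value of `f` at `A`, (3) homogeneity, (4) products, (5) the terms of the identity. -/
def StmtHom : Prop :=
  (∀ (k R S : Type) [CommRing k] [CommRing R] [CommRing S] [Algebra k R] [Algebra k S]
    (φ : R →ₐ[k] S) (m : ℕ) (f : k[X]) (A B : R), φ (hom m f A B) = hom m f (φ A) (φ B)) ∧
  (∀ (k R : Type) [CommRing k] [CommRing R] [Algebra k R] (m : ℕ) (f : k[X]), f.natDegree ≤ m →
    ∀ A : R, hom m f A 1 = aeval A f) ∧
  (∀ (k R : Type) [CommRing k] [CommRing R] [Algebra k R] (m : ℕ) (f : k[X]) (g A B : R),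
    hom m f (g * A) (g * B) = g ^ m * hom m f A B) ∧
  (∀ (k R : Type) [CommRing k] [CommRing R] [Algebra k R] (m n : ℕ) (f g : k[X]),
    f.natDegree ≤ m → g.natDegree ≤ n → ∀ A B : R,
    hom (m + n) (f * g) A B = hom m f A B * hom n g A B) ∧
  (∀ (k R : Type) [CommRing k] [CommRing R] [Algebra k R] (a e c d : Fin 4 → ℕ) (m : ℕ)
    (γ : Fin 4 → k) (P : Fin 4 → k[X]), (∀ i, e i + c i + a i * d i = m) →
    (∀ i, (P i).natDegree ≤ d i) → ∀ (A B : R) (i : Fin 4),
    hom m (trm a e γ P i) A B =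
      algebraMap k R (γ i) * A ^ e i * B ^ c i * hom (d i) (P i) A B ^ a i)

/-- PAR (120 lines). The special curve `f_i(t)`, with `f_i(t)^(a_i) = T_i(t^(n₀))`, `T_i = trm a e γ P i`.
PROOF. `a_i ∣ n₀ e_i` by the definition of `n₀ = ordn a e` (`a/gcd(a,e) ∣ n₀`). Let `γ'_i` be an `a_i`-th root of
`γ_i` and `f_i = γ'_i t^(n₀ e_i / a_i) P_i(t^(n₀))` (`Polynomial.expand`). Its degree is
`n₀ e_i / a_i + n₀ d_i = n₀ (m - c_i) / a_i ≤ ⌊m n₀ / a_i⌋`, with equality and a nonzero leading coefficient if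
`c_i = 0`; in this case it is positive, as `0 < m n₀` is divisible by `a_i`. Let `u` be the coefficients.
Unit ideal: in `ℂ[X]` it suffices that there is no common root `t₀`; then all `T_i(t₀^(n₀)) = 0`, against
`cop`. (`n₀ > 0` as all `a_i > 0`.) -/
def StmtPar : Prop := ∀ (a e c d : Fin 4 → ℕ) (m : ℕ) (γ : Fin 4 → ℂ) (P : Fin 4 → ℂ[X]),
  Football a e c d m γ P →
  ∃ u : Ix (fun i => m * ordn a e / a i) → ℂ,
    (∀ i, crv _ u i ^ a i = expand ℂ (ordn a e) (trm a e γ P i)) ∧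
    (∃ i, u ⟨i, Fin.last _⟩ ≠ 0 ∧ 0 < m * ordn a e / a i) ∧
    Ideal.span (Set.range (crv _ u)) = ⊤

/-- NPR (60 lines). Two of the terms are not proportional, and this is preserved by `s = t^n`.
PROOF. All terms are `≠ 0` (`gam`, `const`). If all terms were of the form `κ_i T_0`, then, `R₁`, `R₂` being
homogeneous of the same degree `δ`, `aeval T R₁ = ρ₁ T_0^δ`, `aeval T R₂ = ρ₂ T_0^δ` with constants `ρ`
(`MvPolynomial.IsHomogeneous`: `aeval (c • T) = c^δ • aeval T`), so `X * C ρ₂ = C ρ₁` after cancelling, with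
`ρ₂ ≠ 0`: impossible. `expand ℂ n` is injective for `n > 0` and `expand (C κ) = C κ`. -/
def StmtNpr : Prop := ∀ (a e c d : Fin 4 → ℕ) (m : ℕ) (γ : Fin 4 → ℂ) (P : Fin 4 → ℂ[X]),
  Football a e c d m γ P → ∀ n : ℕ, 0 < n → (∀ i, trm a e γ P i ≠ 0) ∧
  ∃ i j, ∀ κ : ℂ, expand ℂ n (trm a e γ P i) ≠ C κ * expand ℂ n (trm a e γ P j)

/-- NZ (40 lines, uses `StmtHom`). The terms have no common zero on the projective line.
PROOF. `q ≠ 0`: `hom m T_i p q = q^m T_i(p/q)` by (3), (2) of `StmtHom`, and `cop` (mapped to `L[X]`) shows that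
the `T_i` have no common zero `p/q`. `q = 0`, `p ≠ 0`: for `i` with `c_i = 0` (`top`),
`hom m T_i p 0 = T_{i,m} p^m`, and `T_{i,m} ≠ 0` as `deg T_i = e_i + a_i d_i = m`. (`m > 0`.) -/
def StmtNz : Prop := ∀ (a e c d : Fin 4 → ℕ) (m : ℕ) (γ : Fin 4 → ℂ) (P : Fin 4 → ℂ[X]),
  Football a e c d m γ P → ∀ (L : Type) [Field L] [Algebra ℂ L] (p q : L), (p ≠ 0 ∨ q ≠ 0) →
  ∃ i, hom m (trm a e γ P i) p q ≠ 0

/-- REL (120 lines, uses `StmtHom`). The parameter `s` of the generic curve.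
PROOF. Let `T_i = trm a e γ P i`, `R₁, R₂, δ` from `bir`, `A' = aeval y R₁`, `B' = aeval y R₂ ∈ F[X]`. They are not
zero: otherwise `aeval (expand n T) R_j = expand n (aeval T R_j) = 0` by `hnz`, but `aeval T R₂ ≠ 0` and
`aeval T R₁ = X aeval T R₂ ≠ 0`. For `i, j` the polynomial
`H = X_i * hom m T_j (R₁, R₂) - X_j * hom m T_i (R₁, R₂)` (`hom` in the algebra `MvPolynomial (Fin 4) ℂ`) is
homogeneous of degree `1 + m δ`, and it vanishes at `expand n T`: with `r = expand n (aeval T R₂)`,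
`S = expand n X`, `hom m T_j (S r, r) = r^m hom m T_j S 1 = r^m T_j(S) = r^m expand n T_j` (`StmtHom` (3), (2);
`deg T_j ≤ m`). So `htr` gives `y_i * hom m T_j A' B' = y_j * hom m T_i A' B'`. Divide `A'`, `B'` by their gcd
(`F[X]` is a PID, `EuclideanDomain`/`exists_gcd…`; `IsCoprime` of the quotients) and cancel its `m`-th
power. -/
def StmtRel : Prop := ∀ (a e c d : Fin 4 → ℕ) (m : ℕ) (γ : Fin 4 → ℂ) (P : Fin 4 → ℂ[X]),
  Football a e c d m γ P → ∀ n : ℕ, 0 < n → ∀ (F : Type) [Field F] [Algebra ℂ F]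
  (y : Fin 4 → F[X]),
  (∀ H : MvPolynomial (Fin 4) ℂ, MvPolynomial.aeval y H = 0 →
    MvPolynomial.aeval (fun i => expand ℂ n (trm a e γ P i)) H = 0) →
  (∀ (k : ℕ) (H : MvPolynomial (Fin 4) ℂ), H.IsHomogeneous k →
    MvPolynomial.aeval (fun i => expand ℂ n (trm a e γ P i)) H = 0 →
    MvPolynomial.aeval y H = 0) →
  ∃ A B : F[X], IsCoprime A B ∧ A ≠ 0 ∧ B ≠ 0 ∧ ∀ i j,
    y i * hom m (trm a e γ P j) A B = y j * hom m (trm a e γ P i) A B

/-- KAP (60 lines, uses `StmtNz`, `StmtHom`). Two proportional vectors without common zeros.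
PROOF. `L` is algebraically closed; the `Z_i = hom m T_i A B` have no common root `r ∈ L`: evaluation at `r` is
a homomorphism, so `Z_i(r) = hom m T_i (A(r)) (B(r))` and `(A(r), B(r)) ≠ (0,0)` as `A, B` are coprime
(`StmtNz`). So both the `x_i^(a_i)` (the `x_i` generate the unit ideal, hence so do the powers: no common
root) and the `Z_i` generate the unit ideal of the PID `L[X]`: `∑ b_i Z_i = 1`, `∑ b'_i x_i^(a_i) = 1`. Put
`κ = ∑ b_j x_j^(a_j)`: `κ Z_i = ∑_j b_j x_j^(a_j) Z_i = ∑_j b_j x_i^(a_i) Z_j = x_i^(a_i)`, and in the same way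
`Z_i = κ' x_i^(a_i)`. Then `κ κ' x_i^(a_i) = x_i^(a_i)` and some `x_i ≠ 0`: `κ κ' = 1` and `κ` is a
nonzero constant. -/
def StmtKap : Prop := ∀ (a e c d : Fin 4 → ℕ) (m : ℕ) (γ : Fin 4 → ℂ) (P : Fin 4 → ℂ[X]),
  Football a e c d m γ P → ∀ (L : Type) [Field L] [IsAlgClosed L] [Algebra ℂ L]
  (x : Fin 4 → L[X]) (A B : L[X]), IsCoprime A B → Ideal.span (Set.range x) = ⊤ →
  (∀ i j, x i ^ a i * hom m (trm a e γ P j) A B = x j ^ a j * hom m (trm a e γ P i) A B) →
  ∃ κ : L, κ ≠ 0 ∧ ∀ i, x i ^ a i = C κ * hom m (trm a e γ P i) A B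

/-- MUL (80 lines, uses `StmtHom`). The roots of `A` and `B` have multiplicities divisible by `ordn a e`,
`ordn a c`.
PROOF. By (5) of `StmtHom`, `x_i^(a_i) = C κ γ_i A^(e_i) B^(c_i) Q_i^(a_i)`, `Q_i = hom (d_i) (P_i) A B`. Let `r` be a
root of `A`, of multiplicity `μ`. `B(r) ≠ 0`, and `Q_i(r) = hom (d_i) (P_i) 0 (B(r)) = P_i(0) B(r)^(d_i) ≠ 0`
(`const`). Comparing root multiplicities at `r` (`Polynomial.rootMultiplicity_mul`,
`rootMultiplicity_pow`; all polynomials are `≠ 0`): `a_i ∣ e_i μ` for all `i`, so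
`a_i / gcd(a_i, e_i) ∣ μ` (`Nat.Coprime.dvd_of_dvd_mul_left`) and `ordn a e ∣ μ`. For a root of `B`:
`A(r) ≠ 0`, `Q_i(r) = hom (d_i) (P_i) (A(r)) 0 = lc(P_i) A(r)^(d_i) ≠ 0`. -/
def StmtMul : Prop := ∀ (a e c d : Fin 4 → ℕ) (m : ℕ) (γ : Fin 4 → ℂ) (P : Fin 4 → ℂ[X]),
  Football a e c d m γ P → ∀ (L : Type) [Field L] [IsAlgClosed L] [Algebra ℂ L]
  (x : Fin 4 → L[X]) (A B : L[X]) (κ : L), κ ≠ 0 → IsCoprime A B → A ≠ 0 → B ≠ 0 →
  (∀ i, x i ^ a i = C κ * hom m (trm a e γ P i) A B) →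
  (∀ r, ordn a e ∣ A.rootMultiplicity r) ∧ (∀ r, ordn a c ∣ B.rootMultiplicity r)

/-- DG (60 lines, uses `StmtNz`). `deg A, deg B ≤ n` if all `hom m T_i A B` have degree `≤ m n`.
PROOF. Let `N = max (deg A) (deg B)`. The coefficient of `X^(m N)` of `hom m f A B = ∑ f_j A^j B^(m-j)` is
`hom m f (A_N) (B_N)` (`A_N`, `B_N` the coefficients of `X^N`; the degrees of `A`, `B` are `≤ N`:
`Polynomial.coeff_pow_of_natDegree_le`, `coeff_mul_of_natDegree_le`). `(A_N, B_N) ≠ (0,0)` (if `N > 0` or as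
`A ≠ 0`), so by `StmtNz` it is `≠ 0` for some `i`: `m N ≤ m n`. -/
def StmtDg : Prop := ∀ (a e c d : Fin 4 → ℕ) (m : ℕ) (γ : Fin 4 → ℂ) (P : Fin 4 → ℂ[X]),
  Football a e c d m γ P → ∀ (L : Type) [Field L] [Algebra ℂ L] (A B : L[X]), A ≠ 0 → B ≠ 0 →
  ∀ n : ℕ, (∀ i, (hom m (trm a e γ P i) A B : L[X]).natDegree ≤ m * n) →
  A.natDegree ≤ n ∧ B.natDegree ≤ n

/-- PW (50 lines). A polynomial over an algebraically closed field all of whose root multiplicities are
divisible by `n` is an `n`-th power.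
PROOF. `A = C (lc) ∏ (X - r)` over the multiset of roots (`IsAlgClosed.splits`,
`Polynomial.Splits`/`eq_prod_roots_of_splits_id`), `roots.count r = rootMultiplicity r A`; so
`roots = n • s` for a multiset `s`; `h = C (lc^(1/n)) ∏_{r ∈ s} (X - r)`. -/
def StmtPw : Prop := ∀ (L : Type) [Field L] [IsAlgClosed L] (A : L[X]) (n : ℕ), 0 < n → A ≠ 0 →
  (∀ r, n ∣ A.rootMultiplicity r) → ∃ h : L[X], A = h ^ n

/-- STR (100 lines, uses `StmtHom`, `StmtKap`, `StmtMul`, `StmtDg`, `StmtPw`). Structure of the generic curve.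
PROOF. `StmtKap` gives `κ`. Let `μ^m = κ` (`m > 0`): replacing `A`, `B` by `C μ A`, `C μ B` we may assume `κ = 1`
(`StmtHom` (3)). `StmtMul` and `StmtPw`: `A = h^(n₀)`, `B = h'^(n₁)`, `n₀ = ordn a e`, `n₁ = ordn a c > 0`. Degrees:
`deg (x_i^(a_i)) ≤ a_i ⌊m n₀ / a_i⌋ ≤ m n₀`, so `StmtDg` gives `n₀ deg h = deg A ≤ n₀` and
`n₁ deg h' = deg B ≤ n₀`. -/
def StmtStr : Prop := ∀ (a e c d : Fin 4 → ℕ) (m : ℕ) (γ : Fin 4 → ℂ) (P : Fin 4 → ℂ[X]),
  Football a e c d m γ P → ∀ (L : Type) [Field L] [IsAlgClosed L] [Algebra ℂ L]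
  (x : Fin 4 → L[X]) (A B : L[X]), IsCoprime A B → A ≠ 0 → B ≠ 0 →
  Ideal.span (Set.range x) = ⊤ → (∀ i, (x i).natDegree ≤ m * ordn a e / a i) →
  (∀ i j, x i ^ a i * hom m (trm a e γ P j) A B = x j ^ a j * hom m (trm a e γ P i) A B) →
  ∃ h h' : L[X], h.natDegree ≤ 1 ∧ h'.natDegree ≤ ordn a e / ordn a c ∧
    ∀ i, x i ^ a i = hom m (trm a e γ P i) (h ^ ordn a e) (h' ^ ordn a c)

/-- ALG (60 lines). Let `k ⊆ L` be an algebraically closed subfield (`L` a field extension) and `x ∈ L[X]` with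
`x^n ∈ k[X]`, `n > 0`. Then `x ∈ k[X]`.
PROOF. `z ∈ k[X]`, `x^n = z` (mapped). If `z = 0`, `x = 0`. Otherwise `z = C c ∏ (X - r_j)` with `r_j ∈ k`; the
multiplicity in `L[X]` of every root `r_j` of `x^n` is divisible by `n`, and the multiplicities in `k[X]` and
`L[X]` agree, so `z = C c (∏ (X - r'_j))^n` in `k[X]` (`StmtPw` for `k`: the root multiplicities over `k` are
divisible by `n`), `z = z'^n` with `z' ∈ k[X]` (`c` has an `n`-th root), and `x^n = z'^n` in the domain `L[X]`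
implies `x = ζ z'` with `ζ^n = 1`, `ζ ∈ k` (the `n`-th roots of unity of `L` are in `k`: `k` is algebraically
closed in `L`; `x / z'` is a constant as it is integral over `L[X]`, or use
`x ∣ z'`, `z' ∣ x` from multiplicities). -/
def StmtAlg : Prop := StmtPw → ∀ (k L : Type) [Field k] [IsAlgClosed k] [Field L] [Algebra k L] (x : L[X])
  (n : ℕ), 0 < n → (∃ z : k[X], x ^ n = z.map (algebraMap k L)) →
  ∃ z : k[X], x = z.map (algebraMap k L)

/-- TRD (120 lines, uses `StmtAlg`, `StmtHom`). The dimension of the family of curves with the same image.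
PROOF. Let `S ⊆ L` be the set of the coefficients `h_0,…,h_r`, `h'_0,…,h'_s`, `k₀ = IntermediateField.adjoin ℂ S` and
`k` the algebraic closure of `k₀` in `L` (`algebraicClosure k₀ L`, an algebraically closed field as `L` is). The
right hand sides `hom m T_i (h^n) (h'^n')` are in `k[X]`, so by `StmtAlg` the `x_i` (mapped to `L[X]`), hence all
`b_q` (mapped to `L`), are in `k`: they are algebraic over `k₀`. So the image of `F = ℂ(b)` in `L` is contained in
`k`, and `trdeg F ≤ trdeg k = trdeg k₀ ≤ |S| ≤ (r+1) + (s+1)`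
(`Algebra.trdeg` of an algebraic extension; a field generated by `N` elements has transcendence
degree `≤ N`: `exists_isTranscendenceBasis` inside the generating set, or
`Algebra.IsAlgebraic.trdeg_le_cardinalMk`). `b` are the coefficients of the `x_i` (`crv`). -/
def StmtTrd : Prop := ∀ (D : Fin 4 → ℕ) (F : Type) [Field F] [Algebra ℂ F] (b : Ix D → F),
  IntermediateField.adjoin ℂ (Set.range b) = ⊤ →
  ∀ (L : Type) [Field L] [IsAlgClosed L] [Algebra ℂ L] [Algebra F L] [IsScalarTower ℂ F L]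
  (a : Fin 4 → ℕ), (∀ i, 0 < a i) → ∀ (T : Fin 4 → ℂ[X]) (m n n' r s : ℕ) (h h' : L[X]),
  h.natDegree ≤ r → h'.natDegree ≤ s →
  (∀ i, (crv D b i).map (algebraMap F L) ^ a i = hom m (T i) (h ^ n) (h' ^ n')) →
  Algebra.trdeg ℂ F ≤ ((r + 1 + (s + 1) : ℕ) : Cardinal)

/-- KEY (120 lines, uses everything above). The key theorem.
PROOF. `n₀ = ordn a e > 0`, `M = m n₀`, `D_i = M / a_i`, `q = n₀ / ordn a c`. `StmtPar` gives `u`. The equations
`eqn a D k`, `k : Fin (M + 1)`, vanish at `u`: `∑ (crv D u i)^(a i) = expand (∑ T_i) = 0` (`eval u` of `eqn` is the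
`k`-th coefficient). `StmtGn` gives `F, b`; all coefficients of `∑ (crv D b i)^(a i)` vanish (it has degree
`≤ M`, since `a_i D_i ≤ M`), so it is `0`. `StmtUn`: the `crv D b i` generate the unit ideal; and
`(crv D b i).natDegree = D_i > 0` for the `i` of `StmtPar` (`b ⟨i, last⟩ ≠ 0` by `Spec b u`). `StmtNpr`, `StmtDic`:
`X` is `𝔸¹`-uniruled (done) or `htr` of `StmtRel` holds for `y_i = (crv D b i)^(a i)`, `n = n₀`; the other
hypothesis of `StmtRel` follows from `Spec b u`. Let `L = AlgebraicClosure F`; map `A`, `B` and the curve to `L[X]`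
(coprimality, unit ideal and the relations are preserved; `hom` by `StmtHom` (1)); `StmtStr` gives `h`, `h'` and
`StmtTrd` with `r = 1`, `s = q`: `trdeg F ≤ q + 3`. But `|Ix D| = ∑ (D_i + 1) ≤ trdeg F + (M + 1)`, so
`∑ D_i + 4 ≤ q + 3 + M + 1`: a contradiction. -/
def StmtKey : Prop := ∀ (a e c d : Fin 4 → ℕ) (m : ℕ) (γ : Fin 4 → ℂ) (P : Fin 4 → ℂ[X]),
  Football a e c d m γ P →
  m * ordn a e + ordn a e / ordn a c < ∑ i, m * ordn a e / a i →
  ∀ (K : Type) [Field K] [Algebra ℂ K] (x : Fin 4 → K),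
  IsFunctionField (fun _ : Fin 1 => bpPoly a) x → A1UniruledOn (charts x)

end

end Pool.Agent.BP
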