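import Pool.Agent.Lib.MP_410da7_agBP.DefsB
import Pool.Agent.Lib.MP_410da7_agBP.SpecA

/-!
# Four lines, part B: identities over finite fields lift. Statements and proofs of the modules

An identity over `ℤ/p` (`FbOn (ZMod p)`) whose derivative is onto (`Sur`) lifts to `ℤ_[p]` by Newton's
method, and `ℤ_[p]` is mapped to `ℂ`. The conditions without equations are open; they are lifted with
Nakayama's lemma (`StmtNak`).

Every module: file `Pool/Agent/Lib/MP_410da7_agBP/<Name>.lean`, importing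
`Pool.Agent.Lib.MP_410da7_agBP.SpecB`, private names in `namespace Pool.Agent.BP.<Name>M`, final theorem
`Pool.Agent.BP.stmt<Name> : … → Stmt<Name>`; the other statements it uses are hypotheses.
-/

set_option autoImplicit false

namespace Pool.Agent.BP

open Polynomial

noncomputable section

/-- NEWT (150 lines). Newton's method for systems over `ℤ_[p]`.
PROOF. Let `x_0` be a lift of `b₀` (`ZMod.ringHom_surjective`), `ρ_{s t}` lifts of `R s t`, and
`x_{n+1} = x_n - ρ E(x_n)`, that is, `x_{n+1,s} = x_{n,s} - ∑_t ρ_{s t} E_t(x_n)`. Claim: `p^(n+1) ∣ E_t(x_n)`,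
and `x_n ≡ x_0` mod `p`. (The kernel of `toZMod` is generated by `p`: `PadicInt.ker_toZMod`,
`PadicInt.maximalIdeal_eq_span_p`.) Taylor: for `Q ∈ ℤ_[p][x]` and `h_s ∈ I` (an ideal),
`Q(x + h) - Q(x) - ∑_s ∂_s Q(x) h_s ∈ I^2` (`MvPolynomial.induction_on`). With `h = -ρ E(x_n)`, `I = (p^(n+1))`:
`E_t(x_{n+1}) ≡ E_t(x_n) - ∑_s ∂_s E_t(x_n) ∑_{t'} ρ_{s t'} E_{t'}(x_n)` mod `p^(2n+2)`, and
`∑_s ∂_s E_t(x_n) ρ_{s t'} ≡ δ_{t t'}` mod `p` (as `x_n ≡ x_0`), so `E_t(x_{n+1}) ∈ (p^(n+2))`. The sequences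
`x_{n,s}` converge (`ℤ_[p]` is `p`-adically complete: `IsAdicComplete`/`IsPrecomplete`, or use the norm,
`PadicInt.norm_le_pow_iff_mem_span_pow` and `cauchySeq_of_le_geometric`), and the limit `b` satisfies
`E_t(b) = 0` (`E_t(b) ≡ E_t(x_n) ≡ 0` mod `p^(n+1)` for all `n`), `b ≡ x_0` mod `p`. -/
def StmtNewt : Prop := ∀ (p : ℕ) [Fact p.Prime] (σ τ : Type) [Fintype σ] [Fintype τ]
  [DecidableEq τ] (E : τ → MvPolynomial σ ℤ_[p]) (b₀ : σ → ZMod p) (R : σ → τ → ZMod p),
  (∀ t, MvPolynomial.eval b₀ (MvPolynomial.map PadicInt.toZMod (E t)) = 0) →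
  (∀ t t', ∑ s, MvPolynomial.eval b₀
    (MvPolynomial.pderiv s (MvPolynomial.map PadicInt.toZMod (E t))) * R s t' =
      if t = t' then 1 else 0) →
  ∃ b : σ → ℤ_[p], (∀ t, MvPolynomial.eval b (E t) = 0) ∧ ∀ s, PadicInt.toZMod (b s) = b₀ s

/-- EMB (60 lines). `ℤ_[p]` can be mapped to `ℂ`.
PROOF. `ℤ_[p] ⊆ ℚ_[p]`, a field of characteristic zero whose cardinality is at most the continuum (a Cauchy
completion of `ℚ`: a quotient of a set of sequences in `ℚ`, or `ℤ_[p] → ∀ n, ZMod (p^n)` is injective and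
`ℚ_[p]` is its field of fractions). Let `L` be an algebraic closure of the field of fractions of
`MvPolynomial ℝ ℚ_[p]`: its cardinality is exactly the continuum
(`MvPolynomial.cardinalMk_le_max`, `Cardinal.mk_real`, `Algebra.IsAlgebraic.cardinalMk_le_max`, the
variables are `ℝ` many elements). So `L ≃+* ℂ`
(`IsAlgClosed.ringEquivOfCardinalEqOfCharZero`; for `ℂ` use `Cardinal.mk_complex`). Or use
transcendence bases over `ℚ` and `IsAlgClosed.lift`. -/
def StmtEmb : Prop := ∀ (p : ℕ) [Fact p.Prime], Nonempty (ℤ_[p] →+* ℂ)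

/-- LPT (100 lines, uses `StmtNak`). The point certificate lifts from the residue field of a local ring `R`
and is preserved by a homomorphism `φ : R → K`.
PROOF. An element `y ∈ R` with `ψ(y) ≠ 0` is a unit, so `φ(y) ≠ 0`: this gives the first and the last
condition (`eval`, `coeff` commute with `map`). Let `H_i` be the quotient of
`T_i C(T_l(s)) - T_l C(T_i(s))` by the monic polynomial `X - C s`; it has value `0` at `s`, so
`(X - C s) H_i = T_i C(T_l(s)) - T_l C(T_i(s))` (`Polynomial.mul_divByMonic_eq_iff_isRoot` or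
`Polynomial.dvd_iff_isRoot`). Its image under `ψ` is `h_i` (cancel `X - C (ψ s)`). So the ideal `J` of `R[X]`
generated by the `H_i` is mapped to the unit ideal of `k[X]`. For the `i` of the last condition
`deg H_i ≤ m - 1` and the coefficient of `X^(m-1)` in `H_i` is `T_{i,m} T_l(s) - T_{l,m} T_i(s)`, whose image
under `ψ` is not zero: the leading coefficient of `H_i` is a unit. By `StmtNak` `J = R[X]`; map by `φ`. -/
def StmtLpt : Prop := ∀ (R k K : Type) [CommRing R] [IsLocalRing R] [Field k] [Field K]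
  (ψ : R →+* k) (φ : R →+* K), Function.Surjective ψ → ∀ (m : ℕ) (T : Fin 4 → R[X]), 0 < m →
  (∀ i, (T i).natDegree ≤ m) → ∀ (s : R) (l : Fin 4), PtAt m (fun i => (T i).map ψ) (ψ s) l →
  PtAt m (fun i => (T i).map φ) (φ s) l

/-- LCO (40 lines, uses `StmtNak`). The same for the condition that there is no common zero.
PROOF. `I = (T_0,…,T_3) ⊆ R[X]`; `I.map (mapRingHom ψ)` is the unit ideal, and some `T_i` has degree `m` and a
unit as leading coefficient. So `I = R[X]`, and its image in `K[X]` generates the unit ideal. -/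
def StmtLco : Prop := ∀ (R k K : Type) [CommRing R] [IsLocalRing R] [Field k] [Field K]
  (ψ : R →+* k) (φ : R →+* K), Function.Surjective ψ → ∀ (m : ℕ) (T : Fin 4 → R[X]),
  (∀ i, (T i).natDegree ≤ m) → (∃ i, ψ ((T i).coeff m) ≠ 0) →
  Ideal.span (Set.range fun i => (T i).map ψ) = ⊤ → Ideal.span (Set.range fun i => (T i).map φ) = ⊤

/-- LIFT (200 lines, uses `StmtNewt`, `StmtEmb`, `StmtLpt`, `StmtLco`).
PROOF. Let `g_i ∈ ℤ_[p]` be a lift of `γ_i`, and `b₀ ⟨i, j⟩ = (P_i).coeff j` (so `crv d b₀ i = P_i`, `deg`). The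
unknowns are `b : Ix d → ℤ_[p]`; the equations `E_k`, `k : Fin (m + 1)`, are the coefficients of `X^k` of
`∑_i C(g_i) X^(e_i) (crv d b i)^(a_i)` (with `b = MvPolynomial.X`; this polynomial has degree `≤ m` by
`sum`). They vanish at `b₀` by `eq`. The derivative in the direction `δ : Ix d → ZMod p` of
`∑_k E_k X^k` at `b₀` is `∑_i C(γ_i a_i) X^(e_i) P_i^(a_i - 1) crv d δ i` (apply the derivations `pderiv q`
coefficientwise to polynomials: e.g. the identity `∑_q δ_q pderiv q` is a derivation; `Polynomial` over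
`MvPolynomial`; or compute with dual numbers); so `Sur` gives `R : Ix d → Fin (m+1) → ZMod p` as in
`StmtNewt`. Let `b` be the solution, and `φ : ℤ_[p] → ℂ`. Take `γ'_i = φ(g_i)`, `P'_i = crv d (φ ∘ b) i`. An
element of `ℤ_[p]` whose class mod `p` is not zero is a unit, so its image in `ℂ` is not zero: `gam`,
`const` (`j = 0`), `deg` (`j = d_i`). `eq`: all coefficients are zero. `cop`: `StmtLco` for
`T_i = C(g_i) X^(e_i) (crv d b i)^(a_i)`, of degree `≤ m`, `ψ = toZMod`; `ψ(T_{i,m}) ≠ 0` for the `i` with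
`c_i = 0` (`T_i mod p` has degree `e_i + a_i d_i = m`). `pt`: `StmtLpt` for a lift `s` of `c₀`. -/
def StmtLift : Prop := ∀ (p : ℕ) [Fact p.Prime] (a e c d : Fin 4 → ℕ) (m : ℕ)
  (γ : Fin 4 → ZMod p) (P : Fin 4 → (ZMod p)[X]),
  FbOn (ZMod p) a e c d m γ P → Sur a e d m γ P →
  ∃ (γ' : Fin 4 → ℂ) (P' : Fin 4 → ℂ[X]), FbOn ℂ a e c d m γ' P'

/-- BIB (120 lines). From a point certificate at a generic point to `IsBir`.
PROOF. Let `F = ℂ(T_i(s)/T_l(s) : i) ⊆ K` (`IntermediateField.adjoin ℂ (Set.range …)`,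
`T_i(s) = aeval s (T i)`, which is the value of the mapped polynomial at `s`). Let
`g_i = T_i(X) - (T_i(s)/T_l(s)) T_l(X) ∈ F[X]` and let `G` generate the ideal of `F[X]` generated by the `g_i` (a
PID). In `K[X]` the `T_l(s) g_i = (X - s) h_i` generate the ideal `(X - s)`, since the `h_i` generate the
unit ideal; so `G = c (X - s)` with `c ≠ 0` in `K`. The coefficients `c` and `-c s` of `G` are in `F`, so
`s ∈ F`. So (`IntermediateField.mem_adjoin_range_iff`) `s r₂(T_i(s)/T_l(s)) = r₁(T_i(s)/T_l(s))` with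
`r₁, r₂ ∈ ℂ[x_0,…,x_3]`, `r₂(T_i(s)/T_l(s)) ≠ 0` (note `s ≠ 0`). Let `δ` be at least the total degrees of
`r₁, r₂`. Homogenise with `x_l`: `R_j = ∑_α coeff_α(r_j) x^α x_l^(δ - |α|)`, homogeneous of degree `δ`, with
`R_j(T(s)) = T_l(s)^δ r_j(T_i(s)/T_l(s))`. So `R_1(T(s)) = s R_2(T(s))` and `R_2(T(s)) ≠ 0` in `K`; as `s` is
transcendental, `R_1(T) = X R_2(T)` and `R_2(T) ≠ 0` in `ℂ[X]`. -/
def StmtBib : Prop := ∀ (K : Type) [Field K] [Algebra ℂ K] (s : K), Transcendental ℂ s →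
  ∀ (m : ℕ) (T : Fin 4 → ℂ[X]) (l : Fin 4),
  PtAt m (fun i => (T i).map (algebraMap ℂ K)) s l → IsBir T

/-- BIR (60 lines, uses `StmtLpt`, `StmtBib`). A point certificate implies birationality.
PROOF. Let `R = ℂ⟦t⟧` (`PowerSeries ℂ`), a local ring with residue field `ℂ` (`ψ = constantCoeff`, surjective),
`K = FractionRing R`, `φ = algebraMap R K`, `s₀ = C c₀ + t ∈ R`, so `ψ(s₀) = c₀`. Apply `StmtLpt` to the
`(T i).map (PowerSeries.C)` (whose image under `ψ` is `T i`), and `StmtBib` to `s = φ(s₀)`, which is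
transcendental over `ℂ` (`f(s) = 0`, then `f(c₀ + t) = 0` in `ℂ⟦t⟧`, where it is the power series of the
polynomial `f.comp (C c₀ + X)`; so `f = 0`). -/
def StmtBir : Prop := ∀ (m : ℕ) (T : Fin 4 → ℂ[X]), 0 < m → (∀ i, (T i).natDegree ≤ m) →
  ∀ (c₀ : ℂ) (l : Fin 4), PtAt m T c₀ l → IsBir T

/-- FOOT (60 lines, uses `StmtBir`). From `FbOn ℂ` to `Football`. The exponents `a_i` with `d_i = 0` are
arbitrary.
PROOF. If `d_i > 0` take `γ'_i = γ_i`, `P'_i = P_i`. If `d_i = 0`, then `P_i = C q`, `q ≠ 0`, and we take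
`γ'_i = γ_i q^(a_i)`, `P'_i = 1`. Then `trm a' e γ' P' i = trm a e γ P i` for all `i`. These have degree
`≤ e_i + a_i d_i ≤ m`. -/
def StmtFoot : Prop := ∀ (a a' e c d : Fin 4 → ℕ) (m : ℕ) (γ : Fin 4 → ℂ) (P : Fin 4 → ℂ[X]),
  FbOn ℂ a e c d m γ P → (∀ i, 2 ≤ a' i) → (∀ i, 0 < d i → a' i = a i) →
  ∃ (γ' : Fin 4 → ℂ) (P' : Fin 4 → ℂ[X]), Football a' e c d m γ' P'

/-- CHK (200 lines). Soundness of the checker.
PROOF. `ofL` is compatible with the operations: `ofL (addL l l') = ofL l + ofL l'`,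
`ofL (mulL p l l') = ofL l * ofL l'`, `ofL (powL p l n) = ofL l ^ n`, `ofL (shL n l) = X^n * ofL l`,
`eqL p l l' = true → ofL l = ofL l'`, `(evL p x l : ZMod p) = (ofL l).eval x`,
`(ofL l).coeff n = l.getD n 0` (inductions; `(n % p : ℕ)` and `n` have the same image in `ZMod p`:
`ZMod.natCast_mod`), `n % p = n' % p` iff the images are equal (`ZMod.natCast_eq_natCast_iff'`). With these
every field of `FbOn` is one of the conditions of `Crt.chk`: `T_i` is `trm` by the line on `Z.T`; `deg`: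
length `d_i + 1` and the last coefficient is not zero; the unit ideals from `∑ U_i T_i = 1` and
`∑ W_i h_i = 1` (`Ideal.eq_top_iff_one`, `Ideal.mem_span_range_iff_exists_fun`); `Sur` for `j ≤ m`:
`δ ⟨i, n⟩ = (Z.D.getD j []).getD i []` evaluated at `n` (a list of length `≤ d_i + 1`, so `crv d δ i = ofL …`);
the sums `∑ i : Fin 4` by `Fin.sum_univ_four`. `p` is one of `5, 7, 11, 13`. -/
def StmtChk : Prop := ∀ Z : Crt, Z.chk = true → Z.p.Prime ∧ ∀ [Fact Z.p.Prime],
  FbOn (ZMod Z.p) (evf Z.a) (evf Z.e) (evf Z.c) (evf Z.d) Z.m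
    (fun i => (evf Z.g i : ZMod Z.p)) (fun i => ofL Z.p (Z.P.getD i [])) ∧
  Sur (evf Z.a) (evf Z.e) (evf Z.d) Z.m
    (fun i => (evf Z.g i : ZMod Z.p)) (fun i => ofL Z.p (Z.P.getD i []))

end

end Pool.Agent.BP
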