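import Pool.Agent.Lib.MP_410da7_agBP.Data
import Pool.Agent.Lib.MP_410da7_agBP.SpecB

/-!
# Four lines, part C: classification and assembly. Statements and proofs of the modules

Every module: file `Pool/Agent/Lib/MP_410da7_agBP/<Name>.lean`, importing
`Pool.Agent.Lib.MP_410da7_agBP.SpecC`, private names in `namespace Pool.Agent.BP.<Name>M`, final theorem
`Pool.Agent.BP.stmt<Name> : … → Stmt<Name>`; the other statements it uses are hypotheses.
-/

set_option autoImplicit false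

namespace Pool.Agent.BP

open Polynomial Pool.Agent.PC Pool.Agent.Lib.MP_410da7_ag

noncomputable section

/-- CLS (100 lines). The classification: 112 types.
PROOF. Let `a ≤ b ≤ c ≤ d` be the entries. Clear denominators (all are positive). `1/a ≥ 1/4 + …`: the sum of the four
fractions is `≤ 4/a`, so `a ≤ 3`. If `a = 2`: `3/b > 1/2`, `b ≤ 5`, and `b ≠ 2` (the triple sum is `< 1`); if
`a = 3`: `3/b > 2/3`, `b ≤ 4`. Then `2/c > 1 - 1/a - 1/b` bounds `c ≤ 11` (`interval_cases`), and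
`1/d > 1 - 1/a - 1/b - 1/c > 0` bounds `d ≤ 41`; in each of the finitely many cases `(a,b,c)` the values of `d`
are those in the lists (`fam`, `typ0`, …): `decide` for the membership. -/
def StmtCls : Prop := ∀ a : Fin 4 → ℕ, (∀ i, 2 ≤ a i) → Monotone a →
  1 / (a 0 : ℚ) + 1 / (a 1 : ℚ) + 1 / (a 2 : ℚ) < 1 → 1 < ∑ i, 1 / (a i : ℚ) →
  ∃ q ∈ fam, ∃ t ∈ q.2, a = evf t

/-- QS (100 lines). Brieskorn-Pham polynomials are quasi-smooth.
PROOF. `L = lcm` of the `a_i`, `w_i = L / a_i > 0`; `a_i w_i = L`. `gcd`: if `g ∣ L / a_i` for all `i`, then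
`a_i ∣ L / g` for all `i`, so `L ∣ L / g` and `g = 1`. The partial derivatives are `a_i x_i^(a_i - 1)`; at `u ≠ 0`
one of them is not zero (`2 ≤ a_i`). -/
def StmtQs : Prop := ∀ a : Fin 4 → ℕ, (∀ i, 2 ≤ a i) →
  QuasiSmooth (fun i => Finset.univ.lcm a / a i) (fun _ : Fin 1 => Finset.univ.lcm a)
    (fun _ : Fin 1 => bpPoly a)

/-- EXV (60 lines). The exponent vector, if the sum of three of the `1/a_i` is at least one.
PROOF. Let `M = lcm (a) * a_l` (a multiple of all `a_i`, `M ≥ a_l`), `e_i = M / a_i` for `i ≠ l`, `e_l = 1`. The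
weighted degree of `x_i^(a_i)` is `M` for `i ≠ l` and `a_l ≤ M` for `i = l`, so that of `bpPoly a` is `≤ M`
(`MvPolynomial.weightedTotalDegree`, `Finset.sup_le` over the support; the support of a sum of monomials),
and `∑ e_i = M ∑_(i ≠ l) 1/a_i + 1 ≥ M + 1`. -/
def StmtExv : Prop := ∀ a : Fin 4 → ℕ, (∀ i, 2 ≤ a i) →
  (∃ l, 1 ≤ ∑ i ∈ Finset.univ.erase l, 1 / (a i : ℚ)) →
  ∃ e : Fin 4 → ℕ, ∑ _k : Fin 1, (bpPoly a).weightedTotalDegree e < ∑ i, e i ∧ ∃ i, e i ≤ 1

/-- PRM (80 lines). Permutation of the coordinates.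
PROOF. `bpPoly (a ∘ σ)` is obtained from `bpPoly a` by the renaming `x_(σ i) ↦ x_i`
(`MvPolynomial.rename`, `aeval_rename`), and `charts (x ∘ σ) i = charts x (σ i)` (`Set.range (x ∘ σ) = Set.range x`).
In `A1UniruledOn`, `IsLineFamily` the index `i` is existentially quantified. -/
def StmtPrm : Prop := ∀ (a : Fin 4 → ℕ) (σ : Equiv.Perm (Fin 4)) (K : Type) [Field K] [Algebra ℂ K]
  (x : Fin 4 → K), IsFunctionField (fun _ : Fin 1 => bpPoly a) x →
  IsFunctionField (fun _ : Fin 1 => bpPoly (a ∘ σ)) (x ∘ σ) ∧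
  (A1UniruledOn (charts (x ∘ σ)) → A1UniruledOn (charts x))

/-- FIN (120 lines, uses everything). The final theorem.
PROOF. `w`, `d` as in `StmtQs`; `Σ := ∑ 1/a_i`; `∑ w_i = L Σ`, `∑ d = L`. `1 → 2`: `StmtDim` (transcendence degree `3`)
and `logKodairaNegInfOn_of_a1UniruledOn` with `a1UniruledOn_iff` (`Pool/Agent/Lib/MP_410da7_ag/T1Neg.lean`,
see the end of `Pool/Agent/Lib/MP_410da7_agP/Mai.lean`). `2 → 3`: `StmtKod`. `3 → 1`: if the condition of
`StmtExv` holds, by `Pool.Agent.Lib.MP_410da7_ag.Moved.PuncturedCones.result` (hypothesis `hPC`).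
Otherwise let `σ = Tuple.sort a`, `b = a ∘ σ` (`Tuple.monotone_sort`). The sum of any three `1/b_i` is `< 1`, so
`StmtCls` gives `q ∈ fam`, `t ∈ q.2` with `b = evf t`, and `fam_ok`: `q.1.chk`, `TypOk q.1 t`. `StmtChk` and
`StmtLift` give an identity over `ℂ` for `Z = q.1`; `StmtFoot` (with `a' = b`) gives `Football b`; `StmtKey` for
`b`, `x ∘ σ`, and `StmtPrm`. -/
def StmtFin : Prop := ∀ (a : Fin 4 → ℕ), (∀ i, 2 ≤ a i) → ∀ (K : Type) [Field K] [Algebra ℂ K]
  (x : Fin 4 → K), IsFunctionField (fun _ : Fin 1 => bpPoly a) x →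
  List.TFAE [A1UniruledOn (charts x), LogKodairaNegInfOn (charts x) 3, 1 < ∑ i, 1 / (a i : ℚ)]

end

end Pool.Agent.BP
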